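import Pool.Agent.CPI.Defs

/-!
# CPI/Sxm: stereographic coordinates   (difficulty 2-3)

`sx (ζ, Y) = (2 e^Y ζ / (1 + |ζ|²), e^Y (1 - |ζ|²) / (1 + |ζ|²))`.
* `rr_sx : rr = e^Y` (`4 |ζ|² + (1 - |ζ|²)² = (1 + |ζ|²)²`).  `rr x + h = 2 e^Y / (1 + |ζ|²) > 0`, so `ζ = w / (rr + h)`, `Y = log rr`: `sx_inj`.
* `sx_ld`: `sx` is smooth; it has the smooth left inverse `x ↦ (x.1 / (rr x + x.2), log (rr x))` near the image (`rr` is smooth at `x ≠ 0`: `Real.sqrt` of `q2 > 0`), and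
  conversely `sx (w / (r + h), log r) = (w, h)` for `r + h > 0`, `r = rr (w, h)` (`|ζ|² = (r² - h²)/(r + h)² = (r - h)/(r + h)`, `1 + |ζ|² = 2 r / (r + h)`).  Use `CSG.ld_two`/`RSG.ld_two`
  (local inverse) or `CSG.ld_of_fderiv`; or `CSG.ld_of_comp_left` with the smooth inverse.
* `wx_sx`: `cos (π/2 - 2 arctan r) = sin (2 arctan r) = 2 r / (1 + r²)`, `sin (π/2 - 2 arctan r) = cos (2 arctan r) = (1 - r²)/(1 + r²)` (`Real.cos_sq_arctan`, `Real.sin_arctan`,
  `Real.cos_arctan`, `Real.sin_two_mul`, `Real.cos_two_mul`).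
* `ms_ms`, `rr_ms`, `ms_ld` (linear isomorphism).
* `echart_sx`: `EChart` of `(q, t) ↦ F (ms ε (sx q), t)` on `{q | normSq q.1 < 1 ∧ 0 < q.2 ∧ q.2 < 1}`: open (continuity); `⊥`: `m = 0`; `equiv`: `hF.chart.equiv`; `loc`: the point `ms ε (sx q)` has
  `rr = e^Y ∈ (1, e)` and height `ε e^Y (1 - |ζ|²)/(1 + |ζ|²) ≠ 0`, so is in `W` (`hF.up`), composition of local diffeomorphisms (`(q, t) ↦ (ms ε (sx q), t)`: `RSG.ld_prodMap`); `inj`: `hF.chart.inj`
  (`m ∈ ⊥`), `sx_inj`.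
-/

open scoped Manifold ContDiff Topology
open Set Filter
open Complex (I normSq)

namespace Pool.Agent.CPI

open Pool.Agent.PTH (Act Carries)
open Pool.Agent.CHW (F3 rr LD)
open Pool.Agent.ISO (EChart)

theorem Sxm_ns (q : ℂ) : 0 < 1 + normSq q := by
  have := Complex.normSq_nonneg q
  linarith

theorem Sxm_q2 (q : ℂ × ℝ) : CHW.q2 (sx q) = Real.exp q.2 ^ 2 := by
  have h := Sxm_ns q.1
  unfold CHW.q2 sx
  simp only
  rw [Complex.normSq_mul, Complex.normSq_ofReal]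
  field_simp
  ring

theorem rr_sx (q : ℂ × ℝ) : rr (sx q) = Real.exp q.2 := by
  unfold rr
  rw [Sxm_q2, Real.sqrt_sq (Real.exp_pos _).le]

/-- the left inverse -/
noncomputable def Sxm_g (x : F3) : ℂ × ℝ := (x.1 / ((rr x + x.2 : ℝ) : ℂ), Real.log (rr x))

theorem Sxm_sum (q : ℂ × ℝ) : rr (sx q) + (sx q).2 = 2 * Real.exp q.2 / (1 + normSq q.1) := by
  have h := Sxm_ns q.1
  rw [rr_sx]
  unfold sx
  simp only
  field_simp
  ring

theorem Sxm_gs (q : ℂ × ℝ) : Sxm_g (sx q) = q := by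
  have h := Sxm_ns q.1
  have he := Real.exp_pos q.2
  refine Prod.ext ?_ ?_
  · change (sx q).1 / ((rr (sx q) + (sx q).2 : ℝ) : ℂ) = q.1
    rw [Sxm_sum]
    change ((2 * Real.exp q.2 / (1 + normSq q.1) : ℝ) : ℂ) * q.1 / _ = q.1
    have h2 : ((2 * Real.exp q.2 / (1 + normSq q.1) : ℝ) : ℂ) ≠ 0 := by
      rw [Ne, Complex.ofReal_eq_zero]
      positivity
    rw [mul_comm, mul_div_assoc, div_self h2, mul_one]
  · change Real.log (rr (sx q)) = q.2
    rw [rr_sx, Real.log_exp]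

theorem Sxm_q2s : ContDiff ℝ ∞ CHW.q2 := by
  have h : CHW.q2 = fun x : F3 => ‖x.1‖ ^ 2 + x.2 ^ 2 := by
    funext x
    unfold CHW.q2
    rw [Complex.normSq_eq_norm_sq]
  rw [h]
  exact ((contDiff_norm_sq ℝ).comp contDiff_fst).add (contDiff_snd.pow 2)

theorem Sxm_nss : ContDiff ℝ ∞ fun q : ℂ × ℝ => normSq q.1 := by
  have h : (fun q : ℂ × ℝ => normSq q.1) = fun q : ℂ × ℝ => ‖q.1‖ ^ 2 := by
    funext x
    rw [Complex.normSq_eq_norm_sq]
  rw [h]
  exact (contDiff_norm_sq ℝ).comp contDiff_fst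

theorem Sxm_smooth : ContDiff ℝ ∞ sx := by
  unfold sx
  have h1 : ContDiff ℝ ∞ fun q : ℂ × ℝ => 1 + normSq q.1 := contDiff_const.add Sxm_nss
  have h2 : ContDiff ℝ ∞ fun q : ℂ × ℝ => Real.exp q.2 := Real.contDiff_exp.comp contDiff_snd
  have h3 : ContDiff ℝ ∞ fun q : ℂ × ℝ => 2 * Real.exp q.2 / (1 + normSq q.1) :=
    (contDiff_const.mul h2).div h1 (fun q => (Sxm_ns q.1).ne')
  have h4 : ContDiff ℝ ∞ fun q : ℂ × ℝ => ((2 * Real.exp q.2 / (1 + normSq q.1) : ℝ) : ℂ) :=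
    Complex.ofRealCLM.contDiff.comp h3
  have h5 : ContDiff ℝ ∞ fun q : ℂ × ℝ => Real.exp q.2 * (1 - normSq q.1) / (1 + normSq q.1) :=
    (h2.mul (contDiff_const.sub Sxm_nss)).div h1 (fun q => (Sxm_ns q.1).ne')
  exact (h4.mul contDiff_fst).prodMk h5

theorem Sxm_gd (q : ℂ × ℝ) : DifferentiableAt ℝ Sxm_g (sx q) := by
  have he := Real.exp_pos q.2
  have h := Sxm_ns q.1
  have h0 : DifferentiableAt ℝ CHW.q2 (sx q) := (Sxm_q2s.differentiable (by simp)).differentiableAt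
  have h1 : DifferentiableAt ℝ rr (sx q) := by
    have : CHW.q2 (sx q) ≠ 0 := by
      rw [Sxm_q2]
      positivity
    exact h0.sqrt this
  have h2 : DifferentiableAt ℝ (fun x : F3 => Real.log (rr x)) (sx q) := by
    apply h1.log
    rw [rr_sx]
    exact he.ne'
  have h3 : DifferentiableAt ℝ (fun x : F3 => ((rr x + x.2 : ℝ) : ℂ)) (sx q) :=
    Complex.ofRealCLM.differentiableAt.comp (sx q) (h1.add differentiableAt_snd)
  have h4 : ((rr (sx q) + (sx q).2 : ℝ) : ℂ) ≠ 0 := by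
    rw [Sxm_sum, Ne, Complex.ofReal_eq_zero]
    positivity
  have h5 : DifferentiableAt ℝ (fun x : F3 => x.1 / ((rr x + x.2 : ℝ) : ℂ)) (sx q) := by
    have h6 := (h3.inv h4)
    have h7 : (fun x : F3 => x.1 / ((rr x + x.2 : ℝ) : ℂ)) =
        fun x : F3 => x.1 * (((rr x + x.2 : ℝ) : ℂ))⁻¹ := by
      funext x
      rw [div_eq_mul_inv]
    rw [h7]
    exact differentiableAt_fst.mul h6
  exact h5.prodMk h2

theorem sx_inj {q q' : ℂ × ℝ} (h : sx q = sx q') : q = q' := by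
  rw [← Sxm_gs q, ← Sxm_gs q', h]

theorem sx_ld (q : ℂ × ℝ) : LD sx q :=
  RSG.ld_left (g := Sxm_g) (Filter.Eventually.of_forall fun _ => Sxm_smooth.contDiffAt) rfl
    (Sxm_gd q) (Filter.Eventually.of_forall Sxm_gs)

/-- the image of `sx` -/
theorem sx_surj {x : F3} (h : 0 < rr x + x.2) : sx (x.1 / ((rr x + x.2 : ℝ) : ℂ), Real.log (rr x)) = x := by
  obtain ⟨r, hr⟩ : ∃ r, r = rr x := ⟨_, rfl⟩
  have hq : 0 ≤ CHW.q2 x := by
    unfold CHW.q2
    have := Complex.normSq_nonneg x.1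
    positivity
  have hr2 : r ^ 2 = normSq x.1 + x.2 ^ 2 := by
    rw [hr]
    exact Real.sq_sqrt hq
  have hr0 : 0 ≤ r := by
    rw [hr]
    exact Real.sqrt_nonneg _
  rw [← hr] at h ⊢
  have hn := Complex.normSq_nonneg x.1
  have hrp : 0 < r := by
    rcases lt_or_eq_of_le hr0 with h1 | h1
    · exact h1
    · exfalso
      rw [← h1] at hr2 h
      nlinarith
  have hz : normSq (x.1 / ((r + x.2 : ℝ) : ℂ)) = (r - x.2) / (r + x.2) := by
    rw [Complex.normSq_div, Complex.normSq_ofReal, div_eq_div_iff (mul_ne_zero h.ne' h.ne') h.ne']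
    have : normSq x.1 = (r - x.2) * (r + x.2) := by linarith
    rw [this]
    ring
  have hne : r + x.2 ≠ 0 := h.ne'
  have hs : 1 + (r - x.2) / (r + x.2) = 2 * r / (r + x.2) := by
    rw [eq_div_iff hne, add_mul, div_mul_cancel₀ _ hne]
    ring
  unfold sx
  simp only
  rw [hz, Real.exp_log hrp, hs]
  have e1 : 2 * r / (2 * r / (r + x.2)) = r + x.2 := by
    rw [div_div_eq_mul_div, mul_comm, mul_div_assoc, div_self (by positivity), mul_one]
  have e2 : r * (1 - (r - x.2) / (r + x.2)) / (2 * r / (r + x.2)) = x.2 := by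
    rw [div_div_eq_mul_div, mul_assoc, sub_mul, one_mul, div_mul_cancel₀ _ hne,
      div_eq_iff (by positivity)]
    ring
  rw [e1, e2, mul_comm, div_mul_cancel₀ _ (by exact_mod_cast hne)]

theorem wx_sx (Y r : ℝ) : wx Y (Real.pi / 2 - 2 * Real.arctan r) = sx ((r : ℝ), Y) := by
  have h1 : 0 < 1 + r ^ 2 := by positivity
  have h2 : √(1 + r ^ 2) * √(1 + r ^ 2) = 1 + r ^ 2 := Real.mul_self_sqrt h1.le
  have h3 : 0 < √(1 + r ^ 2) := Real.sqrt_pos.2 h1
  have h6 : 0 < 1 + r * r := by nlinarith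
  have hk : 1 / √(1 + r ^ 2) * (1 / √(1 + r ^ 2)) = 1 / (1 + r * r) := by
    rw [div_mul_div_comm, one_mul, h2, sq]
  have h4 : Real.cos (Real.pi / 2 - 2 * Real.arctan r) = 2 * r / (1 + r * r) := by
    rw [Real.cos_pi_div_two_sub, Real.sin_two_mul, Real.sin_arctan, Real.cos_arctan]
    calc 2 * (r / √(1 + r ^ 2)) * (1 / √(1 + r ^ 2))
        = 2 * r * (1 / √(1 + r ^ 2) * (1 / √(1 + r ^ 2))) := by ring
      _ = 2 * r / (1 + r * r) := by
        rw [hk]
        ring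
  have h5 : Real.sin (Real.pi / 2 - 2 * Real.arctan r) = (1 - r * r) / (1 + r * r) := by
    rw [Real.sin_pi_div_two_sub, Real.cos_two_mul, Real.cos_arctan, sq, hk, eq_div_iff h6.ne',
      sub_mul, mul_assoc, div_mul_cancel₀ _ h6.ne']
    ring
  unfold wx sx
  simp only
  rw [h4, h5, Complex.normSq_ofReal]
  refine Prod.ext ?_ ?_
  · simp only
    push_cast
    ring
  · simp only
    ring

theorem rr_ms {ε : ℝ} (hε : ε = 1 ∨ ε = -1) (x : F3) : rr (ms ε x) = rr x := by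
  unfold rr CHW.q2 ms
  simp only
  rcases hε with rfl | rfl
  · rw [one_mul]
  · congr 1
    ring

theorem ms_ms {ε : ℝ} (hε : ε = 1 ∨ ε = -1) (x : F3) : ms ε (ms ε x) = x := by
  unfold ms
  rcases hε with rfl | rfl
  · refine Prod.ext rfl ?_
    simp
  · refine Prod.ext rfl ?_
    simp

theorem Sxm_mss (ε : ℝ) : ContDiff ℝ ∞ (ms ε) :=
  contDiff_fst.prodMk (contDiff_const.mul contDiff_snd)

theorem ms_ld {ε : ℝ} (hε : ε = 1 ∨ ε = -1) (x : F3) : LD (ms ε) x :=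
  CSG.ld_of_perm (f := (⟨ms ε, ms ε, ms_ms hε, ms_ms hε⟩ : F3 ≃ F3)) (Sxm_mss ε) (Sxm_mss ε) x

/-- `wx Y (-φ)` is the mirror image of `wx Y φ` -/
theorem wx_neg (Y φ : ℝ) : wx Y (-φ) = ms (-1) (wx Y φ) := by
  unfold wx ms
  simp only
  rw [Real.cos_neg, Real.sin_neg]
  refine Prod.ext rfl ?_
  simp only
  ring

variable {EP : Type*} [NormedAddCommGroup EP] [NormedSpace ℝ EP] {HP : Type*} [TopologicalSpace HP]
  {IP : ModelWithCorners ℝ EP HP} {P : Type*} [TopologicalSpace P] [ChartedSpace HP P]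

theorem echart_sx {a : ℝ → P → P} {d : ℝ} {W : Set F3} {F : F3 × ℝ → P} (hF : FCh IP a d W F) {ε : ℝ}
    (hε : ε = 1 ∨ ε = -1) : EChart IP a (⊥ : AddSubgroup (ℂ × ℝ)) {q : ℂ × ℝ | normSq q.1 < 1 ∧ 0 < q.2 ∧ q.2 < 1}
      (fun p => F (ms ε (sx p.1), p.2)) where
  opn := by
    have h1 : IsOpen {q : ℂ × ℝ | normSq q.1 < 1} := isOpen_lt Sxm_nss.continuous continuous_const
    have h2 : IsOpen {q : ℂ × ℝ | 0 < q.2} := isOpen_lt continuous_const continuous_snd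
    have h3 : IsOpen {q : ℂ × ℝ | q.2 < 1} := isOpen_lt continuous_snd continuous_const
    exact h1.inter (h2.inter h3)
  inv := by
    intro x hx m hm
    rw [AddSubgroup.mem_bot] at hm
    rw [hm, add_zero]
    exact hx
  per := by
    intro x t m hm
    rw [AddSubgroup.mem_bot] at hm
    simp only
    rw [hm, add_zero]
  equiv := by
    intro x t
    exact hF.chart.equiv _ _
  loc := by
    rintro x t ⟨hx1, hx2, hx3⟩
    have hn := Sxm_ns x.1
    have he := Real.exp_pos x.2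
    have hW : ms ε (sx x) ∈ W := by
      apply hF.up
      · rw [rr_ms hε, rr_sx]
        exact Real.one_lt_exp_iff.2 hx2
      · rw [rr_ms hε, rr_sx]
        exact Real.exp_lt_exp.2 hx3
      · change ε * (Real.exp x.2 * (1 - normSq x.1) / (1 + normSq x.1)) ≠ 0
        have h1 : 0 < 1 - normSq x.1 := by linarith
        have h2 : Real.exp x.2 * (1 - normSq x.1) / (1 + normSq x.1) ≠ 0 := by positivity
        refine mul_ne_zero ?_ h2
        rcases hε with rfl | rfl <;> norm_num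
    have h1 : IsLocalDiffeomorphAt 𝓘(ℝ, F3 × ℝ) 𝓘(ℝ, F3 × ℝ) ∞
        (fun p : F3 × ℝ => (ms ε (sx p.1), p.2)) (x, t) := by
      refine RSG.ld_left (g := fun p : F3 × ℝ => (Sxm_g (ms ε p.1), p.2))
        (Filter.Eventually.of_forall fun _ => ?_) rfl ?_ (Filter.Eventually.of_forall ?_)
      · exact (((Sxm_mss ε).comp (Sxm_smooth.comp contDiff_fst)).prodMk contDiff_snd).contDiffAt
      · have h2 : DifferentiableAt ℝ (fun p : F3 × ℝ => ms ε p.1) (ms ε (sx x), t) :=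
          (((Sxm_mss ε).comp contDiff_fst).differentiable (by simp)).differentiableAt
        have h3 : DifferentiableAt ℝ Sxm_g (ms ε (ms ε (sx x))) := by
          rw [ms_ms hε]
          exact Sxm_gd x
        have h4 : DifferentiableAt ℝ (fun p : F3 × ℝ => Sxm_g (ms ε p.1)) (ms ε (sx x), t) :=
          DifferentiableAt.comp (ms ε (sx x), t) (g := Sxm_g) (f := fun p : F3 × ℝ => ms ε p.1) h3 h2
        exact h4.prodMk differentiableAt_snd
      · rintro ⟨y, u⟩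
        simp only
        rw [ms_ms hε, Sxm_gs]
    exact IsLocalDiffeomorphAt.comp (hf := h1) (g := F) (hg := hF.chart.loc _ t hW)
  inj := by
    rintro x t x' t' ⟨hx1, hx2, hx3⟩ ⟨hx1', hx2', hx3'⟩ h
    have key : ∀ y : ℂ × ℝ, normSq y.1 < 1 → 0 < y.2 → y.2 < 1 → ms ε (sx y) ∈ W := by
      intro y hy1 hy2 hy3
      have hn := Sxm_ns y.1
      have he := Real.exp_pos y.2
      apply hF.up
      · rw [rr_ms hε, rr_sx]
        exact Real.one_lt_exp_iff.2 hy2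
      · rw [rr_ms hε, rr_sx]
        exact Real.exp_lt_exp.2 hy3
      · change ε * (Real.exp y.2 * (1 - normSq y.1) / (1 + normSq y.1)) ≠ 0
        have h1 : 0 < 1 - normSq y.1 := by linarith
        have h2 : Real.exp y.2 * (1 - normSq y.1) / (1 + normSq y.1) ≠ 0 := by positivity
        refine mul_ne_zero ?_ h2
        rcases hε with rfl | rfl <;> norm_num
    obtain ⟨⟨m, hm, h1⟩, h2⟩ := hF.chart.inj _ _ _ _ (key x hx1 hx2 hx3) (key x' hx1' hx2' hx3') h
    refine ⟨⟨0, AddSubgroup.zero_mem _, ?_⟩, h2⟩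
    rw [AddSubgroup.mem_bot] at hm
    rw [hm, add_zero] at h1
    have h3 := congrArg (ms ε) h1
    rw [ms_ms hε, ms_ms hε] at h3
    rw [add_zero]
    exact sx_inj h3

end Pool.Agent.CPI
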