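import Pool.Agent.CPI.Kkf
import Pool.Agent.CPI.Sxm

/-!
# CPI/AIs: the isotopy of the arc in the middle of a solid torus   (difficulty 3)

`arc_iso`: `ISO.carries_arc ha hLat (echart_sx hF hε)` (`Λ = ⊥`, `Lat ⊥` clear) with `k s l = kk Y₀ s (2 ε (l - c))`, `τ s l = τ l`,
`a₀ = c - 1/5`, `a₁ = c - 1/6`, `a' = c - 3/20`, `b' = c + 3/20`, `b₁ = c + 1/6`, `b₀ = c + 1/5` (`b₁ = c + 1/6 < a₁ + 1`).  `y = 2 ε (l - c)`, `|y| = 2 |l - c|`: `l ∈ [a₁, b₁]` iff `|y| ≤ 1/3`, `l ∈ [a', b']` iff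
`|y| ≤ 3/10`.
* `hk`: `kk_smooth` composed with `(s, l) ↦ (s, 2 ε (l - c))`.  `hend`: `kk_end`.
* `hkW`: `kk_norm` (`normSq ζ = ‖ζ‖² ≤ 1/9 < 1`), `kk_Y`.
* `himm`: chain rule, `deriv (k s) l = (2 ε) • deriv (kk Y₀ s) y` (`deriv_comp_..`, or `HasDerivAt.scomp`), `kk_imm`.  `hinj`: `m ∈ ⊥` is `0`; `kk_inj`, `ε ≠ 0`.
* `hK, hK'`: hypotheses.  `hrest`: `b₁ = c + 1/6 ≤ l ≤ a₁ + 1 = c + 5/6`.
* `hdis`: `l ∈ [a', b']`, `l'` in the rest, `K l' = F (ms ε (sx (kk Y₀ s y)), t)`; the point `x = ms ε (sx ..)` is in `W` (as in `echart_sx`: `hF.up`), so by `hout` `5 (ε x.2) ≤ 4 rr x`; but `ε x.2 = e^Y (1 - |ζ|²)/(1 + |ζ|²)`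
  (`ε² = 1`), `rr x = e^Y`, and `|ζ| < 1/3` (`kk_norm'`) gives `5 (1 - |ζ|²) > 4 (1 + |ζ|²)`.
* This is the case `Continuous K` (`hKc`).  If only `K'` is continuous: the same with the roles of `K, K'` exchanged and `k s l = kk Y₀ (1 - s) (2 ε (l - c))` (`kk (1 - s) y = kk 1 y` for
  `3/10 ≤ |y| ≤ 1/3` by `kk_end` twice; `K' = K` on the rest, so `hout` holds for `K'`).
-/

open scoped Manifold ContDiff Topology
open Set Filter
open Complex (I normSq)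

namespace Pool.Agent.CPI

open Pool.Agent.PTH (Act Carries)
open Pool.Agent.CHW (F3 rr)

variable {EP : Type*} [NormedAddCommGroup EP] [NormedSpace ℝ EP] {HP : Type*} [TopologicalSpace HP]
  {IP : ModelWithCorners ℝ EP HP} {P : Type*} [TopologicalSpace P] [ChartedSpace HP P]

theorem AIs_lat : Pool.Agent.ISO.Lat (⊥ : AddSubgroup (ℂ × ℝ)) := by
  intro R
  refine (Set.finite_singleton (0 : ℂ × ℝ)).subset ?_
  rintro x ⟨hx, -⟩
  exact AddSubgroup.mem_bot.1 hx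

theorem AIs_abs {ε : ℝ} (hε : ε = 1 ∨ ε = -1) (x : ℝ) : |2 * ε * x| = 2 * |x| := by
  rcases hε with rfl | rfl
  · rw [mul_one, abs_mul, abs_of_pos (show (0 : ℝ) < 2 by norm_num)]
  · rw [show 2 * (-1 : ℝ) * x = -(2 * x) by ring, abs_neg, abs_mul, abs_of_pos (show (0 : ℝ) < 2 by norm_num)]

theorem AIs_ne {ε : ℝ} (hε : ε = 1 ∨ ε = -1) : (2 * ε : ℝ) ≠ 0 := by
  rcases hε with rfl | rfl <;> norm_num

theorem AIs_sq {ε : ℝ} (hε : ε = 1 ∨ ε = -1) (x : ℝ) : ε * (ε * x) = x := by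
  rcases hε with rfl | rfl <;> ring

theorem AIs_main [T2Space P] {a : ℝ → P → P} (ha : Act IP a) {d : ℝ} {W : Set F3} {F : F3 × ℝ → P}
    (hF : FCh IP a d W F) {Y₀ : ℝ} (h0 : 0 < Y₀) (h1 : Y₀ < 1 / 2) {ε : ℝ} (hε : ε = 1 ∨ ε = -1) (c : ℝ) {τ : ℝ → ℝ}
    (hτ : ContDiff ℝ ∞ τ) {σ : ℝ → ℝ} (hσ : ContDiff ℝ ∞ σ) (hσm : ∀ s ∈ Icc (0 : ℝ) 1, σ s ∈ Icc (0 : ℝ) 1)
    {K K' : ℝ → P} (hKc : Continuous K) (hKp : ∀ l, K (l + 1) = K l)
    (hKp' : ∀ l, K' (l + 1) = K' l)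
    (hK : ∀ l, |l - c| ≤ 1 / 6 → K l = F (ms ε (sx (kk Y₀ (σ 0) (2 * ε * (l - c)))), τ l))
    (hK' : ∀ l, |l - c| ≤ 1 / 6 → K' l = F (ms ε (sx (kk Y₀ (σ 1) (2 * ε * (l - c)))), τ l))
    (hrest : ∀ l, c + 1 / 6 ≤ l → l ≤ c + 5 / 6 → K' l = K l)
    (hout : ∀ l, c + 1 / 6 ≤ l → l ≤ c + 5 / 6 → ∀ x ∈ W, ∀ t, K l = F (x, t) → 5 * (ε * x.2) ≤ 4 * rr x)
    (n : ℤ) (X : Type*) [TopologicalSpace X] [ChartedSpace (EuclideanSpace ℝ (Fin 4)) X] :
    Carries IP a n K X ↔ Carries IP a n K' X := by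
  have hab : ∀ l, l ∈ Icc (c - 1 / 6) (c + 1 / 6) → |l - c| ≤ 1 / 6 := by
    rintro l ⟨hl1, hl2⟩
    rw [abs_le]
    constructor <;> linarith
  have hab2 : ∀ l, l ∈ Icc (c - 1 / 6) (c + 1 / 6) → |2 * ε * (l - c)| ≤ 1 / 3 := by
    intro l hl
    rw [AIs_abs hε]
    linarith [hab l hl]
  have hsm := kk_smooth Y₀
  refine Pool.Agent.ISO.carries_arc (IP := IP) ha AIs_lat (echart_sx hF hε)
    (k := fun s l => kk Y₀ (σ s) (2 * ε * (l - c))) (τ := fun _ l => τ l) (a₀ := c - 1 / 5) (a₁ := c - 1 / 6)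
    (a' := c - 3 / 20) (b' := c + 3 / 20) (b₁ := c + 1 / 6) (b₀ := c + 1 / 5)
    (by linarith) (by linarith) (by linarith) (by linarith) (by linarith) (by linarith)
    ?_ ?_ ?_ ?_ ?_ ?_ hKc hKp hKp' ?_ ?_ ?_ ?_ n X
  · intro s _ l _
    have e1 : ContDiff ℝ ∞ fun q : ℝ × ℝ => (σ q.1, 2 * ε * (q.2 - c)) :=
      (hσ.comp contDiff_fst).prodMk (contDiff_const.mul (contDiff_snd.sub contDiff_const))
    exact (hsm.comp e1).contDiffAt
  · intro s _ l _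
    exact hτ.contDiffAt
  · intro s _ l hl hl'
    refine ⟨?_, rfl⟩
    have e1 : 3 / 10 ≤ |2 * ε * (l - c)| := by
      rw [AIs_abs hε]
      have : 3 / 20 ≤ |l - c| := by
        rw [le_abs]
        rcases hl' with h | h
        · right
          linarith
        · left
          linarith
      linarith
    exact (kk_end Y₀ (σ s) e1 (hab2 l hl)).trans (kk_end Y₀ (σ 0) e1 (hab2 l hl)).symm
  · intro s hs l hl
    have e1 := kk_norm Y₀ (hσm s hs) (hab2 l hl)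
    obtain ⟨e2, e3⟩ := kk_Y h1 (hσm s hs) (2 * ε * (l - c))
    refine ⟨?_, by linarith, by linarith⟩
    rw [Complex.normSq_eq_norm_sq]
    have e4 := norm_nonneg (kk Y₀ (σ s) (2 * ε * (l - c))).1
    nlinarith
  · intro s hs l hl
    have e1 : ContDiff ℝ ∞ (kk Y₀ (σ s)) :=
      hsm.comp (contDiff_const.prodMk contDiff_id : ContDiff ℝ ∞ fun y : ℝ => (σ s, y))
    have e2 : HasDerivAt (kk Y₀ (σ s)) (deriv (kk Y₀ (σ s)) (2 * ε * (l - c))) (2 * ε * (l - c)) :=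
      ((e1.differentiable (by simp)) _).hasDerivAt
    have e3 : HasDerivAt (fun l : ℝ => 2 * ε * (l - c)) (2 * ε) l := by
      have := ((hasDerivAt_id l).sub_const c).const_mul (2 * ε)
      rw [mul_one] at this
      exact this
    have e4 := HasDerivAt.scomp l e2 e3
    have e5 : deriv (fun l => kk Y₀ (σ s) (2 * ε * (l - c))) l = (2 * ε) • deriv (kk Y₀ (σ s)) (2 * ε * (l - c)) :=
      e4.deriv
    show deriv (fun l => kk Y₀ (σ s) (2 * ε * (l - c))) l ≠ 0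
    rw [e5]
    exact smul_ne_zero (AIs_ne hε) (kk_imm h1 (hσm s hs) (hab2 l hl))
  · intro s hs l hl l' hl' m hm e
    rw [AddSubgroup.mem_bot.1 hm, add_zero] at e
    have e1 := kk_inj h1 (hσm s hs) (hab2 l hl) (hab2 l' hl') e
    have e2 := mul_left_cancel₀ (AIs_ne hε) e1
    linarith
  · intro l hl
    exact hK l (hab l hl)
  · intro l hl
    exact hK' l (hab l hl)
  · intro l hl hl'
    exact hrest l hl (by linarith)
  · rintro s hs l ⟨hl1, hl2⟩ l' hl' hl'' t e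
    have e0 : |2 * ε * (l - c)| ≤ 3 / 10 := by
      rw [AIs_abs hε]
      have : |l - c| ≤ 3 / 20 := by
        rw [abs_le]
        constructor <;> linarith
      linarith
    have e1 := kk_norm' Y₀ (hσm s hs) e0
    obtain ⟨e2, e3⟩ := kk_Y h1 (hσm s hs) (2 * ε * (l - c))
    obtain ⟨q, hq⟩ : ∃ q, q = kk Y₀ (σ s) (2 * ε * (l - c)) := ⟨_, rfl⟩
    have e : K l' = F (ms ε (sx (kk Y₀ (σ s) (2 * ε * (l - c)))), t) := e
    rw [← hq] at e e1 e2 e3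
    have hN0 := Complex.normSq_nonneg q.1
    have hN : normSq q.1 < 1 / 9 := by
      rw [Complex.normSq_eq_norm_sq]
      have e4 := norm_nonneg q.1
      nlinarith
    have hE := Real.exp_pos q.2
    have hr : rr (ms ε (sx q)) = Real.exp q.2 := by
      rw [rr_ms hε, rr_sx]
    have hx2 : (ms ε (sx q)).2 = ε * (Real.exp q.2 * (1 - normSq q.1) / (1 + normSq q.1)) := rfl
    have hpos : 0 < Real.exp q.2 * (1 - normSq q.1) / (1 + normSq q.1) :=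
      div_pos (mul_pos hE (by linarith)) (by linarith)
    have hε0 : ε ≠ 0 := by
      rcases hε with h | h <;> rw [h] <;> norm_num
    have hW : ms ε (sx q) ∈ W := by
      refine hF.up _ ?_ ?_ ?_
      · rw [hr]
        exact Real.one_lt_exp_iff.2 (by linarith)
      · rw [hr]
        exact Real.exp_lt_exp.2 (by linarith)
      · rw [hx2]
        exact mul_ne_zero hε0 hpos.ne'
    have key := hout l' hl' (by linarith) _ hW t e
    rw [hr, hx2, AIs_sq hε] at key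
    have h5 : 5 * (Real.exp q.2 * (1 - normSq q.1)) ≤ 4 * Real.exp q.2 * (1 + normSq q.1) := by
      have h6 : 5 * (Real.exp q.2 * (1 - normSq q.1)) / (1 + normSq q.1) ≤ 4 * Real.exp q.2 := by
        rw [mul_div_assoc]
        exact key
      rwa [div_le_iff₀ (by linarith)] at h6
    have h7 : 0 < Real.exp q.2 * (1 - 9 * normSq q.1) := mul_pos hE (by linarith)
    nlinarith

theorem arc_iso [T2Space P] {a : ℝ → P → P} (ha : Act IP a) {d : ℝ} {W : Set F3} {F : F3 × ℝ → P}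
    (hF : FCh IP a d W F) {Y₀ : ℝ} (h0 : 0 < Y₀) (h1 : Y₀ < 1 / 2) {ε : ℝ} (hε : ε = 1 ∨ ε = -1) (c : ℝ) {τ : ℝ → ℝ}
    (hτ : ContDiff ℝ ∞ τ) {K K' : ℝ → P} (hKc : Continuous K ∨ Continuous K') (hKp : ∀ l, K (l + 1) = K l)
    (hKp' : ∀ l, K' (l + 1) = K' l)
    (hK : ∀ l, |l - c| ≤ 1 / 6 → K l = F (ms ε (sx (kk Y₀ 0 (2 * ε * (l - c)))), τ l))
    (hK' : ∀ l, |l - c| ≤ 1 / 6 → K' l = F (ms ε (sx (kk Y₀ 1 (2 * ε * (l - c)))), τ l))
    (hrest : ∀ l, c + 1 / 6 ≤ l → l ≤ c + 5 / 6 → K' l = K l)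
    (hout : ∀ l, c + 1 / 6 ≤ l → l ≤ c + 5 / 6 → ∀ x ∈ W, ∀ t, K l = F (x, t) → 5 * (ε * x.2) ≤ 4 * rr x)
    (n : ℤ) (X : Type*) [TopologicalSpace X] [ChartedSpace (EuclideanSpace ℝ (Fin 4)) X] :
    Carries IP a n K X ↔ Carries IP a n K' X := by
  rcases hKc with hKc | hKc
  · exact AIs_main ha hF h0 h1 hε c hτ (σ := fun s => s) contDiff_id (fun s hs => hs) hKc hKp hKp' hK hK' hrest hout n X
  · refine (AIs_main ha hF h0 h1 hε c hτ (σ := fun s => 1 - s) (contDiff_const.sub contDiff_id) ?_ hKc hKp' hKp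
      ?_ ?_ ?_ ?_ n X).symm
    · rintro s ⟨hs1, hs2⟩
      constructor <;> linarith
    · intro l hl
      show K' l = F (ms ε (sx (kk Y₀ (1 - 0) (2 * ε * (l - c)))), τ l)
      rw [sub_zero]
      exact hK' l hl
    · intro l hl
      show K l = F (ms ε (sx (kk Y₀ (1 - 1) (2 * ε * (l - c)))), τ l)
      rw [sub_self]
      exact hK l hl
    · intro l hl hl'
      exact (hrest l hl hl').symm
    · intro l hl hl' x hx t e
      rw [hrest l hl hl'] at e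
      exact hout l hl hl' x hx t e

end Pool.Agent.CPI
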