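import Pool.Agent.CPI.Defs

/-!
# CPI/KAy: the functions `YA`, `g1`, `thA`   (difficulty 2)

* `st_deriv_pos`: `S = Real.smoothTransition`, `S x = g x / (g x + g (1 - x))`, `g = expNegInvGlue`; for `0 < x < 1` near `x`: `g x = exp (-x⁻¹)`,
  `g' x = exp (-x⁻¹) / x² > 0`; `S' = (g' x g (1 - x) + g x g' (1 - x)) / (g x + g (1 - x))² > 0`.
* `YA Y₀ l = Y₀ + (1 - 2 Y₀) S (2/3 sin (2πl) + 1/2)`: smooth, of period 1; `YA (1/2 - l) = YA l` (`Real.sin_pi_sub`).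
  `Y₀ ≤ YA ≤ 1 - Y₀`.  `YA_lo`: `3/20 ≤ -l ≤ 7/20`: `sin (2πl) ≤ -sin (3π/10) = -cos (π/5) = -(1 + √5)/4 ≤ -3/4` (`Real.cos_pi_div_five`; `sin` is
  symmetric about `π/2`), so the argument of `S` is `≤ 0`.  `YA_hi`: the same with the opposite sign.
* `YA_deriv`: `deriv (YA Y₀) l = (1 - 2 Y₀) S'(..) (2/3) (2π cos (2πl))`; for `|l| ≤ 1/8`: `|sin (2πl)| ≤ √2/2 < 3/4`: the argument is in `(0, 1)`,
  `cos > 0`.  `YA_up`: `S' ≥ 0` (monotone), `cos (2πl) ≥ 0` for `|l| ≤ 1/4`.  `YA_dn`: `cos ≤ 0` for `1/4 ≤ l ≤ 3/4`.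
* `g1`: `g1_lo` `y ≤ 1/12`, `g1_hi` `1/6 ≤ y` (`Real.smoothTransition.zero_of_nonpos`, `one_of_one_le`), `0 ≤ g1 ≤ 1`, smooth, `0 ≤ deriv g1`.
* `thA`: `CSG.FunBasic_smooth`, `FunBasic_add_int`, `FunBasic_key` with `k = 0`: `thA l = stp (1/8) (3/8) l` for `-5/8 ≤ l ≤ 9/8`; `CSG.stp_zero`,
  `CSG.stp_one`; `stp (1/8) (3/8) (ρ/2) = stp (1/4) (3/4) ρ` by definition.
-/

open scoped Manifold ContDiff Topology
open Set Filter

namespace Pool.Agent.CPI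

open Pool.Agent.CSG (stp)

theorem KAy_dpos {x : ℝ} (h : 0 < x) (h' : x < 1) : 0 < deriv Real.smoothTransition x := by
  have hx' : x ≠ 0 := h.ne'
  have hx1 : 1 - x ≠ 0 := by linarith
  have hev : Real.smoothTransition =ᶠ[𝓝 x]
      fun y => Real.exp (-y⁻¹) / (Real.exp (-y⁻¹) + Real.exp (-(1 - y)⁻¹)) := by
    filter_upwards [Ioo_mem_nhds h h'] with y hy
    have hy0 : ¬ y ≤ 0 := not_le.2 hy.1
    have hy1 : ¬ (1 - y ≤ 0) := by
      rw [not_le]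
      linarith [hy.2]
    simp only [Real.smoothTransition, expNegInvGlue, hy0, hy1, if_false]
  have d1 : HasDerivAt (fun y : ℝ => Real.exp (-y⁻¹)) (Real.exp (-x⁻¹) * (x⁻¹) ^ 2) x := by
    have h := ((hasDerivAt_inv hx').neg).exp
    have e : Real.exp (-x⁻¹) * (x⁻¹) ^ 2 = Real.exp (-x⁻¹) * (- -(x ^ 2)⁻¹) := by
      rw [neg_neg, inv_pow]
    rw [e]
    exact h
  have d2 : HasDerivAt (fun y : ℝ => Real.exp (-(1 - y)⁻¹))
      (-(Real.exp (-(1 - x)⁻¹) * ((1 - x)⁻¹) ^ 2)) x := by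
    have h1' : HasDerivAt (fun y : ℝ => 1 - y) (-1) x := by
      simpa using (hasDerivAt_id x).const_sub 1
    have h := ((h1'.inv hx1).neg).exp
    have e : -(Real.exp (-(1 - x)⁻¹) * ((1 - x)⁻¹) ^ 2) =
        Real.exp (-(1 - x)⁻¹) * (-(- -1 / (1 - x) ^ 2)) := by
      rw [neg_neg, inv_pow]
      ring
    rw [e]
    exact h
  have hne : Real.exp (-x⁻¹) + Real.exp (-(1 - x)⁻¹) ≠ 0 := by positivity
  have d3 := d1.div (d1.add d2) hne
  have d4 : deriv Real.smoothTransition x =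
      Real.exp (-x⁻¹) * Real.exp (-(1 - x)⁻¹) * ((x⁻¹) ^ 2 + ((1 - x)⁻¹) ^ 2) /
        (Real.exp (-x⁻¹) + Real.exp (-(1 - x)⁻¹)) ^ 2 := by
    rw [hev.deriv_eq]
    have := d3.deriv
    have e2 : deriv (fun y => Real.exp (-y⁻¹) / (Real.exp (-y⁻¹) + Real.exp (-(1 - y)⁻¹))) x =
      deriv ((fun y : ℝ => Real.exp (-y⁻¹)) / ((fun y : ℝ => Real.exp (-y⁻¹)) +
        fun y : ℝ => Real.exp (-(1 - y)⁻¹))) x := rfl
    rw [e2, this]
    congr 1
    simp only [Pi.add_apply]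
    ring
  rw [d4]
  have h1 : 0 < x⁻¹ := inv_pos.2 h
  positivity

theorem st_deriv_pos {x : ℝ} (h0 : 0 < x) (h1 : x < 1) : 0 < deriv Real.smoothTransition x :=
  KAy_dpos h0 h1

theorem KAy_st : stp 0 1 = Real.smoothTransition := by
  funext x
  unfold stp
  rw [sub_zero, sub_zero, div_one]

theorem KAy_mono : Monotone Real.smoothTransition := by
  rw [← KAy_st]
  exact CSG.stp_mono (by norm_num)

theorem KAy_dnn (x : ℝ) : 0 ≤ deriv Real.smoothTransition x := by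
  rw [← KAy_st]
  exact CSG.stp_deriv_nonneg (by norm_num) x

theorem KAy_smooth : ContDiff ℝ ∞ Real.smoothTransition := by
  rw [← KAy_st]
  exact CSG.stp_smooth _ _

theorem KAy_hd (Y₀ l : ℝ) : HasDerivAt (YA Y₀) ((1 - 2 * Y₀) *
    (deriv Real.smoothTransition (2 / 3 * Real.sin (2 * Real.pi * l) + 1 / 2) *
      (2 / 3 * (Real.cos (2 * Real.pi * l) * (2 * Real.pi))))) l := by
  have h1 : HasDerivAt (fun l : ℝ => 2 * Real.pi * l) (2 * Real.pi) l := by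
    simpa using (hasDerivAt_id l).const_mul (2 * Real.pi)
  have h2 := h1.sin
  have h3 := (h2.const_mul (2 / 3)).add_const (1 / 2)
  have h4 : HasDerivAt Real.smoothTransition
      (deriv Real.smoothTransition (2 / 3 * Real.sin (2 * Real.pi * l) + 1 / 2))
      (2 / 3 * Real.sin (2 * Real.pi * l) + 1 / 2) :=
    (KAy_smooth.differentiable (by simp)).differentiableAt.hasDerivAt
  have h5 := HasDerivAt.comp l h4 h3
  exact (h5.const_mul (1 - 2 * Y₀)).const_add Y₀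

theorem KAy_cos {y : ℝ} (h : |y| ≤ Real.pi / 5) : 3 / 4 ≤ Real.cos y := by
  rw [← Real.cos_abs]
  have h1 : Real.cos (Real.pi / 5) ≤ Real.cos |y| :=
    Real.cos_le_cos_of_nonneg_of_le_pi (abs_nonneg y) (by linarith [Real.pi_pos]) h
  rw [Real.cos_pi_div_five] at h1
  have h2 : (2 : ℝ) ≤ √5 := by
    rw [show (2 : ℝ) = √4 by rw [show (4 : ℝ) = 2 ^ 2 by norm_num]; exact (Real.sqrt_sq (by norm_num)).symm]
    exact Real.sqrt_le_sqrt (by norm_num)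
  linarith

theorem YA_smooth (Y₀ : ℝ) : ContDiff ℝ ∞ (YA Y₀) := by
  unfold YA
  have h1 : ContDiff ℝ ∞ fun l : ℝ => 2 / 3 * Real.sin (2 * Real.pi * l) + 1 / 2 := by fun_prop
  exact contDiff_const.add (contDiff_const.mul (KAy_smooth.comp h1))

theorem YA_per (Y₀ l : ℝ) : YA Y₀ (l + 1) = YA Y₀ l := by
  unfold YA
  rw [show 2 * Real.pi * (l + 1) = 2 * Real.pi * l + 2 * Real.pi by ring, Real.sin_add_two_pi]

theorem YA_refl (Y₀ l : ℝ) : YA Y₀ (1 / 2 - l) = YA Y₀ l := by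
  unfold YA
  rw [show 2 * Real.pi * (1 / 2 - l) = Real.pi - 2 * Real.pi * l by ring, Real.sin_pi_sub]

theorem YA_ge {Y₀ : ℝ} (h : Y₀ < 1 / 2) (l : ℝ) : Y₀ ≤ YA Y₀ l := by
  unfold YA
  have h1 := Real.smoothTransition.nonneg (2 / 3 * Real.sin (2 * Real.pi * l) + 1 / 2)
  have h2 : 0 ≤ 1 - 2 * Y₀ := by linarith
  have := mul_nonneg h2 h1
  linarith

theorem YA_le {Y₀ : ℝ} (h : Y₀ < 1 / 2) (l : ℝ) : YA Y₀ l ≤ 1 - Y₀ := by
  unfold YA
  have h1 := Real.smoothTransition.le_one (2 / 3 * Real.sin (2 * Real.pi * l) + 1 / 2)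
  have h2 : 0 ≤ 1 - 2 * Y₀ := by linarith
  have := mul_le_mul_of_nonneg_left h1 h2
  linarith

theorem YA_lo (Y₀ : ℝ) {l : ℝ} (h1 : -(7 / 20) ≤ l) (h2 : l ≤ -(3 / 20)) : YA Y₀ l = Y₀ := by
  have hpi := Real.pi_pos
  have h3 : 3 / 4 ≤ Real.cos (2 * Real.pi * l + Real.pi / 2) := by
    apply KAy_cos
    rw [abs_le]
    constructor <;> nlinarith
  rw [Real.cos_add_pi_div_two] at h3
  unfold YA
  rw [Real.smoothTransition.zero_of_nonpos (by linarith)]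
  ring

theorem YA_hi (Y₀ : ℝ) {l : ℝ} (h1 : 3 / 20 ≤ l) (h2 : l ≤ 7 / 20) : YA Y₀ l = 1 - Y₀ := by
  have hpi := Real.pi_pos
  have h3 : 3 / 4 ≤ Real.cos (2 * Real.pi * l - Real.pi / 2) := by
    apply KAy_cos
    rw [abs_le]
    constructor <;> nlinarith
  rw [Real.cos_sub_pi_div_two] at h3
  unfold YA
  rw [Real.smoothTransition.one_of_one_le (by linarith)]
  ring

theorem YA_deriv {Y₀ : ℝ} (h : Y₀ < 1 / 2) {l : ℝ} (hl : |l| ≤ 1 / 8) : 0 < deriv (YA Y₀) l := by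
  have hpi := Real.pi_pos
  rw [(KAy_hd Y₀ l).deriv]
  have h1 : |2 * Real.pi * l| ≤ Real.pi / 4 := by
    rw [abs_mul, abs_of_pos (by positivity)]
    nlinarith
  have h2 : √2 / 2 ≤ Real.cos (2 * Real.pi * l) := by
    rw [← Real.cos_pi_div_four, ← Real.cos_abs (2 * Real.pi * l)]
    exact Real.cos_le_cos_of_nonneg_of_le_pi (abs_nonneg _) (by linarith) h1
  have h3 : 0 < √2 := Real.sqrt_pos.2 (by norm_num)
  have h4 : √2 * √2 = 2 := Real.mul_self_sqrt (by norm_num)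
  have h5 : 0 < Real.cos (2 * Real.pi * l) := by linarith
  have h6 : 1 / 2 ≤ Real.cos (2 * Real.pi * l) ^ 2 := by nlinarith
  have h7 : Real.sin (2 * Real.pi * l) ^ 2 ≤ 1 / 2 := by
    have := Real.sin_sq_add_cos_sq (2 * Real.pi * l)
    linarith
  have h8 : Real.sin (2 * Real.pi * l) < 3 / 4 := by nlinarith
  have h9 : -(3 / 4) < Real.sin (2 * Real.pi * l) := by nlinarith
  have h10 : 0 < 1 - 2 * Y₀ := by linarith
  have h11 := st_deriv_pos (x := 2 / 3 * Real.sin (2 * Real.pi * l) + 1 / 2) (by linarith) (by linarith)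
  positivity

theorem YA_up {Y₀ : ℝ} (h : Y₀ < 1 / 2) {l : ℝ} (hl : |l| ≤ 1 / 4) : 0 ≤ deriv (YA Y₀) l := by
  have hpi := Real.pi_pos
  rw [(KAy_hd Y₀ l).deriv]
  have hl' := abs_le.1 hl
  have h5 : 0 ≤ Real.cos (2 * Real.pi * l) := by
    apply Real.cos_nonneg_of_mem_Icc
    constructor <;> nlinarith [hl'.1, hl'.2]
  have h10 : 0 ≤ 1 - 2 * Y₀ := by linarith
  have h11 := KAy_dnn (2 / 3 * Real.sin (2 * Real.pi * l) + 1 / 2)
  positivity

theorem YA_dn {Y₀ : ℝ} (h : Y₀ < 1 / 2) {l : ℝ} (h1 : 1 / 4 ≤ l) (h2 : l ≤ 3 / 4) : deriv (YA Y₀) l ≤ 0 := by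
  have hpi := Real.pi_pos
  rw [(KAy_hd Y₀ l).deriv]
  have h5 : Real.cos (2 * Real.pi * l) ≤ 0 := by
    apply Real.cos_nonpos_of_pi_div_two_le_of_le <;> nlinarith
  have h10 : 0 ≤ 1 - 2 * Y₀ := by linarith
  have h11 := KAy_dnn (2 / 3 * Real.sin (2 * Real.pi * l) + 1 / 2)
  have h12 : 2 / 3 * (Real.cos (2 * Real.pi * l) * (2 * Real.pi)) ≤ 0 := by nlinarith
  exact mul_nonpos_of_nonneg_of_nonpos h10 (mul_nonpos_of_nonneg_of_nonpos h11 h12)

theorem g1_smooth : ContDiff ℝ ∞ g1 := by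
  unfold g1
  exact KAy_smooth.comp (by fun_prop)

theorem g1_nonneg (y : ℝ) : 0 ≤ g1 y := Real.smoothTransition.nonneg _

theorem g1_le (y : ℝ) : g1 y ≤ 1 := Real.smoothTransition.le_one _

theorem g1_lo {y : ℝ} (h : y ≤ 1 / 12) : g1 y = 0 :=
  Real.smoothTransition.zero_of_nonpos (by linarith)

theorem g1_hi {y : ℝ} (h : 1 / 6 ≤ y) : g1 y = 1 :=
  Real.smoothTransition.one_of_one_le (by linarith)

theorem KAy_g1mono : Monotone g1 := by
  intro x y h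
  exact KAy_mono (by linarith)

theorem g1_deriv (y : ℝ) : 0 ≤ deriv g1 y := by
  have h1 : HasDerivAt (fun y : ℝ => 12 * y - 1) 12 y := by
    simpa using ((hasDerivAt_id y).const_mul 12).sub_const 1
  have h4 : HasDerivAt Real.smoothTransition (deriv Real.smoothTransition (12 * y - 1)) (12 * y - 1) :=
    (KAy_smooth.differentiable (by simp)).differentiableAt.hasDerivAt
  have h5 : HasDerivAt g1 (deriv Real.smoothTransition (12 * y - 1) * 12) y := HasDerivAt.comp y h4 h1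
  rw [h5.deriv]
  have := KAy_dnn (12 * y - 1)
  positivity

theorem g1_mono : Monotone g1 := KAy_g1mono

theorem thA_smooth : ContDiff ℝ ∞ thA :=
  CSG.FunBasic_smooth (by norm_num) (by norm_num) (by norm_num)

theorem thA_per (l : ℝ) : thA (l + 1) = thA l + 1 := by
  have := CSG.FunBasic_add_int (1 / 8) (3 / 8) l 1
  push_cast at this
  exact this

theorem thA_eq {l : ℝ} (h1 : -(5 / 8) ≤ l) (h2 : l ≤ 9 / 8) : thA l = stp (1 / 8) (3 / 8) l := by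
  have := CSG.FunBasic_key (a := 1 / 8) (b := 3 / 8) (by norm_num) (by norm_num) (by norm_num) 0
    (x := l) (by push_cast; linarith) (by push_cast; linarith)
  unfold thA
  rw [this]
  simp

theorem thA_lo {l : ℝ} (h1 : -(5 / 8) ≤ l) (h2 : l ≤ 1 / 8) : thA l = 0 := by
  rw [thA_eq h1 (by linarith), CSG.stp_zero (by norm_num) h2]

theorem thA_hi {l : ℝ} (h1 : 3 / 8 ≤ l) (h2 : l ≤ 9 / 8) : thA l = 1 := by
  rw [thA_eq (by linarith) h2, CSG.stp_one (by norm_num) h1]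

end Pool.Agent.CPI
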