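import Pool.Agent.CPI.KAr
import Pool.Agent.CPI.KAy
import Pool.Agent.GLB.Prf

/-!
# CPI/KAw: the standard curve is a closed curve of the half plane   (difficulty 2-3)

`phA l = π/2 - 2 arctan (R (rA l))`, `R = TCgR`, `R ρ = prf ρ / prf (1 - ρ)`, `0 < ρ < 1`.
* `R` is smooth on `(0, 1)` (`GLB.prf_smooth`, `prf_pos`), positive, `deriv R > 0` (`GLB.prf_ratio_deriv`), `R (1 - ρ) = 1 / R ρ`, so `R (1/2) = 1`, `R ρ < 1` for `ρ < 1/2`
  (`GLB.prf_strict`, with `ρ' = 1/2`; or `R` strictly increasing), `R ρ > 1` for `ρ > 1/2`.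
* `phA_smooth`: `contDiff_iff_contDiffAt`, `rA_smooth`, `rA_pos`, `rA_lt`, `Real.contDiff_arctan`.  Period 1.  `|phA| < π/2`: `0 < arctan < π/2`.
* signs: `|l| < 1/4`: `rA l < 1/2` (`rA_half`), `R < 1`, `arctan < π/4` (`Real.arctan_one`, `Real.arctan_lt_arctan`), `phA > 0`; `1/4 < l < 3/4`: `rA l = 1 - rA (1/2 - l)`
  (`rA_refl`), `|1/2 - l| < 1/4`, so `rA l > 1/2`, `phA < 0`; `rA (± 1/4) = 1/2` (`rA_lin`, `rA_lin'`), `R = 1`, `phA = 0`.
* `phA_deriv`: for `1/12 < l < 5/12` near `l`: `phA l = π/2 - 2 arctan (R (2 l))`, `deriv phA l = -2 * 2 R'(2 l) / (1 + R²) < 0`; for `-5/12 < l < -1/12`: `phA l = π/2 - 2 arctan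
  (R (-(2 l)))`, `deriv phA l > 0`.  In particular `dl`, `dr` at `-1/4`, `1/4`.
* `wallA`: `YA_*` (`Y₀ ≤ YA ≤ 1 - Y₀`, `YA_lo`, `YA_hi` at `∓ 1/4`, `YA_up`, `YA_dn`).
* `regA`: by periodicity `-1/4 ≤ l < 3/4` (`p = ⌊l + 1/4⌋`).  `|l| ≤ 1/8`: `YA_deriv`.  `1/8 < l ≤ 3/8`: `phA_deriv`.  `-1/4 ≤ l < -1/8`: `phA_deriv`.  `3/8 < l < 3/4`: use the reflection
  `YA l = YA (1/2 - l)`, `phA (1/2 - l) = - phA l` (`arctan (1/x) = π/2 - arctan x`, `Real.arctan_inv_of_pos`): `deriv YA l = - deriv YA (1/2 - l)`, the same for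
  `phA` up to sign, and `1/2 - l ∈ (-1/4, 1/8)`.
* `injA`: by periodicity `l, l' ∈ [-1/4, 3/4)`; `phA l = phA l'` gives `R (rA l) = R (rA l')`, `rA l = rA l'` (`GLB.prf_ratio`), and both are in `[-1/4, 1/4]` (`phA ≥ 0`) or both in
  `(1/4, 3/4)`; the second case reduces to the first by `l ↦ 1/2 - l`.  First case: `YA` is weakly monotone on `[-1/4, 1/4]` and strictly on `[-1/8, 1/8]` (`strictMonoOn_of_deriv_pos`).  Let
  `l < l'`, `YA l = YA l'`; then `l' ≤ -1/8` or `1/8 ≤ l` (if `l < 1/8` and `-1/8 < l'`, then `YA l ≤ YA (max l (-1/8)) < YA (min l' (1/8)) ≤ YA l'`), and there `rA = -2 l` resp.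
  `2 l` is injective.
-/

open scoped Manifold ContDiff Topology
open Set Filter

namespace Pool.Agent.CPI

open Pool.Agent.GLB (TCgR)

theorem R_pos {ρ : ℝ} (h0 : 0 < ρ) (h1 : ρ < 1) : 0 < TCgR ρ := Pool.Agent.GLB.TCgR_pos h0 h1

theorem R_inv {ρ : ℝ} (h0 : 0 < ρ) (h1 : ρ < 1) : TCgR (1 - ρ) = (TCgR ρ)⁻¹ := by
  unfold TCgR
  rw [sub_sub_cancel, inv_div]

theorem R_small {ρ : ℝ} (h1 : ρ ≤ 1 / 3) : TCgR ρ = ρ := by
  unfold TCgR
  rw [Pool.Agent.GLB.prf_small h1, Pool.Agent.GLB.prf_big (by linarith), div_one]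

theorem KAw_mono {ρ ρ' : ℝ} (h0 : 0 < ρ) (h : ρ < ρ') (h1 : ρ' < 1) : TCgR ρ < TCgR ρ' := by
  unfold TCgR
  rw [div_lt_div_iff₀ (Pool.Agent.GLB.prf_pos (by linarith)) (Pool.Agent.GLB.prf_pos (by linarith))]
  exact Pool.Agent.GLB.prf_strict h0 h h1

theorem R_half : TCgR (1 / 2) = 1 := by
  unfold TCgR
  rw [show (1 : ℝ) - 1 / 2 = 1 / 2 by norm_num]
  exact div_self (Pool.Agent.GLB.prf_pos (by norm_num)).ne'

theorem R_lt {ρ : ℝ} (h0 : 0 < ρ) (h1 : ρ < 1 / 2) : TCgR ρ < 1 := by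
  rw [← R_half]
  exact KAw_mono h0 h1 (by norm_num)

theorem R_ge {ρ : ℝ} (h0 : 1 / 3 ≤ ρ) (h1 : ρ < 1) : 1 / 3 ≤ TCgR ρ := by
  rcases h0.eq_or_lt with h | h
  · rw [← h, R_small le_rfl]
  · have := KAw_mono (by norm_num) h h1
    rw [R_small le_rfl] at this
    exact this.le

theorem KAw_inj {ρ ρ' : ℝ} (h0 : 0 < ρ) (h1 : ρ < 1) (h0' : 0 < ρ') (h1' : ρ' < 1)
    (h : TCgR ρ = TCgR ρ') : ρ = ρ' := by
  rcases lt_trichotomy ρ ρ' with h2 | h2 | h2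
  · exact absurd h (KAw_mono h0 h2 h1').ne
  · exact h2
  · exact absurd h (KAw_mono h0' h2 h1).ne'

theorem phA_smooth : ContDiff ℝ ∞ phA := by
  rw [contDiff_iff_contDiffAt]
  intro l
  unfold phA
  have h1 : ContDiffAt ℝ ∞ (fun l => TCgR (rA l)) l :=
    (Pool.Agent.GLB.TCgR_smooth (rA_lt l)).comp l rA_smooth.contDiffAt
  have h2 : ContDiffAt ℝ ∞ (fun l => Real.arctan (TCgR (rA l))) l :=
    Real.contDiff_arctan.contDiffAt.comp l h1
  exact contDiffAt_const.sub (contDiffAt_const.mul h2)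

theorem phA_refl (l : ℝ) : phA (1 / 2 - l) = -phA l := by
  unfold phA
  rw [rA_refl, R_inv (rA_pos l) (rA_lt l), Real.arctan_inv_of_pos (R_pos (rA_pos l) (rA_lt l))]
  ring

theorem KAw_per (l : ℝ) : phA (l + 1) = phA l := by
  unfold phA
  rw [rA_per]

theorem KAw_even (l : ℝ) : phA (-l) = phA l := by
  unfold phA
  rw [rA_even]

theorem KAw_pos {l : ℝ} (h : |l| < 1 / 4) : 0 < phA l := by
  have h1 := R_lt (rA_pos l) (rA_half h)
  have h2 := Real.arctan_strictMono h1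
  rw [Real.arctan_one] at h2
  unfold phA
  linarith

theorem KAw_zr : phA (1 / 4) = 0 := by
  unfold phA
  rw [rA_lin (by norm_num) (by norm_num), show (2 : ℝ) * (1 / 4) = 1 / 2 by norm_num, R_half,
    Real.arctan_one]
  ring

theorem KAw_zl : phA (-(1 / 4)) = 0 := by
  rw [KAw_even, KAw_zr]

theorem KAw_neg {l : ℝ} (h1 : 1 / 4 < l) (h2 : l < 3 / 4) : phA l < 0 := by
  have h3 := KAw_pos (l := 1 / 2 - l) (by rw [abs_lt]; constructor <;> linarith)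
  rw [phA_refl] at h3
  linarith

theorem KAw_dr {l : ℝ} (h1 : 1 / 12 < l) (h2 : l < 5 / 12) : deriv phA l < 0 := by
  have he : phA =ᶠ[𝓝 l] fun x => Real.pi / 2 - 2 * Real.arctan (TCgR (2 * x)) := by
    filter_upwards [Ioo_mem_nhds h1 h2] with x hx
    unfold phA
    rw [rA_lin hx.1.le hx.2.le]
  obtain ⟨h3, h4⟩ := Pool.Agent.GLB.TCgR_deriv (ρ := 2 * l) (by linarith) (by linarith)
  have h5 : HasDerivAt (fun x : ℝ => 2 * x) 2 l := by
    simpa using (hasDerivAt_id l).const_mul (2 : ℝ)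
  have h6 : HasDerivAt (fun x : ℝ => TCgR (2 * x)) (deriv TCgR (2 * l) * 2) l :=
    HasDerivAt.comp l h3 h5
  have h7 := ((h6.arctan).const_mul (2 : ℝ)).const_sub (Real.pi / 2)
  rw [he.deriv_eq, h7.deriv]
  have : 0 < 2 * (1 / (1 + TCgR (2 * l) ^ 2) * (deriv TCgR (2 * l) * 2)) := by positivity
  linarith

theorem KAw_dl {l : ℝ} (h1 : -(5 / 12) < l) (h2 : l < -(1 / 12)) : 0 < deriv phA l := by
  have he : phA = fun x => phA (-x) := by
    funext x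
    exact (KAw_even x).symm
  have h3 := KAw_dr (l := -l) (by linarith) (by linarith)
  rw [he, deriv_comp_neg]
  linarith

theorem wallA {Y₀ d : ℝ} (h0 : 0 < Y₀) (h1 : Y₀ < 1 / 2) (h2 : Y₀ < d) : WallC d (YA Y₀) phA where
  smY := YA_smooth Y₀
  smφ := phA_smooth
  perY := YA_per Y₀
  perφ := KAw_per
  pos l := h0.trans_le (YA_ge h1 l)
  lt l := (YA_le h1 l).trans_lt (by linarith)
  bd l := by
    have h3 := Real.arctan_pos.2 (R_pos (rA_pos l) (rA_lt l))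
    have h4 := Real.arctan_lt_pi_div_two (TCgR (rA l))
    unfold phA
    rw [abs_le]
    constructor <;> linarith
  up l h3 h4 := KAw_pos (abs_lt.2 ⟨h3, h4⟩)
  dn l h3 h4 := KAw_neg h3 h4
  left := KAw_zl
  right := KAw_zr
  Yl := by
    rw [YA_lo Y₀ (by norm_num) (by norm_num)]
    exact h2
  Yr := by
    rw [YA_hi Y₀ (by norm_num) (by norm_num)]
    linarith
  dup l h3 h4 := YA_up h1 (abs_le.2 ⟨h3.le, h4.le⟩)
  ddn l h3 h4 := YA_dn h1 h3.le h4.le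
  dl := KAw_dl (by norm_num) (by norm_num)
  dr := KAw_dr (by norm_num) (by norm_num)

theorem KAw_shift {f : ℝ → ℝ} (h : ∀ l, f (l + 1) = f l) (p : ℤ) (l : ℝ) : f (l - p) = f l := by
  have h1 : Function.Periodic f 1 := h
  have h2 := h1.sub_int_mul_eq (x := l) p
  rwa [mul_one] at h2

theorem KAw_shift' {f : ℝ → ℝ} (h : ∀ l, f (l + 1) = f l) (p : ℤ) (l : ℝ) :
    deriv f (l - p) = deriv f l := by
  have h1 : f = fun x => f (x - p) := by
    funext x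
    exact (KAw_shift h p x).symm
  conv_rhs => rw [h1]
  rw [deriv_comp_sub_const]

theorem KAw_fl (l : ℝ) : -(1 / 4) ≤ l - ⌊l + 1 / 4⌋ ∧ l - ⌊l + 1 / 4⌋ < 3 / 4 := by
  have h1 := Int.floor_le (l + 1 / 4)
  have h2 := Int.lt_floor_add_one (l + 1 / 4)
  constructor <;> linarith

theorem KAw_reg {Y₀ : ℝ} (h1 : Y₀ < 1 / 2) {l : ℝ} (h2 : -(1 / 4) ≤ l) (h3 : l ≤ 3 / 8) :
    deriv (YA Y₀) l ≠ 0 ∨ deriv phA l ≠ 0 := by
  rcases lt_or_ge l (-(1 / 8)) with h4 | h4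
  · exact Or.inr (KAw_dl (by linarith) (by linarith)).ne'
  · rcases le_or_gt l (1 / 8) with h5 | h5
    · exact Or.inl (YA_deriv h1 (abs_le.2 ⟨h4, h5⟩)).ne'
    · exact Or.inr (KAw_dr (by linarith) (by linarith)).ne

theorem regA {Y₀ : ℝ} (h1 : Y₀ < 1 / 2) (l : ℝ) : deriv (YA Y₀) l ≠ 0 ∨ deriv phA l ≠ 0 := by
  rw [← KAw_shift' (YA_per Y₀) ⌊l + 1 / 4⌋ l, ← KAw_shift' KAw_per ⌊l + 1 / 4⌋ l]
  obtain ⟨h2, h3⟩ := KAw_fl l
  generalize l - (⌊l + 1 / 4⌋ : ℝ) = m at h2 h3 ⊢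
  rcases le_or_gt m (3 / 8) with h4 | h4
  · exact KAw_reg h1 h2 h4
  · have h5 : deriv (YA Y₀) m = -deriv (YA Y₀) (1 / 2 - m) := by
      have e : YA Y₀ = fun x => YA Y₀ (1 / 2 - x) := by
        funext x
        exact (YA_refl Y₀ x).symm
      conv_lhs => rw [e]
      rw [deriv_comp_const_sub]
    have h6 : deriv phA m = deriv phA (1 / 2 - m) := by
      have e : phA = fun x => -phA (1 / 2 - x) := by
        funext x
        rw [phA_refl]
        ring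
      conv_lhs => rw [e]
      rw [deriv.fun_neg, deriv_comp_const_sub]
      ring
    rw [h5, h6, neg_ne_zero]
    exact KAw_reg h1 (by linarith) (by linarith)

theorem KAw_Ymono {Y₀ : ℝ} (h1 : Y₀ < 1 / 2) : MonotoneOn (YA Y₀) (Icc (-(1 / 4)) (1 / 4)) := by
  apply monotoneOn_of_deriv_nonneg (convex_Icc _ _) (YA_smooth Y₀).continuous.continuousOn
    ((YA_smooth Y₀).differentiable (by simp)).differentiableOn
  intro x hx
  rw [interior_Icc] at hx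
  exact YA_up h1 (abs_le.2 ⟨hx.1.le, hx.2.le⟩)

theorem KAw_Ystrict {Y₀ : ℝ} (h1 : Y₀ < 1 / 2) :
    StrictMonoOn (YA Y₀) (Icc (-(1 / 8)) (1 / 8)) := by
  apply strictMonoOn_of_deriv_pos (convex_Icc _ _) (YA_smooth Y₀).continuous.continuousOn
  intro x hx
  rw [interior_Icc] at hx
  exact YA_deriv h1 (abs_le.2 ⟨hx.1.le, hx.2.le⟩)

theorem KAw_injlt {Y₀ : ℝ} (h1 : Y₀ < 1 / 2) {l l' : ℝ} (ha : -(1 / 4) ≤ l) (hb : l' ≤ 1 / 4)
    (hlt : l < l') (hY : YA Y₀ l = YA Y₀ l') (hr : rA l = rA l') : False := by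
  rcases lt_or_ge l (1 / 8) with h2 | h2
  · rcases lt_or_ge (-(1 / 8)) l' with h3 | h3
    · have e1 : YA Y₀ l ≤ YA Y₀ (max l (-(1 / 8))) := by
        apply KAw_Ymono h1 ⟨ha, by linarith⟩ ⟨?_, ?_⟩ (le_max_left _ _)
        · exact ha.trans (le_max_left _ _)
        · exact max_le (by linarith) (by norm_num)
      have e2 : YA Y₀ (min l' (1 / 8)) ≤ YA Y₀ l' := by
        apply KAw_Ymono h1 ⟨?_, ?_⟩ ⟨by linarith, hb⟩ (min_le_left _ _)
        · exact le_min (by linarith) (by norm_num)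
        · exact (min_le_left _ _).trans hb
      have e3 : YA Y₀ (max l (-(1 / 8))) < YA Y₀ (min l' (1 / 8)) := by
        apply KAw_Ystrict h1 ⟨le_max_right _ _, max_le h2.le (by norm_num)⟩
          ⟨le_min h3.le (by norm_num), min_le_right _ _⟩
        exact max_lt (lt_min hlt h2) (lt_min h3 (by norm_num))
      linarith
    · rw [rA_lin' (by linarith) (by linarith), rA_lin' (by linarith) (by linarith)] at hr
      linarith
  · rw [rA_lin (by linarith) (by linarith), rA_lin (by linarith) (by linarith)] at hr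
    linarith

theorem KAw_inj1 {Y₀ : ℝ} (h1 : Y₀ < 1 / 2) {l l' : ℝ} (ha : -(1 / 4) ≤ l) (ha' : -(1 / 4) ≤ l')
    (hb : l ≤ 1 / 4) (hb' : l' ≤ 1 / 4) (hY : YA Y₀ l = YA Y₀ l') (hr : rA l = rA l') :
    l = l' := by
  rcases lt_trichotomy l l' with h | h | h
  · exact (KAw_injlt h1 ha hb' h hY hr).elim
  · exact h
  · exact (KAw_injlt h1 ha' hb h hY.symm hr.symm).elim

theorem KAw_nonneg {l : ℝ} (h1 : -(1 / 4) ≤ l) (h2 : l ≤ 1 / 4) : 0 ≤ phA l := by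
  rcases h1.eq_or_lt with h | h
  · rw [← h, KAw_zl]
  · rcases h2.eq_or_lt with h' | h'
    · rw [h', KAw_zr]
    · exact (KAw_pos (abs_lt.2 ⟨h, h'⟩)).le

theorem injA {Y₀ : ℝ} (h1 : Y₀ < 1 / 2) (l l' : ℝ) (hY : YA Y₀ l = YA Y₀ l') (hφ : phA l = phA l') :
    ∃ p : ℤ, l = l' + p := by
  suffices h : l - ⌊l + 1 / 4⌋ = l' - ⌊l' + 1 / 4⌋ by
    refine ⟨⌊l + 1 / 4⌋ - ⌊l' + 1 / 4⌋, ?_⟩
    push_cast
    linarith
  rw [← KAw_shift (YA_per Y₀) ⌊l + 1 / 4⌋ l, ← KAw_shift (YA_per Y₀) ⌊l' + 1 / 4⌋ l'] at hY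
  rw [← KAw_shift KAw_per ⌊l + 1 / 4⌋ l, ← KAw_shift KAw_per ⌊l' + 1 / 4⌋ l'] at hφ
  obtain ⟨h2, h3⟩ := KAw_fl l
  obtain ⟨h2', h3'⟩ := KAw_fl l'
  generalize l - (⌊l + 1 / 4⌋ : ℝ) = m at h2 h3 hY hφ ⊢
  generalize l' - (⌊l' + 1 / 4⌋ : ℝ) = m' at h2' h3' hY hφ ⊢
  have hr : rA m = rA m' := by
    apply KAw_inj (rA_pos m) (rA_lt m) (rA_pos m') (rA_lt m')
    apply Real.arctan_injective
    unfold phA at hφ
    linarith
  rcases le_or_gt m (1 / 4) with h4 | h4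
  · have h5 := KAw_nonneg h2 h4
    have h6 : m' ≤ 1 / 4 := by
      by_contra hcon
      have := KAw_neg (not_le.1 hcon) h3'
      linarith
    exact KAw_inj1 h1 h2 h2' h4 h6 hY hr
  · have h5 := KAw_neg h4 h3
    have h6 : 1 / 4 < m' := by
      by_contra hcon
      have := KAw_nonneg h2' (not_lt.1 hcon)
      linarith
    have h7 : 1 / 2 - m = 1 / 2 - m' := by
      apply KAw_inj1 h1 (by linarith) (by linarith) (by linarith) (by linarith)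
      · rw [YA_refl, YA_refl, hY]
      · rw [rA_refl, rA_refl, hr]
    linarith

end Pool.Agent.CPI
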