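import Pool.Agent.CPI.WIs

/-!
# CPI/KWl: the core of `K` as a curve of the half plane   (difficulty 3)

`x l = D.Wk (l + 3/4, 0)`, `YK D l = coY D.Wk (l + 3/4)`.
* `Wk_ne`: if `Wk (l, 0) = 0` then `Wk (l, 0) = exp 1 • Wk (l, 0)`, against `k_inj` (`n = 1`).
* `x l = (re, h)` with `re ≥ 0` (`core_re`), imaginary part `0` (`core_im`), so `c l = re + i h ≠ 0` is in the slit plane
  (`re > 0` or `h ≠ 0`), `‖c l‖ = rr (x l)`, `c l = ‖c l‖ (cos φ + i sin φ)` with `φ = arg (c l)` (`Complex.norm_mul_exp_arg_mul_I`, or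
  `Complex.norm_mul_cos_arg`, `Complex.norm_mul_sin_arg`), `rr = exp (log rr)`: `wk_wx`.
* smoothness: `l ↦ x l` is smooth: `Wk` is a local diffeomorphism at `(l, 0)` (`k_loc`), so `ContDiffAt` (`CSG.LDa/LDb`:
  `ld_contDiffAt`, or `IsLocalDiffeomorphAt.contMDiffAt`, `contMDiffAt_iff_contDiffAt`), composed with `l ↦ (l + 3/4, 0)`.  `rr = sqrt q2` is
  smooth where `q2 ≠ 0` (`ContDiffAt.sqrt`), `Real.log`; `Complex.arg z = (Complex.log z).im`, `Complex.contDiffAt_log` (`restrict_scalars`).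
* period: `k_per`.  Signs: `core_pos`, `core_neg` (for `l ∈ (1/4, 3/4)` use `l + 3/4 - 1`), `Complex.arg_neg_iff`, `Complex.arg_nonneg_iff`,
  `arg = 0` only if `im = 0`; `|arg| ≤ π/2`: `Complex.abs_arg_le_pi_div_two_iff`.
* `core_half`, `core_one`: `x (-1/4) = cyl (0, Y₁, 0)`, `x (1/4) = cyl (0, 1 - Y₂, 0)`, `cyl (0, Y, 0) = (e^Y, 0)`: `YK = Y₁`, `1 - Y₂`, `phK = 0`.
* `core_Y1`, `core_Y0`: the derivatives of `YK` (translate); so `YK` is increasing on `[-1/4, 1/4]`, decreasing on `[1/4, 3/4]`, with values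
  between `Y₁ > 0` and `1 - Y₂ < 1` (`YK (3/4) = YK (-1/4)`).
* `dl`: `coX D.Wk (l + 3/4) = sin (phK D l)`, so `deriv (coX) (1/2) = cos 0 * deriv phK (-1/4)`; `core_X0` at `1/2` (`coX = 0` there, as
  the height of `cyl (0, Y, 0)` is `0`).  `dr`: `core_X1` at `1`.
-/

open scoped Manifold ContDiff Topology
open Set Filter
open Complex (I normSq)

namespace Pool.Agent.CPI

open Pool.Agent.CHW (F3 rr cyl WD coX coY)

variable {d₀ x₁ ε : ℝ}

/-- `log |x|` on the core -/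
noncomputable def YK (D : WD d₀ x₁ ε) (l : ℝ) : ℝ := Real.log (rr (D.Wk (l + 3 / 4, 0)))
/-- latitude of the core -/
noncomputable def phK (D : WD d₀ x₁ ε) (l : ℝ) : ℝ :=
  Complex.arg ⟨(D.Wk (l + 3 / 4, 0)).1.re, (D.Wk (l + 3 / 4, 0)).2⟩

/-- the core -/
noncomputable def KWl_x (D : WD d₀ x₁ ε) (l : ℝ) : F3 := D.Wk (l + 3 / 4, 0)

noncomputable def KWl_c (D : WD d₀ x₁ ε) (l : ℝ) : ℂ := ⟨(D.Wk (l + 3 / 4, 0)).1.re, (D.Wk (l + 3 / 4, 0)).2⟩

theorem KWl_ne (D : WD d₀ x₁ ε) (l : ℝ) : D.Wk (l, 0) ≠ 0 := by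
  intro h
  have h1 := D.k_inj l 0 l 0 1 (by simp) (by simp) (by rw [h, smul_zero])
  exact absurd h1.1 (by norm_num)

theorem KWl_normSq (D : WD d₀ x₁ ε) (l : ℝ) : normSq (KWl_c D l) = Pool.Agent.CHW.q2 (KWl_x D l) := by
  unfold KWl_c KWl_x Pool.Agent.CHW.q2
  rw [Complex.normSq_mk, Complex.normSq_apply, D.core_im]
  ring

theorem KWl_c_ne (D : WD d₀ x₁ ε) (l : ℝ) : KWl_c D l ≠ 0 := by
  intro h
  refine KWl_ne D (l + 3 / 4) ?_
  have h1 : (D.Wk (l + 3 / 4, 0)).1.re = 0 := congrArg Complex.re h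
  have h2 : (D.Wk (l + 3 / 4, 0)).2 = 0 := congrArg Complex.im h
  exact Prod.ext (Complex.ext h1 (D.core_im _)) h2

theorem KWl_q2_pos (D : WD d₀ x₁ ε) (l : ℝ) : 0 < Pool.Agent.CHW.q2 (KWl_x D l) := by
  rw [← KWl_normSq]
  exact Complex.normSq_pos.2 (KWl_c_ne D l)

theorem KWl_rr (D : WD d₀ x₁ ε) (l : ℝ) : rr (KWl_x D l) = ‖KWl_c D l‖ := by
  unfold rr
  rw [← KWl_normSq, Complex.norm_def]

theorem KWl_rr_pos (D : WD d₀ x₁ ε) (l : ℝ) : 0 < rr (KWl_x D l) := by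
  rw [KWl_rr]
  exact norm_pos_iff.2 (KWl_c_ne D l)

theorem wk_wx (D : WD d₀ x₁ ε) (l : ℝ) : D.Wk (l + 3 / 4, 0) = wx (YK D l) (phK D l) := by
  have he : Real.exp (YK D l) = ‖KWl_c D l‖ := by
    rw [← KWl_rr]
    exact Real.exp_log (KWl_rr_pos D l)
  unfold wx
  rw [he]
  refine Prod.ext ?_ ?_
  · show _ = ((‖KWl_c D l‖ * Real.cos (Complex.arg (KWl_c D l)) : ℝ) : ℂ)
    rw [Complex.norm_mul_cos_arg]
    exact Complex.ext rfl (D.core_im _)
  · show _ = ‖KWl_c D l‖ * Real.sin (Complex.arg (KWl_c D l))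
    rw [Complex.norm_mul_sin_arg]
    rfl

theorem KWl_sm (D : WD d₀ x₁ ε) : ContDiff ℝ ∞ (KWl_x D) := by
  rw [contDiff_iff_contDiffAt]
  intro l
  have h1 : ContDiffAt ℝ ∞ D.Wk (l + 3 / 4, 0) :=
    contMDiffAt_iff_contDiffAt.1 (D.k_loc (l + 3 / 4) 0 (by simp)).contMDiffAt
  have h2 : ContDiffAt ℝ ∞ (fun l : ℝ => ((l + 3 / 4, 0) : ℝ × ℂ)) l := by fun_prop
  exact ContDiffAt.comp l h1 h2

theorem KWl_per (D : WD d₀ x₁ ε) (l : ℝ) : KWl_x D (l + 1) = KWl_x D l := by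
  unfold KWl_x
  rw [show l + 1 + 3 / 4 = l + 3 / 4 + 1 by ring, D.k_per]

theorem KWl_smY (D : WD d₀ x₁ ε) : ContDiff ℝ ∞ (YK D) := by
  have h1 : ContDiff ℝ ∞ fun l => (KWl_x D l).1.re :=
    Complex.reCLM.contDiff.comp (contDiff_fst.comp (KWl_sm D))
  have h1' : ContDiff ℝ ∞ fun l => (KWl_x D l).1.im :=
    Complex.imCLM.contDiff.comp (contDiff_fst.comp (KWl_sm D))
  have h2 : ContDiff ℝ ∞ fun l => (KWl_x D l).2 := contDiff_snd.comp (KWl_sm D)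
  have h3 : ContDiff ℝ ∞ fun l => Pool.Agent.CHW.q2 (KWl_x D l) := by
    unfold Pool.Agent.CHW.q2
    simp only [Complex.normSq_apply]
    exact ((h1.mul h1).add (h1'.mul h1')).add (h2.pow 2)
  have h4 : ContDiff ℝ ∞ fun l => rr (KWl_x D l) := by
    rw [contDiff_iff_contDiffAt]
    intro l
    exact (h3.contDiffAt (x := l)).sqrt (KWl_q2_pos D l).ne'
  exact h4.log fun l => (KWl_rr_pos D l).ne'

theorem KWl_slit (D : WD d₀ x₁ ε) (l : ℝ) : KWl_c D l ∈ Complex.slitPlane := by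
  rw [Complex.mem_slitPlane_iff]
  by_contra hcon
  push Not at hcon
  have h1 : (KWl_c D l).re = 0 := le_antisymm hcon.1 (D.core_re _)
  exact KWl_c_ne D l (Complex.ext h1 hcon.2)

theorem KWl_smph (D : WD d₀ x₁ ε) : ContDiff ℝ ∞ (phK D) := by
  have h1 : ContDiff ℝ ∞ fun l => (KWl_x D l).1.re :=
    Complex.reCLM.contDiff.comp (contDiff_fst.comp (KWl_sm D))
  have h2 : ContDiff ℝ ∞ fun l => (KWl_x D l).2 := contDiff_snd.comp (KWl_sm D)
  have h3 : ContDiff ℝ ∞ (KWl_c D) := by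
    have e : KWl_c D = fun l => (((KWl_x D l).1.re : ℝ) : ℂ) + (((KWl_x D l).2 : ℝ) : ℂ) * I := by
      funext l
      exact Complex.mk_eq_add_mul_I _ _
    rw [e]
    exact (Complex.ofRealCLM.contDiff.comp h1).add
      ((Complex.ofRealCLM.contDiff.comp h2).mul contDiff_const)
  rw [contDiff_iff_contDiffAt]
  intro l
  have h4 : ContDiffAt ℝ ∞ Complex.log (KWl_c D l) :=
    (Complex.contDiffAt_log (n := ∞) (KWl_slit D l)).restrict_scalars ℝ
  have h5 : ContDiffAt ℝ ∞ (fun l => Complex.log (KWl_c D l)) l :=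
    ContDiffAt.comp l h4 (h3.contDiffAt (x := l))
  have h6 : ContDiffAt ℝ ∞ (fun l => (Complex.log (KWl_c D l)).im) l :=
    Complex.imCLM.contDiff.contDiffAt.comp l h5
  refine h6.congr_of_eventuallyEq (Eventually.of_forall fun l' => ?_)
  show Complex.arg (KWl_c D l') = (Complex.log (KWl_c D l')).im
  rw [Complex.log_im]

theorem wallK_up (D : WD d₀ x₁ ε) : ∀ l, -(1 / 4) < l → l < 1 / 4 → 0 < deriv (YK D) l := by
  intro l h1 h2
  have e : YK D = fun l => coY D.Wk (l + 3 / 4) := rfl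
  rw [e, deriv_comp_add_const]
  exact D.core_Y1 _ (by linarith) (by linarith)

theorem wallK_dn (D : WD d₀ x₁ ε) : ∀ l, 1 / 4 < l → l < 3 / 4 → deriv (YK D) l < 0 := by
  intro l h1 h2
  have e : YK D = fun l => coY D.Wk (l + -(1 / 4)) := by
    funext l
    show Real.log (rr (D.Wk (l + 3 / 4, 0))) = Real.log (rr (D.Wk (l + -(1 / 4), 0)))
    rw [show l + 3 / 4 = l + -(1 / 4) + 1 by ring, D.k_per]
  rw [e, deriv_comp_add_const]
  exact D.core_Y0 _ (by linarith) (by linarith)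

theorem KWl_cyl (Y : ℝ) : cyl (0, Y, 0) = (((Real.exp Y : ℝ) : ℂ), 0) := by
  unfold cyl Pool.Agent.RSG.ex
  simp [Prod.smul_def, Real.sqrt_one]

theorem KWl_log_cyl (Y : ℝ) : Real.log (rr (cyl (0, Y, 0))) = Y := by
  rw [KWl_cyl]
  unfold rr Pool.Agent.CHW.q2
  simp only [Complex.normSq_ofReal]
  rw [show Real.exp Y * Real.exp Y + (0 : ℝ) ^ 2 = Real.exp Y ^ 2 by ring,
    Real.sqrt_sq (Real.exp_pos Y).le, Real.log_exp]

theorem KWl_arg_cyl (Y : ℝ) : Complex.arg ⟨(cyl (0, Y, 0)).1.re, (cyl (0, Y, 0)).2⟩ = 0 := by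
  rw [KWl_cyl, Complex.arg_eq_zero_iff]
  exact ⟨(Real.exp_pos Y).le, rfl⟩

theorem KWl_coX (D : WD d₀ x₁ ε) (l : ℝ) : coX D.Wk (l + 3 / 4) = Real.sin (phK D l) := by
  have h1 : ‖KWl_c D l‖ * Real.sin (Complex.arg (KWl_c D l)) = (D.Wk (l + 3 / 4, 0)).2 :=
    Complex.norm_mul_sin_arg (KWl_c D l)
  have h2 := KWl_rr_pos D l
  show (D.Wk (l + 3 / 4, 0)).2 / rr (KWl_x D l) = Real.sin (Complex.arg (KWl_c D l))
  rw [← h1, KWl_rr]
  rw [KWl_rr] at h2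
  field_simp

theorem KWl_dphi (D : WD d₀ x₁ ε) (l : ℝ) (h0 : phK D l = 0) :
    deriv (coX D.Wk) (l + 3 / 4) = deriv (phK D) l := by
  have h1 : deriv (fun l => coX D.Wk (l + 3 / 4)) l = deriv (coX D.Wk) (l + 3 / 4) := by
    rw [deriv_comp_add_const]
  rw [← h1]
  have h2 : (fun l => coX D.Wk (l + 3 / 4)) = fun l => Real.sin (phK D l) := by
    funext l
    exact KWl_coX D l
  rw [h2]
  have h3 : DifferentiableAt ℝ (phK D) l :=
    ((KWl_smph D).differentiable (by simp)).differentiableAt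
  have h4 := (Real.hasDerivAt_sin (phK D l)).comp l h3.hasDerivAt
  rw [h0, Real.cos_zero, one_mul] at h4
  exact h4.deriv

theorem wallK (D : WD d₀ x₁ ε) : WallC (2 * d₀) (YK D) (phK D) := by
  obtain ⟨Y₁, hY1, hY1', hW1⟩ := D.core_half
  obtain ⟨Y₂, hY2, hY2', hW2⟩ := D.core_one
  have perY : ∀ l, YK D (l + 1) = YK D l := by
    intro l
    show Real.log (rr (KWl_x D (l + 1))) = Real.log (rr (KWl_x D l))
    rw [KWl_per]
  have perφ : ∀ l, phK D (l + 1) = phK D l := by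
    intro l
    show Complex.arg ⟨(KWl_x D (l + 1)).1.re, (KWl_x D (l + 1)).2⟩ =
      Complex.arg ⟨(KWl_x D l).1.re, (KWl_x D l).2⟩
    rw [KWl_per]
  have hYl : YK D (-(1 / 4)) = Y₁ := by
    show Real.log (rr (D.Wk (-(1 / 4) + 3 / 4, 0))) = Y₁
    rw [show (-(1 / 4) + 3 / 4 : ℝ) = 1 / 2 by norm_num, hW1, KWl_log_cyl]
  have hYr : YK D (1 / 4) = 1 - Y₂ := by
    show Real.log (rr (D.Wk (1 / 4 + 3 / 4, 0))) = 1 - Y₂
    rw [show (1 / 4 + 3 / 4 : ℝ) = 1 by norm_num, hW2, KWl_log_cyl]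
  have hφl : phK D (-(1 / 4)) = 0 := by
    show Complex.arg ⟨(D.Wk (-(1 / 4) + 3 / 4, 0)).1.re, (D.Wk (-(1 / 4) + 3 / 4, 0)).2⟩ = 0
    rw [show (-(1 / 4) + 3 / 4 : ℝ) = 1 / 2 by norm_num, hW1, KWl_arg_cyl]
  have hφr : phK D (1 / 4) = 0 := by
    show Complex.arg ⟨(D.Wk (1 / 4 + 3 / 4, 0)).1.re, (D.Wk (1 / 4 + 3 / 4, 0)).2⟩ = 0
    rw [show (1 / 4 + 3 / 4 : ℝ) = 1 by norm_num, hW2, KWl_arg_cyl]
  have hcont : Continuous (YK D) := (KWl_smY D).continuous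
  have hmono : StrictMonoOn (YK D) (Icc (-(1 / 4)) (1 / 4)) := by
    refine strictMonoOn_of_deriv_pos (convex_Icc _ _) hcont.continuousOn fun l hl => ?_
    rw [interior_Icc] at hl
    exact wallK_up D l hl.1 hl.2
  have hanti : StrictAntiOn (YK D) (Icc (1 / 4) (3 / 4)) := by
    refine strictAntiOn_of_deriv_neg (convex_Icc _ _) hcont.continuousOn fun l hl => ?_
    rw [interior_Icc] at hl
    exact wallK_dn D l hl.1 hl.2
  have h34 : YK D (3 / 4) = Y₁ := by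
    rw [← hYl, ← perY (-(1 / 4))]
    congr 1
    norm_num
  have hbase : ∀ l, -(1 / 4) ≤ l → l < 3 / 4 → Y₁ ≤ YK D l ∧ YK D l ≤ 1 - Y₂ := by
    intro l h1 h2
    rcases le_total l (1 / 4) with h3 | h3
    · rw [← hYl, ← hYr]
      exact ⟨hmono.monotoneOn ⟨le_rfl, by norm_num⟩ ⟨h1, h3⟩ h1,
        hmono.monotoneOn ⟨h1, h3⟩ ⟨by norm_num, le_rfl⟩ h3⟩
    · rw [← h34, ← hYr]
      exact ⟨hanti.antitoneOn ⟨h3, h2.le⟩ ⟨by norm_num, le_rfl⟩ h2.le,
        hanti.antitoneOn ⟨le_rfl, by norm_num⟩ ⟨h3, h2.le⟩ h3⟩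
  have hall : ∀ l, Y₁ ≤ YK D l ∧ YK D l ≤ 1 - Y₂ := by
    intro l
    have hp : Function.Periodic (YK D) 1 := perY
    have h1 := hp.sub_int_mul_eq (x := l) ⌊l + 1 / 4⌋
    rw [mul_one] at h1
    rw [← h1]
    refine hbase _ ?_ ?_
    · have := Int.floor_le (l + 1 / 4)
      linarith
    · have := Int.lt_floor_add_one (l + 1 / 4)
      linarith
  have harg : ∀ l, phK D l = Complex.arg (KWl_c D l) := fun l => rfl
  refine ⟨KWl_smY D, KWl_smph D, perY, perφ, fun l => lt_of_lt_of_le hY1 (hall l).1,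
    fun l => lt_of_le_of_lt (hall l).2 (by linarith), fun l => ?_, fun l h1 h2 => ?_,
    fun l h1 h2 => ?_, hφl, hφr, by rw [hYl]; exact hY1', by rw [hYr]; linarith,
    fun l h1 h2 => (wallK_up D l h1 h2).le, fun l h1 h2 => (wallK_dn D l h1 h2).le, ?_, ?_⟩
  · rw [harg, Complex.abs_arg_le_pi_div_two_iff]
    exact D.core_re _
  · have h3 : 0 < (D.Wk (l + 3 / 4, 0)).2 := D.core_pos _ (by linarith) (by linarith)
    rw [harg]
    refine lt_of_le_of_ne (Complex.arg_nonneg_iff.2 h3.le) fun h4 => ?_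
    exact h3.ne' (Complex.arg_eq_zero_iff.1 h4.symm).2
  · have h3 : (D.Wk (l + 3 / 4, 0)).2 < 0 := by
      rw [show l + 3 / 4 = l - 1 / 4 + 1 by ring, D.k_per]
      exact D.core_neg _ (by linarith) (by linarith)
    rw [harg]
    exact Complex.arg_neg_iff.2 h3
  · rw [← KWl_dphi D _ hφl]
    have h1 : (-(1 / 4) + 3 / 4 : ℝ) = 1 / 2 := by norm_num
    have h2 : coX D.Wk (1 / 2) = 0 := by
      rw [← h1, KWl_coX, hφl, Real.sin_zero]
    rw [h1]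
    refine D.core_X0 _ (by norm_num) ?_
    rw [h2, abs_zero]
    linarith [D.x₁_pos]
  · rw [← KWl_dphi D _ hφr]
    have h1 : (1 / 4 + 3 / 4 : ℝ) = 1 := by norm_num
    have h2 : coX D.Wk 1 = 0 := by
      rw [← h1, KWl_coX, hφr, Real.sin_zero]
    rw [h1]
    refine D.core_X1 _ (by norm_num) ?_
    rw [h2, abs_zero]
    linarith [D.x₁_pos]

end Pool.Agent.CPI
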