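import Pool.Agent.CPI.Defs

/-!
# CPI/Shf: shift of the parameter of a knot   (difficulty 2)

`Carries IP a n K X` gives `κ, j` and a `TwinP`.  `C ((l, v), t) = κ (l, v, t)` is an `EChart IP a Λ {q | ‖q.2‖ < 1}` with `E = ℝ × ℂ`, `Λ = {(m, 0)}` (as in the proof of
`ISO.LiftA_gauge`, `ISO.LiftA_lat`: look there, the chart is constructed in that proof; `Lat Λ` too).  Apply `ISO.carries_loop` with `k s l = (l + s c, 0)`, `τ s l = 0`, `m₀ = (1, 0)`, `p₀ = 0`: `K l = κ (l, 0, 0)`,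
`K (l + c) = κ (l + c, 0, 0)`.  Immersion: `deriv = (1, 0)`; injectivity: `l + s c = l' + s c + m`.
-/

open scoped Manifold ContDiff Topology
open Set Filter

namespace Pool.Agent.CPI

open Pool.Agent.PTH (Act Carries)

variable {EP : Type*} [NormedAddCommGroup EP] [NormedSpace ℝ EP] {HP : Type*} [TopologicalSpace HP]
  {IP : ModelWithCorners ℝ EP HP} {P : Type*} [TopologicalSpace P] [ChartedSpace HP P]

theorem Shf_lat : Pool.Agent.ISO.Lat Pool.Agent.ISO.LiftA_lat := by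
  intro R
  refine ((Set.finite_Icc (-⌈R⌉) ⌈R⌉).image (fun m : ℤ => (((m : ℝ), (0 : ℂ)) : ℝ × ℂ))).subset ?_
  rintro x ⟨⟨m, rfl⟩, hx⟩
  refine ⟨m, ?_, rfl⟩
  have h1 : |(m : ℝ)| ≤ R := (le_max_left _ _).trans hx
  obtain ⟨h2, h3⟩ := abs_le.1 h1
  have h4 := Int.le_ceil R
  constructor
  · have : ((-⌈R⌉ : ℤ) : ℝ) ≤ (m : ℝ) := by
      push_cast
      linarith
    exact_mod_cast this
  · have : (m : ℝ) ≤ ((⌈R⌉ : ℤ) : ℝ) := by linarith
    exact_mod_cast this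

theorem Shf_chart {a : ℝ → P → P} {κ : ℝ × ℂ × ℝ → P} (hT : Pool.Agent.RBM.ThickT IP κ)
    (he : ∀ l v t, κ (l, v, t) = a t (κ (l, v, 0))) :
    Pool.Agent.ISO.EChart IP a Pool.Agent.ISO.LiftA_lat {x : ℝ × ℂ | ‖x.2‖ < 1}
      (fun q : (ℝ × ℂ) × ℝ => κ (q.1.1, q.1.2, q.2)) := by
  have hperi : ∀ (m : ℤ) (l : ℝ) (v : ℂ) (t : ℝ), κ (l + m, v, t) = κ (l, v, t) := by
    intro m l v t
    have hp : Function.Periodic (fun l => κ (l, v, t)) 1 := fun l => hT.perl l v t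
    have := hp.int_mul m l
    simpa using this
  refine ⟨?_, ?_, ?_, ?_, ?_, ?_⟩
  · exact isOpen_lt (continuous_norm.comp continuous_snd) continuous_const
  · rintro x hx _ ⟨m, rfl⟩
    simpa using hx
  · rintro x t _ ⟨m, rfl⟩
    change κ (x.1 + m, x.2 + 0, t) = κ (x.1, x.2, t)
    rw [add_zero, hperi]
  · intro x t
    exact he _ _ _
  · intro x t hx
    have h1 : IsLocalDiffeomorphAt 𝓘(ℝ, (ℝ × ℂ) × ℝ) 𝓘(ℝ, ℝ × ℂ × ℝ) ∞
        (fun q : (ℝ × ℂ) × ℝ => (q.1.1, q.1.2, q.2)) (x, t) :=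
      (Diffeomorph.isLocalDiffeomorph (I := 𝓘(ℝ, (ℝ × ℂ) × ℝ)) (J := 𝓘(ℝ, ℝ × ℂ × ℝ)) (n := ∞)
        ⟨⟨fun q : (ℝ × ℂ) × ℝ => (q.1.1, q.1.2, q.2), fun q => ((q.1, q.2.1), q.2.2),
          fun q => rfl, fun q => rfl⟩,
          ContDiff.contMDiff (show ContDiff ℝ ∞ fun q : (ℝ × ℂ) × ℝ => (q.1.1, q.1.2, q.2) by fun_prop),
          ContDiff.contMDiff (show ContDiff ℝ ∞ fun q : ℝ × ℂ × ℝ => ((q.1, q.2.1), q.2.2) by fun_prop)⟩) (x, t)
    exact IsLocalDiffeomorphAt.comp (hf := h1) (hg := hT.loc _ _ _ hx)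
  · intro x t x' t' hx hx' e
    obtain ⟨e1, ⟨m, e2⟩, k, e3⟩ := hT.inj _ _ _ _ _ _ hx hx' e
    refine ⟨⟨((m : ℝ), 0), ⟨m, rfl⟩, ?_⟩, k, e3⟩
    ext1
    · simpa using e2
    · simpa using e1.symm

theorem carries_shift [T2Space P] {a : ℝ → P → P} (ha : Act IP a) {n : ℤ} {K : ℝ → P} {X : Type*} [TopologicalSpace X]
    [ChartedSpace (EuclideanSpace ℝ (Fin 4)) X] (c : ℝ) (h : Carries IP a n K X) :
    Carries IP a n (fun l => K (l + c)) X := by
  obtain ⟨κ, j, hT, he, hk, ⟨D⟩⟩ := h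
  have H' : Carries IP a n K X := ⟨κ, j, hT, he, hk, ⟨D⟩⟩
  have hC := Shf_chart hT he
  have key := Pool.Agent.ISO.carries_loop (IP := IP) ha Shf_lat hC
    (k := fun s l => ((l + s * c, (0 : ℂ)) : ℝ × ℂ)) (τ := fun _ _ => 0)
    (fun s _ l => ContDiff.contDiffAt (by fun_prop)) (fun _ _ => contDiff_const)
    (m₀ := (1, 0)) ⟨1, by simp⟩ (fun s _ l => by
      refine Prod.ext ?_ ?_
      · show l + 1 + s * c = l + s * c + 1
        ring
      · show (0 : ℂ) = 0 + 0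
        rw [add_zero])
    (p₀ := 0) (fun _ _ _ => by simp)
    (fun _ _ _ => by
      show ‖(0 : ℂ)‖ < 1
      rw [norm_zero]
      exact one_pos)
    (fun s _ l => by
      have h1 : HasDerivAt (fun l : ℝ => ((l + s * c, (0 : ℂ)) : ℝ × ℂ)) ((1, 0) : ℝ × ℂ) l :=
        ((hasDerivAt_id l).add_const (s * c)).prodMk (hasDerivAt_const l (0 : ℂ))
      show deriv (fun l : ℝ => ((l + s * c, (0 : ℂ)) : ℝ × ℂ)) l ≠ 0
      rw [h1.deriv]
      intro h0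
      have h2 := congrArg Prod.fst h0
      exact one_ne_zero h2)
    (fun s _ l l' m hm e => by
      obtain ⟨p, rfl⟩ := hm
      have h1 : l + s * c = l' + s * c + p := congrArg Prod.fst e
      exact ⟨p, by linarith⟩)
    n X
  have e0 : (fun l => κ (l + 0 * c, 0, 0)) = K := by
    funext l
    rw [zero_mul, add_zero, hk]
  have e1 : (fun l => κ (l + 1 * c, 0, 0)) = fun l => K (l + c) := by
    funext l
    rw [one_mul, hk]
  have key' : Carries IP a n (fun l => κ (l + 0 * c, 0, 0)) X ↔ Carries IP a n (fun l => κ (l + 1 * c, 0, 0)) X := key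
  rw [e0, e1] at key'
  exact key'.1 H'

end Pool.Agent.CPI
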