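import Pool.Agent.CPI.WIs
import Pool.Agent.CPI.KWl
import Pool.Agent.CPI.KAw
import Pool.Agent.CPI.AIs
import Pool.Agent.CPI.Shf

/-!
# CPI/Asm: assembly: the core knot carries the same manifolds as the standard form
-/

open scoped Manifold ContDiff Topology
open Set Filter
open Complex (I normSq)

namespace Pool.Agent.CPI

open Pool.Agent.PTH (Act Carries)
open Pool.Agent.CHW (F3 rr WD)
open Pool.Agent.GLB (TCgR)
open Pool.Agent.ISO (EChart)

variable {EP : Type*} [NormedAddCommGroup EP] [NormedSpace ℝ EP] {HP : Type*} [TopologicalSpace HP]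
  {IP : ModelWithCorners ℝ EP HP} {P : Type*} [TopologicalSpace P] [ChartedSpace HP P]

/-- the standard curve, as a knot -/
noncomputable def KA (F : F3 × ℝ → P) (Y₀ l : ℝ) : P := F (wx (YA Y₀ l) (phA l), thA l)

theorem Asm_wall_mem {a : ℝ → P → P} {d : ℝ} {W : Set F3} {F : F3 × ℝ → P} (hF : FCh IP a d W F) {Y φ : ℝ → ℝ}
    (h : WallC d Y φ) (l : ℝ) : wx (Y l) (φ l) ∈ W := by
  -- reduction to the fundamental interval
  obtain ⟨p, l₀, e, h1, h2⟩ : ∃ (p : ℤ) (l₀ : ℝ), l = l₀ + p ∧ -(1 / 4) ≤ l₀ ∧ l₀ < 3 / 4 := by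
    refine ⟨⌊l + 1 / 4⌋, l - ⌊l + 1 / 4⌋, by ring, ?_, ?_⟩
    · have := Int.floor_le (l + 1 / 4); linarith
    · have := Int.lt_floor_add_one (l + 1 / 4); linarith
  have eY : Y l = Y l₀ := by
    have hp : Function.Periodic Y 1 := h.perY
    rw [e]
    simpa using hp.int_mul p l₀
  have eφ : φ l = φ l₀ := by
    have hp : Function.Periodic φ 1 := h.perφ
    rw [e]
    simpa using hp.int_mul p l₀
  rw [eY, eφ]
  have r1 : rr (wx (Y l₀) (φ l₀)) = Real.exp (Y l₀) := rr_wx _ _
  have r2 : 1 < rr (wx (Y l₀) (φ l₀)) := by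
    rw [r1]; exact Real.one_lt_exp_iff.2 (h.pos _)
  have r3 : rr (wx (Y l₀) (φ l₀)) < Real.exp 1 := by
    rw [r1]; exact Real.exp_lt_exp.2 (h.lt _)
  have key : φ l₀ ≠ 0 → wx (Y l₀) (φ l₀) ∈ W := by
    intro h0
    refine hF.up _ r2 r3 ?_
    have hb := abs_le.1 (h.bd l₀)
    have hs : Real.sin (φ l₀) ≠ 0 := by
      rcases lt_or_gt_of_ne h0 with h3 | h3
      · exact (Real.sin_neg_of_neg_of_neg_pi_lt h3 (by linarith [Real.pi_pos])).ne
      · exact (Real.sin_pos_of_pos_of_lt_pi h3 (by linarith [Real.pi_pos])).ne'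
    exact mul_ne_zero (Real.exp_pos _).ne' hs
  rcases lt_trichotomy l₀ (1 / 4) with h3 | h3 | h3
  · rcases h1.eq_or_lt with h4 | h4
    · rw [← h4, h.left, wx_zero]
      exact hF.left _ (h.pos _) h.Yl
    · exact key (h.up _ h4 h3).ne'
  · rw [h3, h.right, wx_zero]
    have := hF.right (1 - Y (1 / 4)) (by linarith [h.lt (1 / 4)]) (by linarith [h.Yr])
    rw [sub_sub_cancel] at this
    exact this
  · exact key (h.dn _ h3 h2).ne

theorem Asm_cont {a : ℝ → P → P} {d : ℝ} {W : Set F3} {F : F3 × ℝ → P} (hF : FCh IP a d W F) {Y φ τ : ℝ → ℝ}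
    (h : WallC d Y φ) (hτ : Continuous τ) : Continuous fun l => F (wx (Y l) (φ l), τ l) := by
  rw [continuous_iff_continuousAt]
  intro l
  have h1 := (hF.chart.loc (wx (Y l) (φ l)) (τ l) (Asm_wall_mem hF h l)).contMDiffAt.continuousAt
  have h2 : ContinuousAt (fun l => (wx (Y l) (φ l), τ l)) l := by
    have := wx_smooth.continuous.comp (h.smY.continuous.prodMk h.smφ.continuous)
    exact (this.prodMk hτ).continuousAt
  exact ContinuousAt.comp (g := F) (f := fun l => (wx (Y l) (φ l), τ l)) h1 h2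

theorem Asm_rA {l : ℝ} (h : |l| ≤ 1 / 6) : rA l ≤ 1 / 3 := by
  rcases le_total |l| (1 / 12) with h1 | h1
  · exact (rA_mid h1).le
  · have h2 := abs_le.1 h
    rcases le_total 0 l with h0 | h0
    · rw [abs_of_nonneg h0] at h1
      rw [rA_lin h1 (by linarith)]; linarith
    · rw [abs_of_nonpos h0] at h1
      rw [rA_lin' (by linarith) (by linarith)]; linarith

theorem Asm_KA1 (F : F3 × ℝ → P) (Y₀ : ℝ) {l : ℝ} (h : |l| ≤ 1 / 6) :
    KA F Y₀ l = F (ms 1 (sx (kk Y₀ 0 (2 * l))), thA l) := by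
  unfold KA phA
  rw [wx_sx, R_small (Asm_rA h)]
  have e : kk Y₀ 0 (2 * l) = (((rA l : ℝ) : ℂ), YA Y₀ l) := by
    unfold kk zA yA
    rw [show 2 * l / 2 = l by ring]
    simp
  rw [e]
  have e2 : ∀ x : F3, ms 1 x = x := fun x => by simp [ms]
  rw [e2]

theorem Asm_KA2 (F : F3 × ℝ → P) (Y₀ : ℝ) {l : ℝ} (h : |l - 1 / 2| ≤ 1 / 6) :
    KA F Y₀ l = F (ms (-1) (sx (kk Y₀ 0 (1 - 2 * l))), thA l) := by
  have e1 : YA Y₀ l = YA Y₀ (1 / 2 - l) := (YA_refl Y₀ l).symm
  have e2 : phA l = -phA (1 / 2 - l) := by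
    have := phA_refl l
    linarith
  have h' : |1 / 2 - l| ≤ 1 / 6 := by rw [abs_sub_comm]; exact h
  unfold KA
  rw [e1, e2, wx_neg]
  unfold phA
  rw [wx_sx, R_small (Asm_rA h')]
  have e : kk Y₀ 0 (1 - 2 * l) = (((rA (1 / 2 - l) : ℝ) : ℂ), YA Y₀ (1 / 2 - l)) := by
    unfold kk zA yA
    rw [show (1 - 2 * l) / 2 = 1 / 2 - l by ring]
    simp
  rw [e]

/-- the latitude outside the middle -/
theorem Asm_out {l : ℝ} (h1 : 1 / 6 ≤ l) (h2 : l ≤ 5 / 6) : 5 * Real.sin (phA l) ≤ 4 := by
  -- the radial coordinate is at least `1/3`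
  have hr : 1 / 3 ≤ rA l := by
    rcases le_total l (5 / 12) with h3 | h3
    · rw [rA_lin (by linarith) h3]; linarith
    · rcases le_total l (7 / 12) with h4 | h4
      · have := rA_refl (1 / 2 - l)
        rw [sub_sub_cancel] at this
        have h5 := Asm_rA (l := 1 / 2 - l) (by rw [abs_le]; constructor <;> linarith)
        linarith
      · have h5 := rA_per (l - 1)
        rw [sub_add_cancel] at h5
        rw [h5, rA_lin' (by linarith) (by linarith)]
        linarith
  have hR := R_ge hr (rA_lt l)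
  unfold phA
  have e : Real.sin (Real.pi / 2 - 2 * Real.arctan (TCgR (rA l))) =
      (1 - TCgR (rA l) ^ 2) / (1 + TCgR (rA l) ^ 2) := by
    rw [Real.sin_pi_div_two_sub, Real.cos_two_mul, Real.cos_sq_arctan]
    field_simp
    ring
  rw [e, ← mul_div_assoc, div_le_iff₀ (by positivity)]
  nlinarith

theorem core_abs [T2Space P] {a : ℝ → P → P} (ha : Act IP a) {d₀ x₁ ε : ℝ} (D : WD d₀ x₁ ε) {W : Set F3}
    {F : F3 × ℝ → P} (hF : FCh IP a (2 * d₀) W F) {Y₀ : ℝ} (h0 : 0 < Y₀) (h1 : Y₀ < 1 / 2) (h2 : Y₀ < 2 * d₀)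
    {K KC : ℝ → P} (hK : ∀ l, K l = F (D.Wk (l, 0), l)) (hCc : Continuous KC) (hCp : ∀ l, KC (l + 1) = KC l)
    (hC1 : ∀ l, |l| ≤ 1 / 6 → KC l = F (ms 1 (sx (kk Y₀ 1 (2 * l))), thA l))
    (hC2 : ∀ l, |l - 1 / 2| ≤ 1 / 6 → KC l = F (ms (-1) (sx (kk Y₀ 1 (1 - 2 * l))), thA l))
    (hC3 : ∀ l, 1 / 6 ≤ l → l ≤ 1 / 3 → KC l = KA F Y₀ l) (hC4 : ∀ l, 2 / 3 ≤ l → l ≤ 5 / 6 → KC l = KA F Y₀ l)
    {n : ℤ} {X : Type*} [TopologicalSpace X] [ChartedSpace (EuclideanSpace ℝ (Fin 4)) X]
    (h : Carries IP a n K X) : Carries IP a n KC X := by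
  have hA := wallA h0 h1 h2
  -- the standard curve
  have s1 : Carries IP a n (KA F Y₀) X := by
    have t1 := carries_shift ha (3 / 4) h
    have t2 : (fun l => K (l + 3 / 4)) = fun l => F (wx (YK D l) (phK D l), l + 3 / 4) := by
      funext l
      rw [hK, wk_wx]
    rw [t2] at t1
    exact (wall_iso ha hF (wallK D) (wallK_up D) (wallK_dn D) hA (regA h1) (injA h1)
      (τ := fun l => l + 3 / 4) (τ' := thA) (contDiff_id.add contDiff_const) thA_smooth (p₀ := 1)
      (fun l => by push_cast; ring) (fun l => by rw [thA_per]; push_cast; ring) n X).1 t1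
  have hAp : ∀ l, KA F Y₀ (l + 1) = KA F Y₀ l := by
    intro l
    unfold KA
    rw [hA.perY, hA.perφ, thA_per]
    have := ISO.LiftA_Cint ha hF.chart (wx (YA Y₀ l) (phA l)) (thA l) 1
    rw [← this]
    push_cast
    rfl
  have hAc : Continuous (KA F Y₀) := Asm_cont hF hA thA_smooth.continuous
  -- the intermediate knot
  classical
  let KB : ℝ → P := fun l => if |l - round l| < 1 / 6 then KC l else KA F Y₀ l
  have hBp : ∀ l, KB (l + 1) = KB l := by
    intro l
    have e : l + 1 - ((round (l + 1) : ℤ) : ℝ) = l - round l := by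
      rw [round_add_one]
      push_cast
      ring
    simp only [KB, e, hCp, hAp]
  have hnear : ∀ l, |l| < 1 / 6 → KB l = KC l := by
    intro l hl
    have e : round l = 0 := by
      rw [round_eq_zero_iff]
      have := abs_lt.1 hl
      constructor <;> linarith
    simp only [KB, e, Int.cast_zero, sub_zero, if_pos hl]
  have hfar : ∀ l, 1 / 6 ≤ l → l ≤ 5 / 6 → KB l = KA F Y₀ l := by
    intro l h3 h4
    have e : ¬ |l - round l| < 1 / 6 := by
      rw [not_lt]
      rcases lt_or_ge l (1 / 2) with h5 | h5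
      · have : round l = 0 := by
          rw [round_eq_zero_iff]
          constructor <;> linarith
        rw [this, Int.cast_zero, sub_zero, abs_of_nonneg (by linarith)]
        exact h3
      · have : round l = 1 := by
          rw [round_eq, Int.floor_eq_iff]
          push_cast
          constructor <;> linarith
        rw [this, Int.cast_one, abs_of_nonpos (by linarith)]
        linarith
    simp only [KB, if_neg e]
  have s2 : Carries IP a n KB X := by
    refine (arc_iso ha hF h0 h1 (ε := 1) (Or.inl rfl) 0 thA_smooth (K := KA F Y₀) (K' := KB) (Or.inl hAc) hAp hBp ?_ ?_ ?_ ?_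
      n X).1 s1
    · intro l hl
      rw [sub_zero] at hl
      rw [Asm_KA1 F Y₀ hl]
      congr 5
      ring
    · intro l hl
      rw [sub_zero] at hl
      have e : KB l = KC l := by
        rcases hl.lt_or_eq with h3 | h3
        · exact hnear l h3
        · -- the end points
          rcases abs_eq (by norm_num : (0 : ℝ) ≤ 1 / 6) |>.1 h3 with h4 | h4
          · rw [hfar l (by linarith) (by linarith), hC3 l (by linarith) (by linarith)]
          · have e1 := hBp l
            have e2 := hCp l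
            rw [← e1, ← e2, hfar (l + 1) (by linarith) (by linarith), hC4 (l + 1) (by linarith) (by linarith)]
      rw [e, hC1 l hl]
      congr 5
      ring
    · intro l h3 h4
      exact hfar l (by linarith) (by linarith)
    · intro l h3 h4 x hx t he
      have he' : F (wx (YA Y₀ l) (phA l), thA l) = F (x, t) := he
      obtain ⟨⟨m, hm, e1⟩, -⟩ := hF.chart.inj _ _ _ _ (Asm_wall_mem hF hA l) hx he'
      rw [AddSubgroup.mem_bot] at hm
      rw [hm, add_zero] at e1
      rw [e1, rr_wx]
      have h5 := Asm_out (l := l) (by linarith) (by linarith)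
      have h6 : (wx (YA Y₀ l) (phA l)).2 = Real.exp (YA Y₀ l) * Real.sin (phA l) := rfl
      rw [h6]
      nlinarith [Real.exp_pos (YA Y₀ l)]
  -- the second arc
  refine (arc_iso ha hF h0 h1 (ε := -1) (Or.inr rfl) (1 / 2) thA_smooth (K := KB) (K' := KC) (Or.inr hCc) hBp hCp ?_ ?_ ?_ ?_
      n X).1 s2
  · intro l hl
    have h3 := abs_le.1 hl
    rw [hfar l (by linarith) (by linarith), Asm_KA2 F Y₀ hl]
    congr 5
    ring
  · intro l hl
    rw [hC2 l hl]
    congr 5
    ring
  · intro l h3 h4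
    rcases lt_or_ge l (5 / 6) with h5 | h5
    · rw [hfar l (by linarith) (by linarith), hC4 l (by linarith) (by linarith)]
    · rcases lt_or_ge l (7 / 6) with h6 | h6
      · rcases h5.eq_or_lt with h7 | h7
        · rw [hfar l (by linarith) (by linarith), hC4 l (by linarith) (by linarith)]
        · have e1 := hBp (l - 1)
          have e2 := hCp (l - 1)
          rw [sub_add_cancel] at e1 e2
          rw [e1, e2, hnear (l - 1) (by rw [abs_lt]; constructor <;> linarith)]
      · have e1 := hBp (l - 1)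
        have e2 := hCp (l - 1)
        rw [sub_add_cancel] at e1 e2
        rw [e1, e2, hfar (l - 1) (by linarith) (by linarith), hC3 (l - 1) (by linarith) (by linarith)]
  · -- outside, the height is positive or small
    intro l h3 h4 x hx t he
    have hKAx : ∀ l', (1 / 6 ≤ l' ∧ l' ≤ 1 / 3 ∨ 2 / 3 ≤ l' ∧ l' ≤ 5 / 6) → KA F Y₀ l' = F (x, t) → 5 * (-1 * x.2) ≤ 4 * rr x := by
      intro l' hl' he1
      have he' : F (wx (YA Y₀ l') (phA l'), thA l') = F (x, t) := he1
      obtain ⟨⟨m, hm, e1⟩, -⟩ := hF.chart.inj _ _ _ _ (Asm_wall_mem hF hA l') hx he'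
      rw [AddSubgroup.mem_bot] at hm
      rw [hm, add_zero] at e1
      rw [e1, rr_wx]
      have h6 : (wx (YA Y₀ l') (phA l')).2 = Real.exp (YA Y₀ l') * Real.sin (phA l') := rfl
      have h5 : 5 * (-Real.sin (phA l')) ≤ 4 := by
        rcases hl' with h7 | h7
        · have h9 := phA_refl l'
          -- `1/2 - l'` is in `[1/6, 1/3]`
          have h10 := Asm_out (l := 1 / 2 - l') (by linarith [h7.2]) (by linarith [h7.1])
          rw [h9, Real.sin_neg] at h10
          exact h10
        · have h9 := phA_refl l'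
          have h11 := hA.perφ (1 / 2 - l')
          have h10 := Asm_out (l := 1 / 2 - l' + 1) (by linarith [h7.2]) (by linarith [h7.1])
          rw [h11, h9, Real.sin_neg] at h10
          exact h10
      rw [h6]
      nlinarith [Real.exp_pos (YA Y₀ l')]
    rcases le_or_gt l (5 / 6) with h5 | h5
    · rw [hfar l (by linarith) (by linarith)] at he
      exact hKAx l (Or.inr ⟨by linarith, h5⟩) he
    · rcases lt_or_ge l (7 / 6) with h6 | h6
      · -- in the first solid torus
        have e1 := hBp (l - 1)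
        rw [sub_add_cancel] at e1
        rw [e1, hnear (l - 1) (by rw [abs_lt]; constructor <;> linarith), hC1 (l - 1) (by rw [abs_le]; constructor <;> linarith)] at he
        have hs : (1 : ℝ) ∈ Icc (0 : ℝ) 1 := ⟨zero_le_one, le_rfl⟩
        have hn := kk_norm Y₀ hs (y := 2 * (l - 1)) (by rw [abs_le]; constructor <;> linarith)
        have hy := kk_Y h1 hs (2 * (l - 1))
        set q := kk Y₀ 1 (2 * (l - 1)) with hq
        have hns : normSq q.1 < 1 := by
          rw [Complex.normSq_eq_norm_sq]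
          nlinarith [norm_nonneg q.1]
        have hn0 : 0 ≤ normSq q.1 := Complex.normSq_nonneg _
        have hh : 0 < (ms 1 (sx q)).2 := by
          have : (ms 1 (sx q)).2 = 1 * (Real.exp q.2 * (1 - normSq q.1) / (1 + normSq q.1)) := rfl
          rw [this, one_mul]
          have e3 : 0 < 1 - normSq q.1 := by linarith
          have e4 := Real.exp_pos q.2
          positivity
        have hr : rr (ms 1 (sx q)) = Real.exp q.2 := by rw [rr_ms (Or.inl rfl), rr_sx]
        have hw : ms 1 (sx q) ∈ W := by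
          refine hF.up _ ?_ ?_ hh.ne'
          · rw [hr]; exact Real.one_lt_exp_iff.2 (by linarith)
          · rw [hr]; exact Real.exp_lt_exp.2 (by linarith)
        obtain ⟨⟨m, hm, e5⟩, -⟩ := hF.chart.inj _ _ _ _ hw hx he
        rw [AddSubgroup.mem_bot] at hm
        rw [hm, add_zero] at e5
        rw [e5, hr]
        nlinarith [Real.exp_pos q.2]
      · have e1 := hBp (l - 1)
        rw [sub_add_cancel] at e1
        rw [e1, hfar (l - 1) (by linarith) (by linarith)] at he
        exact hKAx (l - 1) (Or.inl ⟨by linarith, by linarith⟩) he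

end Pool.Agent.CPI
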