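import Pool.Agent.CPI.Lin
import Pool.Agent.CSG.FunBasic

/-!
# CPI/CKf: the twist of the first strand   (difficulty 3)

`cK ξ = act C (κ (σ ξ) (eR ξ))`, `eR ξ = pt 0 (Y₀ sin (2π k σ'ξ)) (Y₀ cos (2π k σ'ξ))`.
* `cK_fn`:
  - smooth: `hκ.smooth`, `CSG.FunBasic_act_smooth`; `pt` of smooth functions is smooth (`pt` is continuous linear in its three arguments; look in CSG for `pt_smooth`-like lemmas, or `EuclideanSpace` coordinates:
    `contDiff_euclidean`).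
  - `lo`: `σ ξ = σ' ξ = 1`, `sin (2π k) = 0`, `cos (2π k) = 1` (`k` an integer), so `eR = pt 0 0 Y₀`, `hκ.axis` (`|0| < δ`, `|Y₀| < δ`).
  - `hi`: `σ ξ = σ' ξ = 0`, `κ 0 = 1` (`hκ.start`), `eR = pt 0 0 Y₀`.
  - `ne`: suppose `c ξ 1 = c ξ 2 = 0`, then `c ξ = pt a 0 0 = act C (pt a 0 0)` (`C e₀ = e₀`); `act C` is injective (`hA.det`: the lower right block is invertible, `hA.c00`, `c10`, `c20`; or `CSG.exists_actE` with `C.det = 1`), so `κ t (eR) = pt a 0 0 = κ t (pt a 0 0)` (`hκ.lin`: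
    `κ t (pt a 0 0) = L t (pt a 0 0) = pt a 0 0`), `eR = pt a 0 0`, so `Y₀ sin = Y₀ cos = 0`, impossible.
* `kap_neg`: `|x 1|, |x 2| < δ`: `κ t x = L t x`, `κ t (-x) = L t (-x) = -L t x`.
* `kap_pos`: the value of `κ t` on the first strand, with a translation `τ` along the fibre: `κ t (pt τ 0 0 + x) = κ t (x + pt τ 0 0) = κ t x + pt τ 0 0` (`hκ.tr`).
* `kap_right`: the second strand: `κ t (pt τ (-a) (1 - b)) = κ t (-(pt 0 a b) + pt τ 0 0 + vec ![0, 0, 1]) = -κ t (pt 0 a b) + pt τ 0 0 + vec ![0, 0, 1]` (`hκ.tr`, `hκ.lat`, `kap_neg`).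
* `cK_small`: for `Y₀ ≤ δ/2` `|x 1|, |x 2| ≤ Y₀ < δ`: `κ t x = L t x` with `L` of `hκ.lin`, so `cK ξ = Y₀ • act C (L (σ ξ) (pt 0 (sin ..) (cos ..)))` (linearity of `L t` and `act C`: `CSG.Isots_act_smul`).  The continuous function `(t, θ) ↦ act C (L t (pt 0 (sin θ)
  (cos θ)))` is bounded on `t ∈ [a, b] × [0, 2π]`, where `σ` has values in a compact interval `[a, b]` (continuous on `[x₁, 2 x₁]`, constant outside); let `B` be the bound, `Y = min (δ/2) (η / (B + 1))`.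
-/

open scoped Manifold ContDiff Topology
open Set Filter

namespace Pool.Agent.CPI

open Pool.Agent.CSG (E3 pt act vec)
open Pool.Agent.CSP (KapOK)

variable {C : Matrix (Fin 3) (Fin 3) ℤ} {κ : ℝ → Equiv.Perm E3} {δ x₁ : ℝ} {σ σ' : ℝ → ℝ}

theorem CKf_pt_add (a b c a' b' c' : ℝ) : pt a b c + pt a' b' c' = pt (a + a') (b + b') (c + c') := by
  ext i
  fin_cases i <;> simp [pt]

theorem CKf_pt_neg (a b c : ℝ) : -pt a b c = pt (-a) (-b) (-c) := by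
  ext i
  fin_cases i <;> simp [pt]

theorem CKf_pt_smul (s a b c : ℝ) : s • pt a b c = pt (s * a) (s * b) (s * c) := by
  ext i
  fin_cases i <;> simp [pt]

theorem CKf_vec : vec ![0, 0, 1] = pt 0 0 1 := by
  ext i
  fin_cases i <;> simp [pt, vec]

theorem CKf_pt_smooth {f g h : ℝ → ℝ} (hf : ContDiff ℝ ∞ f) (hg : ContDiff ℝ ∞ g) (hh : ContDiff ℝ ∞ h) :
    ContDiff ℝ ∞ fun q => pt (f q) (g q) (h q) := by
  rw [contDiff_euclidean]
  intro i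
  fin_cases i
  · simpa [pt] using hf
  · simpa [pt] using hg
  · simpa [pt] using hh

theorem CKf_act_smul (A : Matrix (Fin 3) (Fin 3) ℤ) (c : ℝ) (x : E3) : act A (c • x) = c • act A x := by
  ext i
  simp only [act, PiLp.smul_apply, smul_eq_mul, Finset.mul_sum]
  refine Finset.sum_congr rfl fun j _ => ?_
  ring

theorem CKf_eR_smooth (k : ℤ) {σ' : ℝ → ℝ} (hσ' : ContDiff ℝ ∞ σ') (Y₀ : ℝ) : ContDiff ℝ ∞ (eR k σ' Y₀) := by
  have h1 : ContDiff ℝ ∞ fun ξ : ℝ => 2 * Real.pi * (k * σ' ξ) := contDiff_const.mul (contDiff_const.mul hσ')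
  exact CKf_pt_smooth contDiff_const (contDiff_const.mul (Real.contDiff_sin.comp h1))
    (contDiff_const.mul (Real.contDiff_cos.comp h1))

theorem CKf_eR_one (k : ℤ) {σ' : ℝ → ℝ} (Y₀ : ℝ) {ξ : ℝ} (h : σ' ξ = 1) : eR k σ' Y₀ ξ = pt 0 0 Y₀ := by
  unfold eR
  have e : 2 * Real.pi * ((k : ℝ) * 1) = k * (2 * Real.pi) := by ring
  rw [h, e, Real.cos_int_mul_two_pi]
  have h2 : Real.sin ((k : ℝ) * (2 * Real.pi)) = 0 := by
    rw [show (k : ℝ) * (2 * Real.pi) = ((2 * k : ℤ) : ℝ) * Real.pi by push_cast; ring]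
    exact Real.sin_int_mul_pi _
  rw [h2, mul_zero, mul_one]

theorem CKf_eR_zero (k : ℤ) {σ' : ℝ → ℝ} (Y₀ : ℝ) {ξ : ℝ} (h : σ' ξ = 0) : eR k σ' Y₀ ξ = pt 0 0 Y₀ := by
  unfold eR
  rw [h, mul_zero, mul_zero, Real.sin_zero, Real.cos_zero, mul_zero, mul_one]

theorem CKf_axis (hκ : KapOK C κ δ) (t c : ℝ) : κ t (pt c 0 0) = pt c 0 0 := by
  obtain ⟨L, -, h1, h2⟩ := hκ.lin
  have hp := hκ.pos
  rw [h2 t (pt c 0 0) (by simpa using hp) (by simpa using hp), h1]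

theorem CKf_smooth (hκ : KapOK C κ δ) (hσ : ContDiff ℝ ∞ σ) (hσ' : ContDiff ℝ ∞ σ') (k : ℤ) (Y₀ : ℝ) :
    ContDiff ℝ ∞ (cK C κ k σ σ' Y₀) := by
  have h1 : ContDiff ℝ ∞ fun ξ : ℝ => (eR k σ' Y₀ ξ, σ ξ) := (CKf_eR_smooth k hσ' Y₀).prodMk hσ
  exact (Pool.Agent.CSG.FunBasic_act_smooth C).comp (hκ.smooth.comp h1)

theorem kap_neg (hκ : KapOK C κ δ) (t : ℝ) {x : E3} (h1 : |x 1| < δ) (h2 : |x 2| < δ) : κ t (-x) = -κ t x := by
  obtain ⟨L, -, -, h3⟩ := hκ.lin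
  rw [h3 t x h1 h2, h3 t (-x) (by rw [PiLp.neg_apply, abs_neg]; exact h1) (by rw [PiLp.neg_apply, abs_neg]; exact h2),
    map_neg]

theorem kap_left (hκ : KapOK C κ δ) (t τ : ℝ) (x : E3) : κ t (x + pt τ 0 0) = κ t x + pt τ 0 0 := hκ.tr t x τ

theorem kap_right (hκ : KapOK C κ δ) (t τ : ℝ) {a b : ℝ} (ha : |a| < δ) (hb : |b| < δ) :
    κ t (pt τ (-a) (1 - b)) = -κ t (pt 0 a b) + pt τ 0 1 := by
  have e1 : pt τ (-a) (1 - b) = (-(pt 0 a b) + vec ![0, 0, 1]) + pt τ 0 0 := by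
    rw [CKf_vec, CKf_pt_neg, CKf_pt_add, CKf_pt_add]
    congr 1 <;> ring
  have e2 : vec ![0, 0, 1] + pt τ 0 0 = pt τ 0 1 := by
    rw [CKf_vec, CKf_pt_add]
    congr 1 <;> ring
  rw [e1, hκ.tr, hκ.lat, kap_neg hκ t (by simpa using ha) (by simpa using hb), add_assoc, e2]

theorem cK_fn {v m m' : ℤ × ℤ × ℤ} (hA : CHO.Alg C v m m') (hκ : KapOK C κ δ)
    (hx : 0 < x₁) (hσ : Sg x₁ σ) (hσ' : Sg x₁ σ') (k : ℤ) {Y₀ : ℝ} (h0 : 0 < Y₀) (h1 : Y₀ < δ) :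
    CFn C x₁ Y₀ (cK C κ k σ σ' Y₀) := by
  have hY : |Y₀| < δ := by
    rw [abs_of_pos h0]
    exact h1
  refine ⟨CKf_smooth hκ hσ.smooth hσ'.smooth k Y₀, ?_, ?_, ?_⟩
  · intro ξ hξ
    unfold cK
    rw [CKf_eR_one k Y₀ (hσ'.lo ξ hξ), hσ.lo ξ hξ]
    exact hκ.axis _ (by simpa using hκ.pos) (by simpa using hY)
  · intro ξ hξ
    unfold cK
    rw [CKf_eR_zero k Y₀ (hσ'.hi ξ hξ), hσ.hi ξ hξ, hκ.start 0 (by norm_num)]
    rfl
  · intro ξ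
    by_contra hc
    push Not at hc
    obtain ⟨c1, c2⟩ := hc
    obtain ⟨y, hy⟩ : ∃ y, y = κ (σ ξ) (eR k σ' Y₀ ξ) := ⟨_, rfl⟩
    have e1 : (C 1 1 : ℝ) * y 1 + C 1 2 * y 2 = 0 := by
      have h2 : act C y 1 = 0 := by
        rw [hy]
        exact c1
      have h3 : act C y 1 = C 1 1 * y 1 + C 1 2 * y 2 := by
        simp [act, Fin.sum_univ_three, hA.c10]
      rw [← h3, h2]
    have e2 : (C 2 1 : ℝ) * y 1 + C 2 2 * y 2 = 0 := by
      have h2 : act C y 2 = 0 := by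
        rw [hy]
        exact c2
      have h3 : act C y 2 = C 2 1 * y 1 + C 2 2 * y 2 := by
        simp [act, Fin.sum_univ_three, hA.c20]
      rw [← h3, h2]
    have hd : (C 1 1 : ℝ) * C 2 2 - C 1 2 * C 2 1 = 1 := by exact_mod_cast hA.det
    have y1 : y 1 = 0 := by linear_combination (-(y 1)) * hd + (C 2 2 : ℝ) * e1 - (C 1 2 : ℝ) * e2
    have y2 : y 2 = 0 := by linear_combination (-(y 2)) * hd + (C 1 1 : ℝ) * e2 - (C 2 1 : ℝ) * e1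
    have h4 : y = pt (y 0) 0 0 := by
      have := Pool.Agent.CSG.pt_eta y
      rw [y1, y2] at this
      exact this.symm
    have h5 : κ (σ ξ) (eR k σ' Y₀ ξ) = κ (σ ξ) (pt (y 0) 0 0) := by
      rw [CKf_axis hκ, ← h4, hy]
    have h6 := (κ (σ ξ)).injective h5
    have h7 := congrArg (fun x : E3 => x 1) h6
    have h8 := congrArg (fun x : E3 => x 2) h6
    simp only [eR, Pool.Agent.CSG.pt_one', Pool.Agent.CSG.pt_two'] at h7 h8
    have h9 : Real.sin (2 * Real.pi * (k * σ' ξ)) = 0 := by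
      rcases mul_eq_zero.1 h7 with hh | hh
      · exact absurd hh h0.ne'
      · exact hh
    have h10 : Real.cos (2 * Real.pi * (k * σ' ξ)) = 0 := by
      rcases mul_eq_zero.1 h8 with hh | hh
      · exact absurd hh h0.ne'
      · exact hh
    have h11 := Real.sin_sq_add_cos_sq (2 * Real.pi * (k * σ' ξ))
    rw [h9, h10] at h11
    norm_num at h11

theorem cK_small (hκ : KapOK C κ δ) (hx : 0 < x₁) (hσ : Sg x₁ σ) (hσ' : Sg x₁ σ') (k : ℤ) {η : ℝ} (hη : 0 < η) :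
    ∃ Y : ℝ, 0 < Y ∧ ∀ Y₀ : ℝ, 0 ≤ Y₀ → Y₀ ≤ Y → ∀ ξ : ℝ,
      |cK C κ k σ σ' Y₀ ξ 1| ≤ η ∧ |cK C κ k σ σ' Y₀ ξ 2| ≤ η := by
  obtain ⟨L, hL, -, hL2⟩ := hκ.lin
  have hδ := hκ.pos
  obtain ⟨Φ, hΦ⟩ : ∃ Φ : ℝ → E3, Φ = fun ξ => act C (L (σ ξ) (eR k σ' 1 ξ)) := ⟨_, rfl⟩
  have hΦc : Continuous Φ := by
    have h1 : ContDiff ℝ ∞ fun ξ : ℝ => (σ ξ, eR k σ' 1 ξ) := hσ.smooth.prodMk (CKf_eR_smooth k hσ'.smooth 1)
    rw [hΦ]
    exact ((Pool.Agent.CSG.FunBasic_act_smooth C).comp (hL.comp h1)).continuous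
  obtain ⟨B, hB⟩ := isCompact_Icc.exists_bound_of_continuousOn (s := Icc x₁ (2 * x₁)) hΦc.continuousOn
  have hcl : ∀ ξ, ‖Φ ξ‖ ≤ B := by
    intro ξ
    have h1 : Φ ξ = Φ (max x₁ (min ξ (2 * x₁))) := by
      rcases le_or_gt ξ x₁ with h | h
      · rw [min_eq_left (by linarith), max_eq_left h, hΦ]
        simp only [eR]
        rw [hσ.lo ξ h, hσ'.lo ξ h, hσ.lo x₁ le_rfl, hσ'.lo x₁ le_rfl]
      · rcases le_or_gt ξ (2 * x₁) with h' | h'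
        · rw [min_eq_left h', max_eq_right h.le]
        · rw [min_eq_right h'.le, max_eq_right (by linarith), hΦ]
          simp only [eR]
          rw [hσ.hi ξ h'.le, hσ'.hi ξ h'.le, hσ.hi (2 * x₁) le_rfl, hσ'.hi (2 * x₁) le_rfl]
    rw [h1]
    refine hB _ ⟨le_max_left _ _, max_le (by linarith) (min_le_right _ _)⟩
  have hB0 : 0 ≤ B := (norm_nonneg _).trans (hcl 0)
  refine ⟨min (δ / 2) (η / (B + 1)), lt_min (by linarith) (div_pos hη (by linarith)), ?_⟩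
  intro Y₀ hY0 hY1 ξ
  have hYδ : Y₀ < δ := by
    have := hY1.trans (min_le_left _ _)
    linarith
  have hYη : Y₀ * (B + 1) ≤ η := by
    have := hY1.trans (min_le_right _ _)
    rwa [le_div_iff₀ (by linarith)] at this
  have hs := Real.abs_sin_le_one (2 * Real.pi * (k * σ' ξ))
  have hc := Real.abs_cos_le_one (2 * Real.pi * (k * σ' ξ))
  have e1 : |eR k σ' Y₀ ξ 1| < δ := by
    simp only [eR, Pool.Agent.CSG.pt_one']
    rw [abs_mul, abs_of_nonneg hY0]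
    have := mul_le_mul_of_nonneg_left hs hY0
    linarith
  have e2 : |eR k σ' Y₀ ξ 2| < δ := by
    simp only [eR, Pool.Agent.CSG.pt_two']
    rw [abs_mul, abs_of_nonneg hY0]
    have := mul_le_mul_of_nonneg_left hc hY0
    linarith
  have e3 : eR k σ' Y₀ ξ = Y₀ • eR k σ' 1 ξ := by
    unfold eR
    rw [CKf_pt_smul, mul_zero, one_mul, one_mul]
  have e4 : cK C κ k σ σ' Y₀ ξ = Y₀ • Φ ξ := by
    unfold cK
    rw [hL2 _ _ e1 e2, e3, map_smul, CKf_act_smul, hΦ]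
  have hco : ∀ i : Fin 3, |cK C κ k σ σ' Y₀ ξ i| ≤ η := by
    intro i
    rw [e4, PiLp.smul_apply, smul_eq_mul, abs_mul, abs_of_nonneg hY0]
    have h1 : ‖Φ ξ i‖ ≤ ‖Φ ξ‖ := PiLp.norm_apply_le (Φ ξ) i
    rw [Real.norm_eq_abs] at h1
    have h2 : |Φ ξ i| ≤ B + 1 := by
      have := hcl ξ
      linarith
    exact (mul_le_mul_of_nonneg_left h2 hY0).trans hYη
  exact ⟨hco 1, hco 2⟩

end Pool.Agent.CPI
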