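import Pool.Agent.CHW.WD
import Pool.Agent.ISO.Lift
import Pool.Agent.GLB.TCg
import Pool.Agent.STR.Defs

/-!
# CPI/Defs: the path of the core knot of the open book (MP_cb9bff_gt (II))

`F (x, τ)` is an equivariant chart of `SP` (over the double of the solid torus): `x = (w, h)`; `h > 0` is the first solid torus, `h < 0` the
second one (mirror), and near the points `cyl (0, Y, 0)`, `0 < Y < d` or `0 < 1 - Y < d`, of the torus `h = 0` the two parts fit.
Parameter of the knots: `-1/4 ≤ l ≤ 1/4` lies in `h ≥ 0` (from `Y ≈ 0` to `Y ≈ 1`), `1/4 ≤ l ≤ 3/4` in `h ≤ 0` (back).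
-/

open scoped Manifold ContDiff Topology
open Set Filter
open Complex (I normSq)

namespace Pool.Agent.CPI

open Pool.Agent.RSG (E4 S4 ex)
open Pool.Agent.CSG (stp)
open Pool.Agent.PTH (Act Carries prf)
open Pool.Agent.GLB (TCgR)
open Pool.Agent.CHW (F3 rr mir cyl)
open Pool.Agent.ISO (EChart)

/-! ## points of `F3` -/

/-- the point of the half plane `w ≥ 0`: `log |x| = Y`, latitude `φ` -/
noncomputable def wx (Y φ : ℝ) : F3 := (((Real.exp Y * Real.cos φ : ℝ) : ℂ), Real.exp Y * Real.sin φ)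

/-- stereographic coordinates: `w / (|x| + h) = ζ`, `log |x| = Y` -/
noncomputable def sx (q : ℂ × ℝ) : F3 :=
  (((2 * Real.exp q.2 / (1 + normSq q.1) : ℝ) : ℂ) * q.1, Real.exp q.2 * (1 - normSq q.1) / (1 + normSq q.1))

/-- `(w, h) ↦ (w, ε h)` -/
noncomputable def ms (ε : ℝ) (x : F3) : F3 := (x.1, ε * x.2)

section
variable {EP : Type*} [NormedAddCommGroup EP] [NormedSpace ℝ EP] {HP : Type*} [TopologicalSpace HP]
  (IP : ModelWithCorners ℝ EP HP) {P : Type*} [TopologicalSpace P] [ChartedSpace HP P]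

/-- the chart `F` -/
structure FCh (a : ℝ → P → P) (d : ℝ) (W : Set F3) (F : F3 × ℝ → P) : Prop where
  chart : EChart IP a (⊥ : AddSubgroup F3) W F
  up : ∀ x : F3, 1 < rr x → rr x < Real.exp 1 → x.2 ≠ 0 → x ∈ W
  left : ∀ Y, 0 < Y → Y < d → cyl (0, Y, 0) ∈ W
  right : ∀ Y, 0 < Y → Y < d → cyl (0, 1 - Y, 0) ∈ W

end

/-! ## curves in the half plane -/

/-- closed curve `(Y l, φ l)`; `Y` is weakly increasing for `|l| < 1/4` (where `φ > 0`), weakly decreasing for `1/4 < l < 3/4`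
(where `φ < 0`) -/
structure WallC (d : ℝ) (Y φ : ℝ → ℝ) : Prop where
  smY : ContDiff ℝ ∞ Y
  smφ : ContDiff ℝ ∞ φ
  perY : ∀ l, Y (l + 1) = Y l
  perφ : ∀ l, φ (l + 1) = φ l
  pos : ∀ l, 0 < Y l
  lt : ∀ l, Y l < 1
  bd : ∀ l, |φ l| ≤ Real.pi / 2
  up : ∀ l, -(1 / 4) < l → l < 1 / 4 → 0 < φ l
  dn : ∀ l, 1 / 4 < l → l < 3 / 4 → φ l < 0
  left : φ (-(1 / 4)) = 0
  right : φ (1 / 4) = 0
  Yl : Y (-(1 / 4)) < d
  Yr : 1 - d < Y (1 / 4)
  dup : ∀ l, -(1 / 4) < l → l < 1 / 4 → 0 ≤ deriv Y l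
  ddn : ∀ l, 1 / 4 < l → l < 3 / 4 → deriv Y l ≤ 0
  dl : 0 < deriv φ (-(1 / 4))
  dr : deriv φ (1 / 4) < 0

/-! ## the standard curve -/

/-- `q x = x` for `|x| ≤ 9/10`, `|q x| < 1` for `|x| ≤ 1` -/
noncomputable def qA (x : ℝ) : ℝ :=
  x * (1 - (Real.smoothTransition (20 * x - 18) + Real.smoothTransition (-20 * x - 18)) / 10)

/-- the radial coordinate of the standard curve: smoothing of the wave `2 |l|`, `|l| ≤ 1/2` -/
noncomputable def rA (l : ℝ) : ℝ := 1 / 2 - Real.arcsin (qA (Real.cos (2 * Real.pi * l))) / Real.pi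

/-- `log |x|` on the standard curve: from `Y₀` to `1 - Y₀` and back -/
noncomputable def YA (Y₀ l : ℝ) : ℝ :=
  Y₀ + (1 - 2 * Y₀) * Real.smoothTransition (2 / 3 * Real.sin (2 * Real.pi * l) + 1 / 2)

/-- latitude of the standard curve -/
noncomputable def phA (l : ℝ) : ℝ := Real.pi / 2 - 2 * Real.arctan (TCgR (rA l))

/-- the angle along the fibre: `0` for `-5/8 ≤ l ≤ 1/8`, `1` for `3/8 ≤ l ≤ 9/8` -/
noncomputable def thA (l : ℝ) : ℝ := ⌊l⌋ + stp (1 / 8) (3 / 8) (Int.fract l)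

/-! ## the curves in the middle of the solid tori, `|y| ≤ 1/3` -/

/-- the step of the path: `0` for `y ≤ 1/12`, `1` for `y ≥ 1/6` -/
noncomputable def g1 (y : ℝ) : ℝ := Real.smoothTransition (12 * y - 1)

/-- standard curve, `y = 2 l` or `y = 1 - 2 l` -/
noncomputable def zA (y : ℝ) : ℝ := rA (y / 2)
noncomputable def yA (Y₀ y : ℝ) : ℝ := YA Y₀ (y / 2)

/-- the curve of the path -/
noncomputable def zC (y : ℝ) : ℂ := ((-y : ℝ) : ℂ) * ex (-(g1 y / 2))
noncomputable def yC (Y₀ y : ℝ) : ℝ := Y₀ + (1 - 2 * Y₀) * g1 y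

/-- straight line homotopy, from the standard curve to the curve of the path -/
noncomputable def kk (Y₀ s y : ℝ) : ℂ × ℝ :=
  (((1 - s : ℝ) : ℂ) * (zA y : ℝ) + (s : ℝ) * zC y, (1 - s) * yA Y₀ y + s * yC Y₀ y)

end Pool.Agent.CPI
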