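import Pool.Agent.CPI.Defs

/-!
# CPI/WIs: isotopy of closed curves of the half plane   (difficulty 3)

`wall_iso`: `ISO.carries_loop ha hLat hF.chart` (`Λ = ⊥`; `Lat ⊥`: `{m | m ∈ ⊥ ∧ ..} ⊆ {0}` is finite) with
`k s l = wx ((1 - s) * Y l + s * Y' l) ((1 - s) * φ l + s * φ' l)`, `τ s l = (1 - s) * τ l + s * τ' l`, `m₀ = 0`.  Write `Yₛ, φₛ`.
* `wx_smooth` : `(Y, φ) ↦ wx Y φ` is smooth.  `rr_wx : rr (wx Y φ) = exp Y` (`rr`, `q2`: `sqrt (normSq w + h²)`,
  `e^{2Y} (cos² + sin²)`).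
* reduction: every `l` is `l₀ + p`, `p` an integer, `-1/4 ≤ l₀ < 3/4` (`p = ⌊l + 1/4⌋`); `Y, φ, Y', φ'` and their derivatives
  have period 1 (`deriv` of a periodic function: `deriv_comp_add_const`).
* signs: for `-1/4 < l < 1/4`: `φₛ > 0`; for `1/4 < l < 3/4`: `φₛ < 0`; `φₛ (-1/4) = φₛ (1/4) = 0`.  `0 < Yₛ < 1`, `|φₛ| ≤ π/2`.
* `k s l ∈ W`: `1 < exp Yₛ < exp 1`; if `φₛ ≠ 0` then `sin φₛ ≠ 0` (`|φₛ| ≤ π/2`), `hF.up`.  At `l₀ = -1/4`: `wx Yₛ 0 = cyl (0, Yₛ, 0)`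
  (`wx_zero`), `0 < Yₛ < d`: `hF.left`; at `l₀ = 1/4`: `wx Yₛ 0 = cyl (0, 1 - (1 - Yₛ), 0)`, `hF.right`.
* immersion: `wx_deriv`: if `f, g` are differentiable at `l` and `deriv (fun l => wx (f l) (g l)) l = 0` then `deriv f l = 0` and
  `deriv g l = 0` (the derivative is `e^f (f' cos g - g' sin g, f' sin g + g' cos g)`, the sum of the squares is `e^{2f} (f'² + g'²)`).
  If `s = 1`: `hreg`.  If `s < 1`: on `(-1/4, 1/4)`: `deriv Yₛ ≥ (1 - s) deriv Y > 0`; on `(1/4, 3/4)`: `< 0`; at `-1/4`: `deriv φₛ > 0`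
  (`dl`), at `1/4`: `< 0` (`dr`).
* injectivity: `wx_inj`: `|φ|, |φ'| ≤ π/2`, `wx Y φ = wx Y' φ'` implies `Y = Y'` (`rr`), `φ = φ'` (`Real.injOn_sin`).  If `s = 1`: `hinj`.
  If `s < 1`, `l, l' ∈ [-1/4, 3/4)`: if `φₛ > 0` both are in `(-1/4, 1/4)`, `Yₛ` is `StrictMonoOn` `[-1/4, 1/4]` (`strictMonoOn_of_deriv_pos`); if
  `φₛ < 0` both are in `(1/4, 3/4)`, `Yₛ` is `StrictAntiOn` `[1/4, 3/4]`; if `φₛ = 0` both are in `{-1/4, 1/4}`, and
  `Yₛ (-1/4) < Yₛ (1/4)`.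
-/

open scoped Manifold ContDiff Topology
open Set Filter
open Complex (I normSq)

namespace Pool.Agent.CPI

open Pool.Agent.PTH (Act Carries)
open Pool.Agent.CHW (F3 rr cyl)

theorem wx_smooth : ContDiff ℝ ∞ fun q : ℝ × ℝ => wx q.1 q.2 := by
  unfold wx
  have h1 : ContDiff ℝ ∞ fun q : ℝ × ℝ => Real.exp q.1 * Real.cos q.2 :=
    (Real.contDiff_exp.comp contDiff_fst).mul (Real.contDiff_cos.comp contDiff_snd)
  have h2 : ContDiff ℝ ∞ fun q : ℝ × ℝ => Real.exp q.1 * Real.sin q.2 :=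
    (Real.contDiff_exp.comp contDiff_fst).mul (Real.contDiff_sin.comp contDiff_snd)
  exact (Complex.ofRealCLM.contDiff.comp h1).prodMk h2

theorem rr_wx (Y φ : ℝ) : rr (wx Y φ) = Real.exp Y := by
  unfold rr CHW.q2 wx
  have h : normSq ((Real.exp Y * Real.cos φ : ℝ) : ℂ) + (Real.exp Y * Real.sin φ) ^ 2 = Real.exp Y ^ 2 := by
    rw [Complex.normSq_ofReal]
    have := Real.sin_sq_add_cos_sq φ
    nlinarith [this]
  simp only
  rw [h, Real.sqrt_sq (Real.exp_pos Y).le]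

theorem wx_zero (Y : ℝ) : wx Y 0 = cyl (0, Y, 0) := by
  unfold wx cyl
  have h0 : RSG.ex 0 = 1 := by
    unfold RSG.ex
    simp
  simp [h0]

theorem wx_inj {Y φ Y' φ' : ℝ} (h : |φ| ≤ Real.pi / 2) (h' : |φ'| ≤ Real.pi / 2) (he : wx Y φ = wx Y' φ') :
    Y = Y' ∧ φ = φ' := by
  have h1 : Y = Y' := by
    have := congrArg rr he
    rw [rr_wx, rr_wx] at this
    exact Real.exp_injective this
  subst h1
  refine ⟨rfl, ?_⟩
  have h2 : Real.exp Y * Real.sin φ = Real.exp Y * Real.sin φ' := congrArg Prod.snd he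
  have h3 := mul_left_cancel₀ (Real.exp_pos Y).ne' h2
  rw [abs_le] at h h'
  exact Real.injOn_sin ⟨by linarith [h.1], h.2⟩ ⟨by linarith [h'.1], h'.2⟩ h3

theorem wx_deriv {f g : ℝ → ℝ} {l : ℝ} (hf : DifferentiableAt ℝ f l) (hg : DifferentiableAt ℝ g l)
    (h : deriv (fun l => wx (f l) (g l)) l = 0) : deriv f l = 0 ∧ deriv g l = 0 := by
  have hf' := hf.hasDerivAt
  have hg' := hg.hasDerivAt
  have h1 : HasDerivAt (fun l => Real.exp (f l) * Real.cos (g l))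
      (Real.exp (f l) * deriv f l * Real.cos (g l) + Real.exp (f l) * (-Real.sin (g l) * deriv g l)) l :=
    hf'.exp.mul hg'.cos
  have h2 : HasDerivAt (fun l => Real.exp (f l) * Real.sin (g l))
      (Real.exp (f l) * deriv f l * Real.sin (g l) + Real.exp (f l) * (Real.cos (g l) * deriv g l)) l :=
    hf'.exp.mul hg'.sin
  have h3 : HasDerivAt (fun l => wx (f l) (g l))
      (((Real.exp (f l) * deriv f l * Real.cos (g l) + Real.exp (f l) * (-Real.sin (g l) * deriv g l) : ℝ) : ℂ),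
        Real.exp (f l) * deriv f l * Real.sin (g l) + Real.exp (f l) * (Real.cos (g l) * deriv g l)) l :=
    h1.ofReal_comp.prodMk h2
  rw [h3.deriv] at h
  have e1 := congrArg Prod.fst h
  have e2 := congrArg Prod.snd h
  simp only [Prod.fst_zero, Prod.snd_zero, Complex.ofReal_eq_zero] at e1 e2
  have hE := (Real.exp_pos (f l)).ne'
  have f1 : deriv f l * Real.cos (g l) - Real.sin (g l) * deriv g l = 0 := by
    have : Real.exp (f l) * (deriv f l * Real.cos (g l) - Real.sin (g l) * deriv g l) = 0 := by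
      rw [← e1]; ring
    exact (mul_eq_zero.mp this).resolve_left hE
  have f2 : deriv f l * Real.sin (g l) + Real.cos (g l) * deriv g l = 0 := by
    have : Real.exp (f l) * (deriv f l * Real.sin (g l) + Real.cos (g l) * deriv g l) = 0 := by
      rw [← e2]; ring
    exact (mul_eq_zero.mp this).resolve_left hE
  have hs := Real.sin_sq_add_cos_sq (g l)
  constructor
  · have : deriv f l = (deriv f l * Real.cos (g l) - Real.sin (g l) * deriv g l) * Real.cos (g l) +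
        (deriv f l * Real.sin (g l) + Real.cos (g l) * deriv g l) * Real.sin (g l) := by
      linear_combination (-deriv f l) * hs
    rw [this, f1, f2]
    ring
  · have : deriv g l = -(deriv f l * Real.cos (g l) - Real.sin (g l) * deriv g l) * Real.sin (g l) +
        (deriv f l * Real.sin (g l) + Real.cos (g l) * deriv g l) * Real.cos (g l) := by
      linear_combination (-deriv g l) * hs
    rw [this, f1, f2]
    ring

/-! ### closed curves of the half plane -/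

theorem WIs_red (l : ℝ) : ∃ l₀ : ℝ, -(1 / 4) ≤ l₀ ∧ l₀ < 3 / 4 ∧ ∃ p : ℤ, l = l₀ + p := by
  refine ⟨l - ⌊l + 1 / 4⌋, ?_, ?_, ⌊l + 1 / 4⌋, by ring⟩
  · have := Int.floor_le (l + 1 / 4)
    linarith
  · have := Int.lt_floor_add_one (l + 1 / 4)
    linarith

theorem WIs_per {f : ℝ → ℝ} (h : ∀ l, f (l + 1) = f l) (l : ℝ) (p : ℤ) : f (l + p) = f l := by
  have hp : Function.Periodic f 1 := h
  have := (hp.int_mul p) l
  simpa using this

theorem WIs_dper {f : ℝ → ℝ} (h : ∀ l, f (l + 1) = f l) (l : ℝ) : deriv f (l + 1) = deriv f l := by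
  rw [← deriv_comp_add_const]
  congr 1
  funext x
  exact h x

theorem WIs_comb {d : ℝ} {Y φ Y' φ' : ℝ → ℝ} (h : WallC d Y φ) (h' : WallC d Y' φ') {s : ℝ} (h0 : 0 ≤ s)
    (h1 : s ≤ 1) : WallC d (fun l => (1 - s) * Y l + s * Y' l) (fun l => (1 - s) * φ l + s * φ' l) := by
  have dY : ∀ l, deriv (fun l => (1 - s) * Y l + s * Y' l) l = (1 - s) * deriv Y l + s * deriv Y' l := by
    intro l
    have a1 : HasDerivAt Y (deriv Y l) l := (h.smY.differentiable (by simp) l).hasDerivAt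
    have a2 : HasDerivAt Y' (deriv Y' l) l := (h'.smY.differentiable (by simp) l).hasDerivAt
    exact ((a1.const_mul (1 - s)).add (a2.const_mul s)).deriv
  have dφ : ∀ l, deriv (fun l => (1 - s) * φ l + s * φ' l) l = (1 - s) * deriv φ l + s * deriv φ' l := by
    intro l
    have a1 : HasDerivAt φ (deriv φ l) l := (h.smφ.differentiable (by simp) l).hasDerivAt
    have a2 : HasDerivAt φ' (deriv φ' l) l := (h'.smφ.differentiable (by simp) l).hasDerivAt
    exact ((a1.const_mul (1 - s)).add (a2.const_mul s)).deriv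
  have hs : 0 ≤ 1 - s := by linarith
  have key : ∀ x y : ℝ, 0 < x → 0 < y → 0 < (1 - s) * x + s * y := by
    intro x y hx hy
    rcases eq_or_lt_of_le h0 with h2 | h2
    · subst h2
      simpa using hx
    · have := mul_pos h2 hy
      have := mul_nonneg hs hx.le
      linarith
  constructor
  · exact (contDiff_const.mul h.smY).add (contDiff_const.mul h'.smY)
  · exact (contDiff_const.mul h.smφ).add (contDiff_const.mul h'.smφ)
  · intro l
    simp only [h.perY, h'.perY]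
  · intro l
    simp only [h.perφ, h'.perφ]
  · intro l
    exact key _ _ (h.pos l) (h'.pos l)
  · intro l
    have := key (1 - Y l) (1 - Y' l) (by linarith [h.lt l]) (by linarith [h'.lt l])
    linarith
  · intro l
    have a1 := abs_le.mp (h.bd l)
    have a2 := abs_le.mp (h'.bd l)
    rw [abs_le]
    constructor
    · nlinarith [mul_nonneg hs (by linarith [a1.1] : 0 ≤ φ l + Real.pi / 2),
        mul_nonneg h0 (by linarith [a2.1] : 0 ≤ φ' l + Real.pi / 2)]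
    · nlinarith [mul_nonneg hs (by linarith [a1.2] : 0 ≤ Real.pi / 2 - φ l),
        mul_nonneg h0 (by linarith [a2.2] : 0 ≤ Real.pi / 2 - φ' l)]
  · intro l hl hl'
    exact key _ _ (h.up l hl hl') (h'.up l hl hl')
  · intro l hl hl'
    have := key (-φ l) (-φ' l) (by linarith [h.dn l hl hl']) (by linarith [h'.dn l hl hl'])
    linarith
  · simp only [h.left, h'.left]
    ring
  · simp only [h.right, h'.right]
    ring
  · have := key (d - Y (-(1 / 4))) (d - Y' (-(1 / 4))) (by linarith [h.Yl]) (by linarith [h'.Yl])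
    linarith
  · have := key (Y (1 / 4) - (1 - d)) (Y' (1 / 4) - (1 - d)) (by linarith [h.Yr]) (by linarith [h'.Yr])
    linarith
  · intro l hl hl'
    rw [dY]
    have := mul_nonneg hs (h.dup l hl hl')
    have := mul_nonneg h0 (h'.dup l hl hl')
    linarith
  · intro l hl hl'
    rw [dY]
    have := mul_nonneg hs (by linarith [h.ddn l hl hl'] : 0 ≤ -deriv Y l)
    have := mul_nonneg h0 (by linarith [h'.ddn l hl hl'] : 0 ≤ -deriv Y' l)
    linarith
  · rw [dφ]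
    exact key _ _ h.dl h'.dl
  · rw [dφ]
    have := key (-deriv φ (1 / 4)) (-deriv φ' (1 / 4)) (by linarith [h.dr]) (by linarith [h'.dr])
    linarith

theorem WIs_cases {d : ℝ} {Y φ : ℝ → ℝ} (h : WallC d Y φ) {l : ℝ} (h1 : -(1 / 4) ≤ l) (h2 : l < 3 / 4) :
    (l = -(1 / 4) ∧ φ l = 0) ∨ (-(1 / 4) < l ∧ l < 1 / 4 ∧ 0 < φ l) ∨ (l = 1 / 4 ∧ φ l = 0) ∨
      (1 / 4 < l ∧ l < 3 / 4 ∧ φ l < 0) := by
  rcases eq_or_lt_of_le h1 with h3 | h3
  · left
    subst h3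
    exact ⟨rfl, h.left⟩
  · rcases lt_trichotomy l (1 / 4) with h4 | h4 | h4
    · exact Or.inr (Or.inl ⟨h3, h4, h.up l h3 h4⟩)
    · subst h4
      exact Or.inr (Or.inr (Or.inl ⟨rfl, h.right⟩))
    · exact Or.inr (Or.inr (Or.inr ⟨h4, h2, h.dn l h4 h2⟩))

theorem WIs_imm {d : ℝ} {Y φ : ℝ → ℝ} (h : WallC d Y φ) (hup : ∀ l, -(1 / 4) < l → l < 1 / 4 → 0 < deriv Y l)
    (hdn : ∀ l, 1 / 4 < l → l < 3 / 4 → deriv Y l < 0) (l : ℝ) : deriv Y l ≠ 0 ∨ deriv φ l ≠ 0 := by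
  obtain ⟨l₀, h1, h2, p, rfl⟩ := WIs_red l
  rw [WIs_per (WIs_dper h.perY), WIs_per (WIs_dper h.perφ)]
  rcases WIs_cases h h1 h2 with ⟨h3, -⟩ | ⟨h3, h4, -⟩ | ⟨h3, -⟩ | ⟨h3, h4, -⟩
  · subst h3
    exact Or.inr h.dl.ne'
  · exact Or.inl (hup _ h3 h4).ne'
  · subst h3
    exact Or.inr h.dr.ne
  · exact Or.inl (hdn _ h3 h4).ne

theorem WIs_inj {d : ℝ} {Y φ : ℝ → ℝ} (h : WallC d Y φ) (hup : ∀ l, -(1 / 4) < l → l < 1 / 4 → 0 < deriv Y l)
    (hdn : ∀ l, 1 / 4 < l → l < 3 / 4 → deriv Y l < 0) (l l' : ℝ) (hY : Y l = Y l') (hφ : φ l = φ l') :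
    ∃ p : ℤ, l = l' + p := by
  have m1 : StrictMonoOn Y (Icc (-(1 / 4)) (1 / 4)) := by
    refine strictMonoOn_of_deriv_pos (convex_Icc _ _) h.smY.continuous.continuousOn ?_
    intro x hx
    rw [interior_Icc] at hx
    exact hup x hx.1 hx.2
  have m2 : StrictAntiOn Y (Icc (1 / 4) (3 / 4)) := by
    refine strictAntiOn_of_deriv_neg (convex_Icc _ _) h.smY.continuous.continuousOn ?_
    intro x hx
    rw [interior_Icc] at hx
    exact hdn x hx.1 hx.2
  have m3 : Y (-(1 / 4)) < Y (1 / 4) := m1 ⟨le_rfl, by norm_num⟩ ⟨by norm_num, le_rfl⟩ (by norm_num)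
  obtain ⟨l₀, h1, h2, p, rfl⟩ := WIs_red l
  obtain ⟨l₁, g1, g2, q, rfl⟩ := WIs_red l'
  rw [WIs_per h.perY, WIs_per h.perY] at hY
  rw [WIs_per h.perφ, WIs_per h.perφ] at hφ
  suffices h5 : l₀ = l₁ by
    refine ⟨p - q, ?_⟩
    rw [h5]
    push_cast
    ring
  rcases WIs_cases h h1 h2 with ⟨h3, h5⟩ | ⟨h3, h4, h5⟩ | ⟨h3, h5⟩ | ⟨h3, h4, h5⟩ <;>
    rcases WIs_cases h g1 g2 with ⟨g3, g5⟩ | ⟨g3, g4, g5⟩ | ⟨g3, g5⟩ | ⟨g3, g4, g5⟩ <;>
    first
      | (exfalso; linarith)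
      | (exact h3.trans g3.symm)
      | (exfalso; rw [h3, g3] at hY; linarith)
      | exact m1.injOn ⟨h3.le, h4.le⟩ ⟨g3.le, g4.le⟩ hY
      | exact m2.injOn ⟨h3.le, h4.le⟩ ⟨g3.le, g4.le⟩ hY

variable {EP : Type*} [NormedAddCommGroup EP] [NormedSpace ℝ EP] {HP : Type*} [TopologicalSpace HP]
  {IP : ModelWithCorners ℝ EP HP} {P : Type*} [TopologicalSpace P] [ChartedSpace HP P]

theorem WIs_mem {a : ℝ → P → P} {d : ℝ} {W : Set F3} {F : F3 × ℝ → P}
    (hF : FCh IP a d W F) {Y φ : ℝ → ℝ} (h : WallC d Y φ) (l : ℝ) : wx (Y l) (φ l) ∈ W := by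
  obtain ⟨l₀, h1, h2, p, rfl⟩ := WIs_red l
  rw [WIs_per h.perY, WIs_per h.perφ]
  have hne : φ l₀ ≠ 0 → wx (Y l₀) (φ l₀) ∈ W := by
    intro h0
    refine hF.up _ ?_ ?_ ?_
    · rw [rr_wx]
      exact Real.one_lt_exp_iff.mpr (h.pos l₀)
    · rw [rr_wx]
      exact Real.exp_lt_exp.mpr (h.lt l₀)
    · change Real.exp (Y l₀) * Real.sin (φ l₀) ≠ 0
      refine mul_ne_zero (Real.exp_pos _).ne' ?_
      intro h4
      have hb := abs_le.mp (h.bd l₀)
      have hpi := Real.pi_pos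
      exact h0 ((Real.sin_eq_zero_iff_of_lt_of_lt (by linarith [hb.1]) (by linarith [hb.2])).mp h4)
  rcases WIs_cases h h1 h2 with ⟨h3, h5⟩ | ⟨h3, h4, h5⟩ | ⟨h3, h5⟩ | ⟨h3, h4, h5⟩
  · rw [h5, wx_zero, h3]
    exact hF.left _ (h.pos _) h.Yl
  · exact hne h5.ne'
  · rw [h5, wx_zero, h3]
    have := hF.right (1 - Y (1 / 4)) (by linarith [h.lt (1 / 4)]) (by linarith [h.Yr])
    rwa [sub_sub_cancel] at this
  · exact hne h5.ne

theorem wall_iso [T2Space P] {a : ℝ → P → P} (ha : Act IP a) {d : ℝ} {W : Set F3} {F : F3 × ℝ → P}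
    (hF : FCh IP a d W F) {Y φ Y' φ' τ τ' : ℝ → ℝ} (h : WallC d Y φ) (hup : ∀ l, -(1 / 4) < l → l < 1 / 4 → 0 < deriv Y l)
    (hdn : ∀ l, 1 / 4 < l → l < 3 / 4 → deriv Y l < 0) (h' : WallC d Y' φ')
    (hreg : ∀ l, deriv Y' l ≠ 0 ∨ deriv φ' l ≠ 0) (hinj : ∀ l l', Y' l = Y' l' → φ' l = φ' l' → ∃ p : ℤ, l = l' + p)
    (hτ : ContDiff ℝ ∞ τ) (hτ' : ContDiff ℝ ∞ τ') {p₀ : ℤ} (hp : ∀ l, τ (l + 1) = τ l + p₀)
    (hp' : ∀ l, τ' (l + 1) = τ' l + p₀) (n : ℤ) (X : Type*) [TopologicalSpace X]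
    [ChartedSpace (EuclideanSpace ℝ (Fin 4)) X] :
    Carries IP a n (fun l => F (wx (Y l) (φ l), τ l)) X ↔ Carries IP a n (fun l => F (wx (Y' l) (φ' l), τ' l)) X := by
  have hLat : ISO.Lat (⊥ : AddSubgroup F3) := by
    intro R
    refine (Set.finite_singleton (0 : F3)).subset ?_
    rintro m ⟨hm, -⟩
    exact AddSubgroup.mem_bot.mp hm
  have hst : ∀ s : ℝ, 0 ≤ s → s < 1 →
      (∀ l, -(1 / 4) < l → l < 1 / 4 → 0 < deriv (fun l => (1 - s) * Y l + s * Y' l) l) ∧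
      (∀ l, 1 / 4 < l → l < 3 / 4 → deriv (fun l => (1 - s) * Y l + s * Y' l) l < 0) := by
    intro s h0 h1
    have dY : ∀ l, deriv (fun l => (1 - s) * Y l + s * Y' l) l = (1 - s) * deriv Y l + s * deriv Y' l := by
      intro l
      have a1 : HasDerivAt Y (deriv Y l) l := (h.smY.differentiable (by simp) l).hasDerivAt
      have a2 : HasDerivAt Y' (deriv Y' l) l := (h'.smY.differentiable (by simp) l).hasDerivAt
      exact ((a1.const_mul (1 - s)).add (a2.const_mul s)).deriv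
    have hs : 0 < 1 - s := by linarith
    constructor
    · intro l hl hl'
      rw [dY]
      have := mul_pos hs (hup l hl hl')
      have := mul_nonneg h0 (h'.dup l hl hl')
      linarith
    · intro l hl hl'
      rw [dY]
      have := mul_pos hs (by linarith [hdn l hl hl'] : 0 < -deriv Y l)
      have := mul_nonneg h0 (by linarith [h'.ddn l hl hl'] : 0 ≤ -deriv Y' l)
      linarith
  have e1Y : (fun l => (1 - (1 : ℝ)) * Y l + 1 * Y' l) = Y' := by
    funext l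
    ring
  have e1φ : (fun l => (1 - (1 : ℝ)) * φ l + 1 * φ' l) = φ' := by
    funext l
    ring
  have hreg' : ∀ s ∈ Icc (0 : ℝ) 1, ∀ l, deriv (fun l => (1 - s) * Y l + s * Y' l) l ≠ 0 ∨
      deriv (fun l => (1 - s) * φ l + s * φ' l) l ≠ 0 := by
    intro s hs l
    rcases eq_or_lt_of_le hs.2 with h1 | h1
    · subst h1
      rw [e1Y, e1φ]
      exact hreg l
    · exact WIs_imm (WIs_comb h h' hs.1 hs.2) (hst s hs.1 h1).1 (hst s hs.1 h1).2 l
  have hinj' : ∀ s ∈ Icc (0 : ℝ) 1, ∀ l l', (1 - s) * Y l + s * Y' l = (1 - s) * Y l' + s * Y' l' →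
      (1 - s) * φ l + s * φ' l = (1 - s) * φ l' + s * φ' l' → ∃ p : ℤ, l = l' + p := by
    intro s hs l l' h2 h3
    rcases eq_or_lt_of_le hs.2 with h1 | h1
    · subst h1
      exact hinj l l' (by linarith) (by linarith)
    · exact WIs_inj (WIs_comb h h' hs.1 hs.2) (hst s hs.1 h1).1 (hst s hs.1 h1).2 l l' h2 h3
  have key := ISO.carries_loop ha hLat hF.chart
    (k := fun s l => wx ((1 - s) * Y l + s * Y' l) ((1 - s) * φ l + s * φ' l))
    (τ := fun s l => (1 - s) * τ l + s * τ' l) ?_ ?_ (m₀ := 0) (AddSubgroup.zero_mem _) ?_ (p₀ := p₀) ?_ ?_ ?_ ?_ n X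
  · have z1 : (fun l => F (wx ((1 - (0 : ℝ)) * Y l + 0 * Y' l) ((1 - (0 : ℝ)) * φ l + 0 * φ' l),
        (1 - (0 : ℝ)) * τ l + 0 * τ' l)) = fun l => F (wx (Y l) (φ l), τ l) := by
      funext l
      rw [sub_zero, one_mul, zero_mul, add_zero, one_mul, zero_mul, add_zero, one_mul, zero_mul, add_zero]
    have z2 : (fun l => F (wx ((1 - (1 : ℝ)) * Y l + 1 * Y' l) ((1 - (1 : ℝ)) * φ l + 1 * φ' l),
        (1 - (1 : ℝ)) * τ l + 1 * τ' l)) = fun l => F (wx (Y' l) (φ' l), τ' l) := by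
      funext l
      rw [sub_self, one_mul, zero_mul, zero_add, one_mul, zero_mul, zero_add, one_mul, zero_mul, zero_add]
    rw [z1, z2] at key
    exact key
  · intro s hs l
    have c1 : ContDiff ℝ ∞ fun q : ℝ × ℝ => (1 - q.1) * Y q.2 + q.1 * Y' q.2 :=
      ((contDiff_const.sub contDiff_fst).mul (h.smY.comp contDiff_snd)).add
        (contDiff_fst.mul (h'.smY.comp contDiff_snd))
    have c2 : ContDiff ℝ ∞ fun q : ℝ × ℝ => (1 - q.1) * φ q.2 + q.1 * φ' q.2 :=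
      ((contDiff_const.sub contDiff_fst).mul (h.smφ.comp contDiff_snd)).add
        (contDiff_fst.mul (h'.smφ.comp contDiff_snd))
    exact (wx_smooth.comp (c1.prodMk c2)).contDiffAt
  · intro s hs
    exact (contDiff_const.mul hτ).add (contDiff_const.mul hτ')
  · intro s hs l
    simp only [h.perY, h'.perY, h.perφ, h'.perφ, add_zero]
  · intro s hs l
    simp only [hp, hp']
    ring
  · intro s hs l
    exact WIs_mem hF (WIs_comb h h' hs.1 hs.2) l
  · intro s hs l h0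
    have hc := WIs_comb h h' hs.1 hs.2
    have := wx_deriv (hc.smY.differentiable (by simp) l) (hc.smφ.differentiable (by simp) l) h0
    rcases hreg' s hs l with h1 | h1
    · exact h1 this.1
    · exact h1 this.2
  · intro s hs l l' m hm h0
    rw [AddSubgroup.mem_bot.mp hm, add_zero] at h0
    have hc := WIs_comb h h' hs.1 hs.2
    obtain ⟨h1, h2⟩ := wx_inj (hc.bd l) (hc.bd l') h0
    exact hinj' s hs l l' h1 h2

end Pool.Agent.CPI
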