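import Pool.Agent.CPI.Gms
import Pool.Agent.CPI.WIs
import Pool.Agent.GLB.ActG
import Pool.Agent.CHO.E12t
import Pool.Agent.CHO.CylL

/-!
# CPI/Fch: the chart `F` of `SP`

`FF P (x, τ) = gact v τ (E1t (x, 0))` for `x.2 ≥ 0`, `= gact v τ (E2t (mir x, 0))` for `x.2 < 0`.
-/

open scoped Manifold ContDiff Topology
open Set Filter
open Complex (I normSq)

namespace Pool.Agent.CPI

open Pool.Agent.CSG (E3 pt act vec stp)
open Pool.Agent.GLB (VGood)
open Pool.Agent.PTH (SP ISP gact Act)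
open Pool.Agent.CHW (F3 rr mir cyl zone WD q2 LD)
open Pool.Agent.CHO (E1 E2 E1t E2t Pm Gam cE cX Dm sg E1t_ld E2t_ld E1t_inj E2t_inj E1t_act E2t_act E12t_ht E2t_zone
  zone_isOpen)

variable {P : Pm}

/-! ## elementary facts -/

theorem Fch_rr_nn (x : F3) : 0 ≤ rr x := Real.sqrt_nonneg _

theorem Fch_rr_sq (x : F3) : rr x ^ 2 = normSq x.1 + x.2 ^ 2 := by
  unfold rr
  rw [Real.sq_sqrt]
  · rfl
  · unfold q2
    have := Complex.normSq_nonneg x.1
    positivity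

theorem Fch_rr_ge (x : F3) : |x.2| ≤ rr x := by
  apply Real.abs_le_sqrt
  unfold q2
  have := Complex.normSq_nonneg x.1
  linarith

theorem Fch_rr_pos {x : F3} (h : x ≠ 0) : 0 < rr x := by
  rcases (Fch_rr_nn x).lt_or_eq with h1 | h1
  · exact h1
  · exfalso
    apply h
    have h2 := Fch_rr_sq x
    rw [← h1] at h2
    have h3 := Complex.normSq_nonneg x.1
    have h4 : x.2 ^ 2 = 0 := by nlinarith [sq_nonneg x.2]
    have h5 : normSq x.1 = 0 := by nlinarith [sq_nonneg x.2]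
    exact Prod.ext (Complex.normSq_eq_zero.1 h5) (by simpa using h4)

theorem Fch_rr_mir (x : F3) : rr (mir x) = rr x := by
  unfold rr q2 mir
  congr 1
  ring

theorem Fch_Dm {x : F3} (h : 0 ≤ x.2) (h0 : x ≠ 0) : Dm x := add_pos_of_pos_of_nonneg (Fch_rr_pos h0) h

theorem Fch_mir_ne {x : F3} (h : x ≠ 0) : mir x ≠ 0 := by
  intro h1
  apply h
  have h2 : x.1 = 0 := congrArg Prod.fst h1
  have h3 : -x.2 = 0 := congrArg Prod.snd h1
  exact Prod.ext h2 (by simpa using h3)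

theorem Fch_rr_smul (t : ℝ) (ht : 0 ≤ t) (x : F3) : rr (t • x) = t * rr x := by
  have h : rr (t • x) ^ 2 = (t * rr x) ^ 2 := by
    rw [Fch_rr_sq, mul_pow, Fch_rr_sq]
    have e1 : (t • x).1 = t • x.1 := rfl
    have e2 : (t • x).2 = t * x.2 := rfl
    rw [e1, e2, Complex.real_smul, Complex.normSq_mul, Complex.normSq_ofReal]
    ring
  have := abs_eq_abs.2 (sq_eq_sq_iff_abs_eq_abs _ _ |>.1 h |> abs_eq_abs.1)
  rw [abs_of_nonneg (Fch_rr_nn _), abs_of_nonneg (mul_nonneg ht (Fch_rr_nn x))] at this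
  exact this

theorem Fch_rr_cyl {u Y X : ℝ} (hX : |X| ≤ 1) : rr (cyl (u, Y, X)) = Real.exp Y := by
  have h1 : 0 ≤ 1 - X ^ 2 := by
    have := abs_le.1 hX
    nlinarith
  have h2 : rr (cyl (u, Y, X)) ^ 2 = Real.exp Y ^ 2 := by
    rw [Fch_rr_sq]
    have e1 : (cyl (u, Y, X)).1 = Real.exp Y • (((Real.sqrt (1 - X ^ 2) : ℝ) : ℂ) * RSG.ex u) := rfl
    have e2 : (cyl (u, Y, X)).2 = Real.exp Y * X := rfl
    have e3 : normSq (RSG.ex u) = 1 := by
      rw [Complex.normSq_eq_norm_sq, RSG.ex_norm, one_pow]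
    rw [e1, e2, Complex.real_smul, Complex.normSq_mul, Complex.normSq_mul, Complex.normSq_ofReal, Complex.normSq_ofReal, e3]
    have := Real.mul_self_sqrt h1
    nlinarith [Real.exp_pos Y]
  exact (pow_left_inj₀ (Fch_rr_nn _) (Real.exp_pos _).le two_ne_zero).1 h2

theorem Fch_zone {d x₁ : ℝ} (h : x₁ ≤ 1) {n : ℤ} {x : F3} (hx : x ∈ zone d x₁ n) : x ≠ 0 ∧ Dm x ∧ Dm (mir x) := by
  obtain ⟨u, Y, X, -, h2, h3⟩ := hx
  have h4 := abs_lt.1 (h2.trans_le h)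
  have h5 : rr x = Real.exp Y := by rw [h3, Fch_rr_cyl (h2.le.trans h)]
  have e2 : x.2 = Real.exp Y * X := by rw [h3]; rfl
  have hY := Real.exp_pos Y
  refine ⟨?_, ?_, ?_⟩
  · intro h0
    rw [h0] at h5
    have : rr (0 : F3) = 0 := by simp [rr, q2]
    rw [this] at h5
    linarith
  · show 0 < rr x + x.2
    rw [h5, e2]
    nlinarith
  · show 0 < rr (mir x) + (mir x).2
    have : (mir x).2 = -x.2 := rfl
    rw [Fch_rr_mir, h5, this, e2]
    nlinarith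

/-- the chart -/
noncomputable def FF (P : Pm) (p : F3 × ℝ) : SP := by
  classical exact gact P.v p.2 (if 0 ≤ p.1.2 then E1t P (p.1, 0) else E2t P (mir p.1, 0))

/-- its domain -/
def Wf (P : Pm) : Set F3 :=
  {x | 1 < rr x ∧ rr x < Real.exp 1 ∧ (x.2 ≠ 0 ∨ x ∈ zone (2 * P.d₀) P.x₁ 0 ∨ x ∈ zone (2 * P.d₀) P.x₁ 1)}

theorem FF_E1 (hP : P.Ok) {x : F3} (hx : 0 ≤ x.2) (h0 : x ≠ 0) (τ : ℝ) : FF P (x, τ) = E1t P (x, τ) := by
  unfold FF
  simp only [if_pos hx]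
  rw [E1t_act P (Fch_Dm hx h0), zero_add]

theorem FF_E2 (hP : P.Ok) {x : F3} (hx : x.2 < 0) (τ : ℝ) : FF P (x, τ) = E2t P (mir x, τ) := by
  unfold FF
  simp only [if_neg (not_le.2 hx)]
  have h0 : x ≠ 0 := by
    intro h
    rw [h] at hx
    exact lt_irrefl _ hx
  rw [E2t_act hP (Fch_Dm (x := mir x) (by show 0 ≤ -x.2; linarith) (Fch_mir_ne h0)), zero_add]

theorem Fch_x1 (hP : P.Ok) : P.x₁ ≤ 1 := by linarith [hP.x₁_lt]

/-- on the zones both formulas hold -/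
theorem FF_zone (hP : P.Ok) {x : F3} {n : ℤ} (hx : x ∈ zone (2 * P.d₀) P.x₁ n) (τ : ℝ) :
    FF P (x, τ) = E1t P (x, τ) ∧ FF P (x, τ) = E2t P (mir x, τ) := by
  have h0 := (Fch_zone (Fch_x1 hP) hx).1
  have h1 := E2t_zone hP hx τ
  rcases le_or_gt 0 x.2 with h | h
  · rw [FF_E1 hP h h0, h1]
    exact ⟨rfl, rfl⟩
  · rw [FF_E2 hP h, h1]
    exact ⟨rfl, rfl⟩

theorem Fch_rr_cont : Continuous rr := by
  unfold rr q2
  exact Real.continuous_sqrt.comp ((Complex.continuous_normSq.comp continuous_fst).add (continuous_snd.pow 2))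

theorem Fch_Wf_open (hP : P.Ok) : IsOpen (Wf P) := by
  have h1 : IsOpen {x : F3 | 1 < rr x} := isOpen_lt continuous_const Fch_rr_cont
  have h2 : IsOpen {x : F3 | rr x < Real.exp 1} := isOpen_lt Fch_rr_cont continuous_const
  have h3 : IsOpen {x : F3 | x.2 ≠ 0} := isOpen_ne_fun continuous_snd continuous_const
  have h4 := ((h3.union (zone_isOpen (d := 2 * P.d₀) (Fch_x1 hP) 0)).union
    (zone_isOpen (d := 2 * P.d₀) (Fch_x1 hP) 1))
  have e : Wf P = {x : F3 | 1 < rr x} ∩ ({x : F3 | rr x < Real.exp 1} ∩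
      (({x : F3 | x.2 ≠ 0} ∪ zone (2 * P.d₀) P.x₁ 0) ∪ zone (2 * P.d₀) P.x₁ 1)) := by
    ext x
    simp only [Wf, Set.mem_ofPred_eq, mem_inter_iff, mem_union]
    tauto
  rw [e]
  exact h1.inter (h2.inter h4)

theorem Fch_Wf_ne {x : F3} (hx : x ∈ Wf P) : x ≠ 0 := by
  intro h
  have h1 := hx.1
  rw [h] at h1
  have : rr (0 : F3) = 0 := by simp [rr, q2]
  rw [this] at h1
  linarith

/-- the local form of `FF` -/
theorem Fch_cases (hP : P.Ok) {x : F3} (hx : x ∈ Wf P) :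
    (Dm x ∧ ∀ᶠ y in 𝓝 x, ∀ τ, FF P (y, τ) = E1t P (y, τ)) ∨
      (Dm (mir x) ∧ ∀ᶠ y in 𝓝 x, ∀ τ, FF P (y, τ) = E2t P (mir y, τ)) := by
  have h0 := Fch_Wf_ne hx
  have hne : ∀ᶠ y : F3 in 𝓝 x, y ≠ 0 := isOpen_ne.mem_nhds h0
  have hz : ∀ n : ℤ, x ∈ zone (2 * P.d₀) P.x₁ n → (Dm x ∧ ∀ᶠ y in 𝓝 x, ∀ τ, FF P (y, τ) = E1t P (y, τ)) := by
    intro n hn
    refine ⟨(Fch_zone (Fch_x1 hP) hn).2.1, ?_⟩
    filter_upwards [(zone_isOpen (Fch_x1 hP) n).mem_nhds hn] with y hy τ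
    exact (FF_zone hP hy τ).1
  rcases hx.2.2 with h | h | h
  · rcases lt_or_gt_of_ne h with h1 | h1
    · right
      refine ⟨Fch_Dm (x := mir x) (by show 0 ≤ -x.2; linarith) (Fch_mir_ne h0), ?_⟩
      have : ∀ᶠ y : F3 in 𝓝 x, y.2 < 0 := (isOpen_lt continuous_snd continuous_const).mem_nhds h1
      filter_upwards [this] with y hy τ
      exact FF_E2 hP hy τ
    · left
      refine ⟨Fch_Dm h1.le h0, ?_⟩
      have : ∀ᶠ y : F3 in 𝓝 x, 0 < y.2 := (isOpen_lt continuous_const continuous_snd).mem_nhds h1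
      filter_upwards [this, hne] with y hy hy' τ
      exact FF_E1 hP hy.le hy' τ
  · exact Or.inl (hz 0 h)
  · exact Or.inl (hz 1 h)

theorem Fch_mir_ld (p : F3 × ℝ) : IsLocalDiffeomorphAt 𝓘(ℝ, F3 × ℝ) 𝓘(ℝ, F3 × ℝ) ∞ (fun q : F3 × ℝ => (mir q.1, q.2)) p := by
  let e : (F3 × ℝ) ≃ (F3 × ℝ) :=
    { toFun := fun q => (mir q.1, q.2)
      invFun := fun q => (mir q.1, q.2)
      left_inv := fun q => by simp [mir]
      right_inv := fun q => by simp [mir] }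
  have h : ContDiff ℝ ∞ fun q : F3 × ℝ => (mir q.1, q.2) := by
    unfold mir
    exact (contDiff_fst.fst.prodMk contDiff_fst.snd.neg).prodMk contDiff_snd
  exact CSG.ld_of_perm (f := e) h h p

theorem Fch_loc (hP : P.Ok) {x : F3} (hx : x ∈ Wf P) (t : ℝ) : IsLocalDiffeomorphAt 𝓘(ℝ, F3 × ℝ) ISP ∞ (FF P) (x, t) := by
  have hc : ∀ {p : F3 → Prop}, (∀ᶠ y in 𝓝 x, p y) → ∀ᶠ q : F3 × ℝ in 𝓝 (x, t), p q.1 := by
    intro p hp
    exact (continuousAt_fst (p := (x, t))).eventually hp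
  rcases Fch_cases hP hx with ⟨h1, h2⟩ | ⟨h1, h2⟩
  · refine CSG.ld_congr (E1t_ld hP h1 t) ?_
    filter_upwards [hc h2] with q hq
    exact hq q.2
  · have h3 : IsLocalDiffeomorphAt 𝓘(ℝ, F3 × ℝ) ISP ∞ (E2t P ∘ fun q : F3 × ℝ => (mir q.1, q.2)) (x, t) :=
      IsLocalDiffeomorphAt.comp (hf := Fch_mir_ld (x, t)) (hg := E2t_ld hP h1 t) ..
    refine CSG.ld_congr h3 ?_
    filter_upwards [hc h2] with q hq
    exact hq q.2

theorem Fch_exp {x x' : F3} (hx : x ∈ Wf P) (hx' : x' ∈ Wf P) {n : ℤ} (h : x' = Real.exp n • x) : x' = x := by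
  have h1 := Fch_rr_smul (Real.exp n) (Real.exp_pos _).le x
  rw [← h] at h1
  have e0 : n = 0 := by
    have a1 := hx.1
    have a2 := hx.2.1
    have b1 := hx'.1
    have b2 := hx'.2.1
    rw [h1] at b1 b2
    have hn1 : ((n : ℤ) : ℝ) < 1 := by
      by_contra hc
      have : Real.exp 1 ≤ Real.exp n := Real.exp_le_exp.2 (not_lt.1 hc)
      nlinarith [Real.exp_pos (n : ℝ)]
    have hn2 : (-1 : ℝ) < n := by
      by_contra hc
      have h3 : Real.exp n ≤ Real.exp (-1) := Real.exp_le_exp.2 (not_lt.1 hc)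
      have h4 : Real.exp (-1) * Real.exp 1 = 1 := by rw [← Real.exp_add]; simp
      have h5 : Real.exp n * rr x ≤ Real.exp (-1) * rr x := mul_le_mul_of_nonneg_right h3 (by linarith)
      have h6 : Real.exp (-1) * rr x < Real.exp (-1) * Real.exp 1 := mul_lt_mul_of_pos_left a2 (Real.exp_pos _)
      linarith
    have h7 : n < 1 := by exact_mod_cast hn1
    have h8 : -1 < n := by exact_mod_cast hn2
    omega
  rw [h, e0]
  simp

/-- values of `FF` as values of `E1t` or `E2t` -/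
theorem Fch_val (hP : P.Ok) {x : F3} (hx : x ∈ Wf P) (t : ℝ) :
    (0 ≤ x.2 ∧ Dm x ∧ FF P (x, t) = E1t P (x, t)) ∨ (x.2 < 0 ∧ Dm (mir x) ∧ FF P (x, t) = E2t P (mir x, t)) := by
  rcases le_or_gt 0 x.2 with h | h
  · exact Or.inl ⟨h, Fch_Dm h (Fch_Wf_ne hx), FF_E1 hP h (Fch_Wf_ne hx) t⟩
  · exact Or.inr ⟨h, Fch_Dm (x := mir x) (by show 0 ≤ -x.2; linarith) (Fch_mir_ne (Fch_Wf_ne hx)), FF_E2 hP h t⟩

theorem Fch_mir_smul (t : ℝ) (x : F3) : mir (t • x) = t • mir x := by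
  unfold mir
  refine Prod.ext rfl ?_
  show -(t * x.2) = t * -x.2
  ring

theorem Fch_inj (hP : P.Ok) {x x' : F3} {t t' : ℝ} (hx : x ∈ Wf P) (hx' : x' ∈ Wf P) (h : FF P (x, t) = FF P (x', t')) :
    x' = x ∧ ∃ m : ℤ, t' = t + m := by
  rcases Fch_val hP hx t with ⟨a1, a2, a3⟩ | ⟨a1, a2, a3⟩ <;> rcases Fch_val hP hx' t' with ⟨b1, b2, b3⟩ | ⟨b1, b2, b3⟩
  · rw [a3, b3] at h
    obtain ⟨⟨n, e1⟩, j, e2⟩ := E1t_inj hP a2 b2 h
    exact ⟨Fch_exp hx hx' e1, j, e2⟩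
  · rw [a3, b3] at h
    have := (E12t_ht a2 b2 a1 (by show 0 ≤ -x'.2; linarith) h).2
    have h2 : -x'.2 = 0 := this
    linarith
  · rw [a3, b3] at h
    have := (E12t_ht b2 a2 b1 (by show 0 ≤ -x.2; linarith) h.symm).2
    have h2 : -x.2 = 0 := this
    linarith
  · rw [a3, b3] at h
    obtain ⟨⟨n, e1⟩, j, e2⟩ := E2t_inj hP a2 b2 h
    refine ⟨Fch_exp hx hx' (n := n) ?_, j, e2⟩
    have e3 := congrArg mir e1
    rw [Fch_mir_smul] at e3
    have mm : ∀ y : F3, mir (mir y) = y := fun y => by simp [mir]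
    rwa [mm, mm] at e3

theorem fch (hP : P.Ok) (hv : VGood P.v) : FCh ISP (gact P.v) (2 * P.d₀) (Wf P) (FF P) := by
  have hA : Act ISP (gact P.v) := GLB.gact_act hv.cop1 hv.cop2
  have hd := hP.hd
  have hδ := hP.kap.le
  have hd0 := hP.d₀_pos
  have hx0 := hP.x₁_pos
  refine ⟨⟨Fch_Wf_open hP, ?_, ?_, ?_, ?_, ?_⟩, ?_, ?_, ?_⟩
  · intro x hx m hm
    rw [AddSubgroup.mem_bot] at hm
    rw [hm, add_zero]
    exact hx
  · intro x t m hm
    rw [AddSubgroup.mem_bot] at hm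
    rw [hm, add_zero]
  · intro x t
    unfold FF
    simp only
    rw [← hA.add, add_zero]
  · intro x t hx
    exact Fch_loc hP hx t
  · intro x t x' t' hx hx' h
    obtain ⟨h1, h2⟩ := Fch_inj hP hx hx' h
    exact ⟨⟨0, AddSubgroup.zero_mem _, by rw [h1, add_zero]⟩, h2⟩
  · intro x h1 h2 h3
    exact ⟨h1, h2, Or.inl h3⟩
  · intro Y h1 h2
    have hr : rr (cyl (0, Y, 0)) = Real.exp Y := Fch_rr_cyl (by simp)
    refine ⟨?_, ?_, Or.inr (Or.inl ⟨0, Y, 0, ?_, by simpa using hx0, rfl⟩)⟩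
    · rw [hr]; exact Real.one_lt_exp_iff.2 h1
    · rw [hr]; exact Real.exp_lt_exp.2 (by linarith)
    · push_cast
      nlinarith
  · intro Y h1 h2
    have hr : rr (cyl (0, 1 - Y, 0)) = Real.exp (1 - Y) := Fch_rr_cyl (by simp)
    refine ⟨?_, ?_, Or.inr (Or.inr ⟨0, 1 - Y, 0, ?_, by simpa using hx0, rfl⟩)⟩
    · rw [hr]; exact Real.one_lt_exp_iff.2 (by linarith)
    · rw [hr]; exact Real.exp_lt_exp.2 (by linarith)
    · push_cast
      nlinarith

/-- the core of the open book -/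
theorem kK_FF (hP : P.Ok) {ε : ℝ} (D : WD P.d₀ P.x₁ ε) (l : ℝ) : CHO.kK D (l, 0, l) = FF P (D.Wk (l, 0), l) := by
  have hper : ∀ (l : ℝ) (n : ℤ), D.Wk (l + n, 0) = D.Wk (l, 0) := by
    intro l n
    have hp : Function.Periodic (fun l => D.Wk (l, 0)) 1 := fun l => D.k_per l 0
    simpa using hp.int_mul n l
  have hf : D.Wk (l, 0) = D.Wk (Int.fract l, 0) := by
    have := hper (Int.fract l) ⌊l⌋
    rw [Int.fract_add_floor] at this
    exact this
  have h1 := Int.fract_nonneg l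
  have h2 := Int.fract_lt_one l
  have hne : D.Wk (l, 0) ≠ 0 := by
    intro h
    have := (D.k_inj l 0 l 0 1 (by simp) (by simp) (by rw [h, smul_zero])).1
    norm_num at this
  unfold CHO.kK
  simp only
  by_cases h3 : 0 < Int.fract l ∧ Int.fract l < 1 / 2
  · rw [if_pos h3]
    have h4 : (D.Wk (l, 0)).2 < 0 := by rw [hf]; exact D.core_neg _ h3.1 h3.2
    unfold FF
    simp only [if_neg (not_le.2 h4)]
  · rw [if_neg h3]
    have h4 : 0 ≤ (D.Wk (l, 0)).2 := by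
      rw [hf]
      rcases h1.eq_or_lt with h5 | h5
      · obtain ⟨Y, -, -, h6⟩ := D.core_one
        have h7 := hper 0 1
        rw [← h5]
        have : D.Wk (0, 0) = D.Wk (1, 0) := by
          rw [← h7]; norm_num
        rw [this, h6]
        show 0 ≤ Real.exp (1 - Y) * 0
        simp
      · have h6 : 1 / 2 ≤ Int.fract l := by
          by_contra hc
          exact h3 ⟨h5, not_le.1 hc⟩
        rcases h6.eq_or_lt with h7 | h7
        · obtain ⟨Y, -, -, h8⟩ := D.core_half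
          rw [← h7, h8]
          show 0 ≤ Real.exp Y * 0
          simp
        · exact (D.core_pos _ h7 h2).le
    unfold FF
    simp only [if_pos h4]

end Pool.Agent.CPI
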