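import Pool.Agent.CPI.Lin
import Pool.Agent.CPI.Sxm
import Pool.Agent.CPI.KAw

/-!
# CPI/GEl: the charts `E1`, `E2` and the coordinates `gE`   (difficulty 2-3)

`R ρ = TCgR ρ = prf ρ / prf (1 - ρ)`.
* `sx (ζ, Y) = (w, h)` with `rr = e^Y` (`rr_sx`), `rr + h = 2 e^Y / (1 + |ζ|²)`, `w = (2 e^Y / (1 + |ζ|²)) ζ`: so `E1 v m (sx (ζ, Y), τ) = (pS3 (s ζ ex (Y m₁ + τ v₁)) (s ex (Y m₂ + τ v₂)), Circle.exp (2π (Y m₃ + τ v₃)))`,
  `s > 0` (`GLB.pS3_smul` removes `s`).  Here `ζ = R ρ ex u`, `0 ≤ ρ < 1`, `prf (1 - ρ) > 0`: multiply both entries by `prf (1 - ρ)`: `pS3 (prf ρ ex (u + Y m₁ + τ v₁)) (prf (1 - ρ) ex (Y m₂ + τ v₂))`, which is `gE ρ (M1 v m (pt τ u Y))`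
  (`ex_add`).  `E1_gE`.
* `E2_gE`: the same with the roles of the two entries exchanged, `0 < ρ ≤ 1`, `ζ = R (1 - ρ) ex u = prf (1 - ρ) / prf ρ ex u`; multiply by `prf ρ`.
* `cyl_xr`: `0 < ρ < 1`: `xr ρ = (p² - q²)/(p² + q²)`, `p = prf ρ > 0`, `q = prf (1 - ρ) > 0`; `√(1 - X²) = 2 p q / (p² + q²)`; with `ζ = (q/p) ex u`: `2 (q/p) / (1 + q²/p²) = 2 p q / (p² + q²)`, `(1 - q²/p²)/(1 + q²/p²) = X`: `cyl (u, Y, xr ρ) =
  sx (R (1 - ρ) ex u, Y)`.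
* `mir_wx`: `mir (wx Y (phA l)) = cyl (0, Y, xr (rA l))`: `phA l = π/2 - 2 arctan R`, `R = R (rA l) = p/q > 0`, so `cos (phA l) = 2 R/(1 + R²) = 2 p q/(p² + q²) ≥ 0`, `-sin (phA l) = -(1 - R²)/(1 + R²) = (p² - q²)/(p² + q²)` (see `wx_sx`; `R = TCgR`, `0 < rA l < 1`).
* `mir_mir`.
-/

open scoped Manifold ContDiff Topology
open Set Filter
open Complex (I normSq)

namespace Pool.Agent.CPI

open Pool.Agent.CSG (E3 pt act vec stp)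
open Pool.Agent.GLB (rv TCgR)
open Pool.Agent.PTH (gE gK GPath prf)
open Pool.Agent.RSG (ex)
open Pool.Agent.CHW (F3 rr mir cyl)
open Pool.Agent.CHO (E1 E2)

open Pool.Agent.GLB (prf_pos pS3_smul)

theorem GEl_exn (x : ℝ) : ‖ex x‖ = 1 := RSG.ex_norm x

/-- the factor `s` -/
noncomputable def GEl_s (ζ : ℂ) (Y : ℝ) : ℝ := 2 * Real.exp Y / (1 + normSq ζ)

theorem GEl_s_pos (ζ : ℂ) (Y : ℝ) : 0 < GEl_s ζ Y := by
  have h := Sxm_ns ζ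
  have he := Real.exp_pos Y
  unfold GEl_s
  positivity

theorem GEl_pos {a b : ℂ} {q : ℝ} (hq : 0 < q) (h : ‖b‖ = q ∨ ‖a‖ = q) : 0 < ‖a‖ ^ 2 + ‖b‖ ^ 2 := by
  rcases h with h | h
  · have : 0 < ‖b‖ := by rw [h]; exact hq
    positivity
  · have : 0 < ‖a‖ := by rw [h]; exact hq
    positivity

theorem GEl_norm {p : ℝ} (hp : 0 < p) (x : ℝ) : ‖(p : ℂ) * ex x‖ = p := by
  rw [norm_mul, Complex.norm_real, Real.norm_of_nonneg hp.le, GEl_exn, mul_one]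

theorem E1_gE (v m : ℤ × ℤ × ℤ) {ρ : ℝ} (h0 : 0 ≤ ρ) (h1 : ρ < 1) (τ u Y : ℝ) :
    E1 v m (sx (((TCgR ρ : ℝ) : ℂ) * ex u, Y), τ) = gE ρ (M1 v m (pt τ u Y)) := by
  have _ := h0
  have hq : 0 < prf (1 - ρ) := prf_pos (by linarith)
  have hqc : ((prf (1 - ρ) : ℝ) : ℂ) ≠ 0 := by exact_mod_cast hq.ne'
  set ζ : ℂ := ((TCgR ρ : ℝ) : ℂ) * ex u with hζ
  have hs := GEl_s_pos ζ Y
  have hr : 0 < GEl_s ζ Y / prf (1 - ρ) := div_pos hs hq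
  unfold E1 gE
  rw [M1_pt]
  have e1 : rr (sx (ζ, Y)) + (sx (ζ, Y)).2 = GEl_s ζ Y := Sxm_sum (ζ, Y)
  have e2 : Real.log (rr (sx (ζ, Y))) = Y := by rw [rr_sx, Real.log_exp]
  have e3 : (sx (ζ, Y)).1 = ((GEl_s ζ Y : ℝ) : ℂ) * ζ := rfl
  simp only
  rw [e1, e2, e3]
  simp only [rv, Prod.smul_mk, Prod.mk_add_mk, smul_eq_mul, mul_one, mul_zero, add_zero]
  refine Prod.ext ?_ ?_
  · simp only
    rw [← pS3_smul hr (GEl_pos hq (Or.inl (GEl_norm hq _)))]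
    have hR : ((TCgR ρ : ℝ) : ℂ) = ((prf ρ : ℝ) : ℂ) / ((prf (1 - ρ) : ℝ) : ℂ) := by
      unfold TCgR
      push_cast
      rfl
    congr 1
    · rw [hζ, hR, show τ * (v.1 : ℝ) + u + Y * (m.1 : ℝ) = u + (Y * m.1 + τ * v.1) by ring, RSG.ex_add u]
      push_cast
      field_simp
    · rw [show τ * (v.2.1 : ℝ) + Y * (m.2.1 : ℝ) = Y * m.2.1 + τ * v.2.1 by ring]
      push_cast
      field_simp
  · simp only
    rw [show τ * (v.2.2 : ℝ) + Y * (m.2.2 : ℝ) = Y * m.2.2 + τ * v.2.2 by ring]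

theorem E2_gE (v m : ℤ × ℤ × ℤ) {ρ : ℝ} (h0 : 0 < ρ) (h1 : ρ ≤ 1) (τ u Y : ℝ) :
    E2 v m (sx (((TCgR (1 - ρ) : ℝ) : ℂ) * ex u, Y), τ) = gE ρ (M2 v m (pt τ u Y)) := by
  have _ := h1
  have hq : 0 < prf ρ := prf_pos h0
  have hqc : ((prf ρ : ℝ) : ℂ) ≠ 0 := by exact_mod_cast hq.ne'
  set ζ : ℂ := ((TCgR (1 - ρ) : ℝ) : ℂ) * ex u with hζ
  have hs := GEl_s_pos ζ Y
  have hr : 0 < GEl_s ζ Y / prf ρ := div_pos hs hq
  unfold E2 gE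
  rw [M2_pt]
  have e1 : rr (sx (ζ, Y)) + (sx (ζ, Y)).2 = GEl_s ζ Y := Sxm_sum (ζ, Y)
  have e2 : Real.log (rr (sx (ζ, Y))) = Y := by rw [rr_sx, Real.log_exp]
  have e3 : (sx (ζ, Y)).1 = ((GEl_s ζ Y : ℝ) : ℂ) * ζ := rfl
  simp only
  rw [e1, e2, e3]
  simp only [rv, Prod.smul_mk, Prod.mk_add_mk, smul_eq_mul, mul_one, mul_zero, add_zero]
  refine Prod.ext ?_ ?_
  · simp only
    rw [← pS3_smul hr (GEl_pos hq (Or.inr (GEl_norm hq _)))]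
    have hR : ((TCgR (1 - ρ) : ℝ) : ℂ) = ((prf (1 - ρ) : ℝ) : ℂ) / ((prf ρ : ℝ) : ℂ) := by
      unfold TCgR
      rw [sub_sub_cancel]
      push_cast
      rfl
    congr 1
    · rw [show τ * (v.1 : ℝ) + Y * (m.1 : ℝ) = Y * m.1 + τ * v.1 by ring]
      push_cast
      field_simp
    · rw [hζ, hR, show τ * (v.2.1 : ℝ) + u + Y * (m.2.1 : ℝ) = u + (Y * m.2.1 + τ * v.2.1) by ring, RSG.ex_add u]
      push_cast
      field_simp
  · simp only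
    rw [show τ * (v.2.2 : ℝ) + Y * (m.2.2 : ℝ) = Y * m.2.2 + τ * v.2.2 by ring]

theorem GEl_normSq (R u : ℝ) : normSq ((R : ℂ) * ex u) = R ^ 2 := by
  rw [Complex.normSq_mul, Complex.normSq_ofReal, Complex.normSq_eq_norm_sq, GEl_exn]
  ring

theorem xr_abs {ρ : ℝ} (h0 : 0 < ρ) (h1 : ρ < 1) : |xr ρ| < 1 := by
  have hp : 0 < prf ρ := prf_pos h0
  have hq : 0 < prf (1 - ρ) := prf_pos (by linarith)
  unfold xr
  have hpp := pow_pos hp 2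
  have hqq := pow_pos hq 2
  rw [abs_lt]
  constructor
  · rw [lt_div_iff₀ (by positivity)]
    linarith
  · rw [div_lt_iff₀ (by positivity)]
    linarith

theorem cyl_xr {ρ : ℝ} (h0 : 0 < ρ) (h1 : ρ < 1) (u Y : ℝ) :
    cyl (u, Y, xr ρ) = sx (((TCgR (1 - ρ) : ℝ) : ℂ) * ex u, Y) := by
  have hp : 0 < prf ρ := prf_pos h0
  have hq : 0 < prf (1 - ρ) := prf_pos (by linarith)
  have hpq : 0 < prf ρ ^ 2 + prf (1 - ρ) ^ 2 := by positivity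
  have hX : Real.sqrt (1 - xr ρ ^ 2) = 2 * prf ρ * prf (1 - ρ) / (prf ρ ^ 2 + prf (1 - ρ) ^ 2) := by
    have e : 1 - xr ρ ^ 2 = (2 * prf ρ * prf (1 - ρ) / (prf ρ ^ 2 + prf (1 - ρ) ^ 2)) ^ 2 := by
      unfold xr
      field_simp
      ring
    rw [e, Real.sqrt_sq (by positivity)]
  have hR : TCgR (1 - ρ) = prf (1 - ρ) / prf ρ := by
    unfold TCgR
    rw [sub_sub_cancel]
  unfold cyl sx
  simp only
  rw [GEl_normSq, hX, hR]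
  refine Prod.ext ?_ ?_
  · change (Real.exp Y : ℝ) • (((2 * prf ρ * prf (1 - ρ) / (prf ρ ^ 2 + prf (1 - ρ) ^ 2) : ℝ) : ℂ) * ex u) = _
    rw [Complex.real_smul, ← mul_assoc, ← mul_assoc, ← Complex.ofReal_mul, ← Complex.ofReal_mul]
    congr 2
    field_simp
  · change Real.exp Y * xr ρ = _
    unfold xr
    simp only
    field_simp

theorem mir_wx (Y l : ℝ) : mir (wx Y (phA l)) = cyl (0, Y, xr (rA l)) := by
  have h0 := rA_pos l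
  have h1 := rA_lt l
  have hR := R_pos h0 h1
  rw [cyl_xr h0 h1, R_inv h0 h1]
  have e0 : ex 0 = 1 := RSG.ex_zero
  rw [e0, mul_one]
  unfold phA
  rw [wx_sx]
  generalize TCgR (rA l) = R at hR
  unfold mir sx
  simp only
  rw [Complex.normSq_ofReal, Complex.normSq_ofReal]
  have hs : (0 : ℝ) < 1 + R * R := by positivity
  refine Prod.ext ?_ ?_
  · simp only
    rw [← Complex.ofReal_mul, ← Complex.ofReal_mul]
    congr 1
    field_simp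
    ring
  · simp only
    field_simp
    ring

theorem mir_mir (x : F3) : mir (mir x) = x := by
  unfold mir
  simp

theorem ms_neg (x : F3) : ms (-1) x = mir x := by
  unfold ms mir
  simp

theorem ms_one (x : F3) : ms 1 x = x := by
  unfold ms
  simp

end Pool.Agent.CPI
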