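import Pool.Agent.CPI.CKf

/-!
# CPI/Gms: the twisted chart `E2t` on the strands and far from the torus   (difficulty 2-3)

* `E2t_cE`: `|X| < 1`: `x' = cyl (x 1, x 2, X) = e^Y (√(1-X²) ex u, X)`, `rr = e^Y` (`√(1 - X²)² + X² = 1`), `cX = X`, `arg = 2π u` modulo `2π` (`√(1-X²) > 0`): so `toE (cE x X) = pt (x 0) (u - k) (x 2)`, an integer translate `x - vec ![0, k, 0]` of
  `x` (`Complex.arg` of `r ex u`: `RSG.ex_arg`, `ex_eq_iff`).  `Gam P X` commutes with integer translations (`KapOK.lat`; `Rr`: `round (x + k) = round x + k`, `dz` invariant), and `cE (y + vec ![0, k, 0]) X = cE y X` (`ex_add_int`).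
* `E2t_far`: `2 x₁ ≤ cX x`: `sg x₁ (cX x) = 0` (`stp_one`), `Rr d₀ 0 y = y` (`ex 0 = 1`, `dz` = `y - round`), `κ 0 = 1` (`start`), so `Gam = id`, and `cE (toE (x, τ)) (cX x) = (x, τ)` for `0 < rr x`, `Dm x`: `cyl (arg w/(2π), log r, h/r) = r (√(1 - h²/r²) ex (arg w/2π),
  h/r) = (‖w‖ ex (arg w / 2π), h) = (w, h)` (`r² = ‖w‖² + h²`, `RSG.ex_arg`).
* `Gam_left`: `0 < Y₀ < 2 d₀`, `Y₀ < 1/2`: `round Y₀ = 0`, `round 0 = 0`, `dz (pt τ 0 Y₀) = Y₀`, `dl = Y₀² < (2 d₀)²`, `chi = 1`: `Rr d₀ a (pt τ 0 Y₀) = pt τ (Y₀ sin 2πa) (Y₀ cos 2πa) = eR + pt τ 0 0` (`ex_re`, `ex_im`), `kap_left`.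
* `Gam_right`: `round (1 - Y₀) = 1`, `dz = -Y₀`: `Rr d₀ a (pt τ 0 (1 - Y₀)) = pt τ (-(Y₀ sin)) (1 - Y₀ cos)`, `kap_right` (`|Y₀ sin|, |Y₀ cos| ≤ Y₀ < δ`).
-/

open scoped Manifold ContDiff Topology
open Set Filter
open Complex (I normSq)

namespace Pool.Agent.CPI

open Pool.Agent.CSG (E3 pt act vec stp)
open Pool.Agent.CHW (F3 rr mir cyl)
open Pool.Agent.CHO (E1 E2 E1t E2t Pm Gam cE cX Dm sg)

variable {P : Pm}

theorem sg_Sg {x₁ : ℝ} (h : 0 < x₁) : Sg x₁ (sg x₁) := by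
  refine ⟨contDiff_const.sub (Pool.Agent.CSG.stp_smooth _ _), ?_, ?_⟩
  · intro ξ hξ
    unfold sg
    rw [Pool.Agent.CSG.stp_zero (by linarith) hξ, sub_zero]
  · intro ξ hξ
    unfold sg
    rw [Pool.Agent.CSG.stp_one (by linarith) hξ, sub_self]

theorem Gms_rr_cyl (u Y : ℝ) {X : ℝ} (hX : |X| < 1) : rr (cyl (u, Y, X)) = Real.exp Y := by
  have h1 : 0 ≤ 1 - X ^ 2 := by
    have := (sq_lt_one_iff_abs_lt_one X).2 hX
    linarith
  have e : Pool.Agent.CHW.q2 (cyl (u, Y, X)) = Real.exp Y ^ 2 := by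
    unfold Pool.Agent.CHW.q2 cyl
    simp only [Prod.smul_fst, Prod.smul_snd, Complex.real_smul, map_mul, Complex.normSq_ofReal, smul_eq_mul]
    have h2 : normSq (Pool.Agent.RSG.ex u) = 1 := by
      rw [Complex.normSq_eq_norm_sq, Pool.Agent.RSG.ex_norm, one_pow]
    rw [h2, Real.mul_self_sqrt h1]
    ring
  unfold rr
  rw [e, Real.sqrt_sq (Real.exp_pos Y).le]

theorem Gms_cX_cyl (u Y : ℝ) {X : ℝ} (hX : |X| < 1) : cX (cyl (u, Y, X)) = X := by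
  unfold cX
  rw [Gms_rr_cyl u Y hX]
  unfold cyl
  simp only [Prod.smul_snd, smul_eq_mul]
  rw [mul_div_assoc, mul_comm, div_mul_cancel₀ _ (Real.exp_pos Y).ne']

theorem Gms_arg_cyl (u Y : ℝ) {X : ℝ} (hX : |X| < 1) :
    ∃ k : ℤ, u = Complex.arg (cyl (u, Y, X)).1 / (2 * Real.pi) + k := by
  have h1 : 0 < 1 - X ^ 2 := by
    have := (sq_lt_one_iff_abs_lt_one X).2 hX
    linarith
  have hs : 0 < Real.exp Y * Real.sqrt (1 - X ^ 2) := mul_pos (Real.exp_pos Y) (Real.sqrt_pos.2 h1)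
  have e : (cyl (u, Y, X)).1 = ((Real.exp Y * Real.sqrt (1 - X ^ 2) : ℝ) : ℂ) * Pool.Agent.RSG.ex u := by
    unfold cyl
    simp only [Prod.smul_fst, Complex.real_smul]
    push_cast
    ring
  have h2 := Pool.Agent.RSG.ex_arg (p := (cyl (u, Y, X)).1)
  have h3 : ‖(cyl (u, Y, X)).1‖ = Real.exp Y * Real.sqrt (1 - X ^ 2) := by
    rw [e, norm_mul, Pool.Agent.RSG.ex_norm, mul_one, Complex.norm_real, Real.norm_eq_abs, abs_of_pos hs]
  rw [h3] at h2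
  have h4 : Pool.Agent.RSG.ex (Complex.arg (cyl (u, Y, X)).1 / (2 * Real.pi)) = Pool.Agent.RSG.ex u := by
    have h5 : ((Real.exp Y * Real.sqrt (1 - X ^ 2) : ℝ) : ℂ) ≠ 0 := Complex.ofReal_ne_zero.2 hs.ne'
    refine mul_left_cancel₀ h5 ?_
    rw [h2, e]
  exact Pool.Agent.RSG.ex_eq_iff.1 h4

theorem Gms_Rr_int (d₀ a : ℝ) (y : E3) (k : ℤ) :
    Pool.Agent.CHO.Rr d₀ a (y + vec ![0, k, 0]) = Pool.Agent.CHO.Rr d₀ a y + vec ![0, k, 0] := by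
  have v0 : (vec ![0, k, 0]) 0 = 0 := by simp [vec]
  have v1 : (vec ![0, k, 0]) 1 = (k : ℝ) := by simp [vec]
  have v2 : (vec ![0, k, 0]) 2 = 0 := by simp [vec]
  have e0 : (y + vec ![0, k, 0]) 0 = y 0 := by rw [PiLp.add_apply, v0, add_zero]
  have e1 : (y + vec ![0, k, 0]) 1 = y 1 + k := by rw [PiLp.add_apply, v1]
  have e2 : (y + vec ![0, k, 0]) 2 = y 2 := by rw [PiLp.add_apply, v2, add_zero]
  have hd : Pool.Agent.CHO.dz (y + vec ![0, k, 0]) = Pool.Agent.CHO.dz y := by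
    unfold Pool.Agent.CHO.dz
    rw [e1, e2, round_add_intCast]
    push_cast
    congr 1
    ring
  unfold Pool.Agent.CHO.Rr Pool.Agent.CHO.dl
  rw [hd, e0, e1, e2, round_add_intCast]
  ext i
  fin_cases i
  · change _ = (_ + vec ![0, k, 0]) 0
    rw [PiLp.add_apply, v0, add_zero]
    simp [pt]
  · change _ = (_ + vec ![0, k, 0]) 1
    rw [PiLp.add_apply, v1]
    simp [pt]
    ring
  · change _ = (_ + vec ![0, k, 0]) 2
    rw [PiLp.add_apply, v2, add_zero]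
    simp [pt]

theorem Gms_Gam_int (hP : P.Ok) (X : ℝ) (y : E3) (k : ℤ) :
    Gam P X (y + vec ![0, k, 0]) = Gam P X y + vec ![0, k, 0] := by
  unfold Gam
  rw [Gms_Rr_int, hP.kap.lat]

theorem Gms_cE_int (y : E3) (k : ℤ) (X : ℝ) : cE (y + vec ![0, k, 0]) X = cE y X := by
  have v0 : (vec ![0, k, 0]) 0 = 0 := by simp [vec]
  have v1 : (vec ![0, k, 0]) 1 = (k : ℝ) := by simp [vec]
  have v2 : (vec ![0, k, 0]) 2 = 0 := by simp [vec]
  have e0 : (y + vec ![0, k, 0]) 0 = y 0 := by rw [PiLp.add_apply, v0, add_zero]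
  have e1 : (y + vec ![0, k, 0]) 1 = y 1 + k := by rw [PiLp.add_apply, v1]
  have e2 : (y + vec ![0, k, 0]) 2 = y 2 := by rw [PiLp.add_apply, v2, add_zero]
  unfold cE cyl
  simp only
  rw [e0, e1, e2, Pool.Agent.RSG.ex_add_int]

theorem E2t_cE (hP : P.Ok) {X : ℝ} (hX : |X| < 1) (x : E3) :
    E2t P (cE x X) = E2 P.v P.m' (cE (Gam P X x) X) := by
  obtain ⟨k, hk⟩ := Gms_arg_cyl (x 1) (x 2) hX
  have v0 : (vec ![0, k, 0]) 0 = 0 := by simp [vec]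
  have v1 : (vec ![0, k, 0]) 1 = (k : ℝ) := by simp [vec]
  have v2 : (vec ![0, k, 0]) 2 = 0 := by simp [vec]
  have e1 : cX (cE x X).1 = X := Gms_cX_cyl _ _ hX
  have e2 : x = Pool.Agent.CHO.toE (cE x X) + vec ![0, k, 0] := by
    unfold Pool.Agent.CHO.toE
    ext i
    fin_cases i
    · change x 0 = (_ + vec ![0, k, 0]) 0
      rw [PiLp.add_apply, v0, add_zero]
      simp [pt, cE]
    · change x 1 = (_ + vec ![0, k, 0]) 1
      rw [PiLp.add_apply, v1]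
      simpa [pt, cE] using hk
    · change x 2 = (_ + vec ![0, k, 0]) 2
      rw [PiLp.add_apply, v2, add_zero]
      have h3 : rr (cE x X).1 = Real.exp (x 2) := Gms_rr_cyl _ _ hX
      rw [h3, Real.log_exp]
      simp [pt]
  have e3 : cE (Gam P X x) X = cE (Gam P X (Pool.Agent.CHO.toE (cE x X))) X := by
    conv_lhs => rw [e2]
    rw [Gms_Gam_int hP, Gms_cE_int]
  unfold E2t Pool.Agent.CHO.Ga
  rw [e1, e3]

theorem Gms_Rr_zero (d₀ : ℝ) (y : E3) : Pool.Agent.CHO.Rr d₀ 0 y = y := by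
  unfold Pool.Agent.CHO.Rr
  rw [zero_mul, Pool.Agent.RSG.ex_zero, one_mul]
  unfold Pool.Agent.CHO.dz
  ext i
  fin_cases i <;> simp [pt]

theorem Gms_cE_toE {x : F3} (h : 0 < rr x) (τ : ℝ) :
    cE (Pool.Agent.CHO.toE (x, τ)) (cX x) = (x, τ) := by
  have hq : rr x ^ 2 = normSq x.1 + x.2 ^ 2 := by
    unfold rr
    exact Real.sq_sqrt (add_nonneg (Complex.normSq_nonneg _) (sq_nonneg _))
  have hs : rr x * Real.sqrt (1 - (x.2 / rr x) ^ 2) = ‖x.1‖ := by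
    have h1 : 1 - (x.2 / rr x) ^ 2 = (‖x.1‖ / rr x) ^ 2 := by
      rw [div_pow, div_pow, ← Complex.normSq_eq_norm_sq]
      have h2 : rr x ^ 2 ≠ 0 := by positivity
      field_simp
      linarith
    rw [h1, Real.sqrt_sq (by positivity)]
    field_simp
  refine Prod.ext (Prod.ext ?_ ?_) ?_
  · unfold cE cyl Pool.Agent.CHO.toE cX
    simp only [Pool.Agent.CSG.pt_one', Pool.Agent.CSG.pt_two', Prod.smul_fst,
      Complex.real_smul]
    rw [Real.exp_log h, ← mul_assoc, ← Complex.ofReal_mul, hs, Pool.Agent.RSG.ex_arg]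
  · unfold cE cyl Pool.Agent.CHO.toE cX
    simp only [Pool.Agent.CSG.pt_one', Pool.Agent.CSG.pt_two', Prod.smul_snd,
      smul_eq_mul]
    rw [Real.exp_log h]
    field_simp
  · unfold cE Pool.Agent.CHO.toE
    simp

theorem E2t_far (hP : P.Ok) {x : F3} (hx : Dm x) (hf : 2 * P.x₁ ≤ cX x) (τ : ℝ) :
    E2t P (x, τ) = E2 P.v P.m' (x, τ) := by
  have hpos := hP.x₁_pos
  have hr : 0 < rr x := by
    have h0 : 0 ≤ rr x := Real.sqrt_nonneg _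
    rcases h0.lt_or_eq with h | h
    · exact h
    · exfalso
      unfold cX at hf
      rw [← h, div_zero] at hf
      linarith
  have hs : sg P.x₁ (cX x) = 0 := (sg_Sg hpos).hi _ hf
  unfold E2t Pool.Agent.CHO.Ga Gam
  simp only
  rw [hs, mul_zero, Gms_Rr_zero, hP.kap.start 0 (by norm_num), Equiv.Perm.one_apply, Gms_cE_toE hr]

theorem Gms_pt_add (a b c a' b' c' : ℝ) : pt a b c + pt a' b' c' = pt (a + a') (b + b') (c + c') := by
  ext i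
  fin_cases i <;> simp [pt]

theorem Gms_chi {d₀ Y₀ : ℝ} (h0 : 0 < Y₀) (h1 : Y₀ < 2 * d₀) : Pool.Agent.CHO.chi d₀ (Y₀ ^ 2) = 1 := by
  unfold Pool.Agent.CHO.chi
  rw [Pool.Agent.CSG.stp_zero (by nlinarith) (by nlinarith), sub_zero]

theorem Gms_round {Y₀ : ℝ} (h0 : 0 < Y₀) (h2 : Y₀ < 1 / 2) : round Y₀ = 0 :=
  round_eq_zero_iff.2 ⟨by linarith, h2⟩

theorem Gms_round' {Y₀ : ℝ} (h0 : 0 < Y₀) (h2 : Y₀ < 1 / 2) : round (1 - Y₀) = 1 := by
  have e : 1 - Y₀ = -Y₀ + 1 := by ring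
  rw [e, round_add_one, round_eq_zero_iff.2 ⟨by linarith, by linarith⟩]
  norm_num

theorem Gam_left (hP : P.Ok) {Y₀ : ℝ} (h0 : 0 < Y₀) (h1 : Y₀ < 2 * P.d₀) (h2 : Y₀ < 1 / 2) (X τ : ℝ) :
    Gam P X (pt τ 0 Y₀) = P.κ (sg P.x₁ X) (eR P.k (sg P.x₁) Y₀ X) + pt τ 0 0 := by
  have e : Pool.Agent.CHO.Rr P.d₀ (P.k * sg P.x₁ X) (pt τ 0 Y₀) =
      eR P.k (sg P.x₁) Y₀ X + pt τ 0 0 := by
    have hdz : Pool.Agent.CHO.dz (pt τ 0 Y₀) = (Y₀ : ℂ) := by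
      unfold Pool.Agent.CHO.dz
      rw [Pool.Agent.CSG.pt_one', Pool.Agent.CSG.pt_two', Gms_round h0 h2, round_zero]
      refine Complex.ext ?_ ?_ <;> simp
    have hdl : Pool.Agent.CHO.dl (pt τ 0 Y₀) = Y₀ ^ 2 := by
      unfold Pool.Agent.CHO.dl
      rw [hdz, Complex.normSq_ofReal]
      ring
    unfold Pool.Agent.CHO.Rr
    rw [hdl, hdz, Gms_chi h0 h1, mul_one, Pool.Agent.CSG.pt_zero', Pool.Agent.CSG.pt_one',
      Pool.Agent.CSG.pt_two', Gms_round h0 h2, round_zero, Complex.im_mul_ofReal,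
      Complex.re_mul_ofReal, Pool.Agent.RSG.ex_re, Pool.Agent.RSG.ex_im]
    unfold eR
    rw [Gms_pt_add]
    congr 1
    · ring
    · push_cast
      ring
    · push_cast
      ring
  unfold Gam
  rw [e, kap_left hP.kap]

theorem Gam_right (hP : P.Ok) {Y₀ : ℝ} (h0 : 0 < Y₀) (h1 : Y₀ < 2 * P.d₀) (h2 : Y₀ < 1 / 2) (X τ : ℝ) :
    Gam P X (pt τ 0 (1 - Y₀)) = -P.κ (sg P.x₁ X) (eR P.k (sg P.x₁) Y₀ X) + pt τ 0 1 := by
  have hδ : Y₀ < P.δ := by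
    have := hP.hd
    have := hP.d₀_pos
    linarith
  have e : Pool.Agent.CHO.Rr P.d₀ (P.k * sg P.x₁ X) (pt τ 0 (1 - Y₀)) =
      pt τ (-(Y₀ * Real.sin (2 * Real.pi * (P.k * sg P.x₁ X))))
        (1 - Y₀ * Real.cos (2 * Real.pi * (P.k * sg P.x₁ X))) := by
    have hdz : Pool.Agent.CHO.dz (pt τ 0 (1 - Y₀)) = ((-Y₀ : ℝ) : ℂ) := by
      unfold Pool.Agent.CHO.dz
      rw [Pool.Agent.CSG.pt_one', Pool.Agent.CSG.pt_two', Gms_round' h0 h2, round_zero]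
      refine Complex.ext ?_ ?_ <;> simp
    have hdl : Pool.Agent.CHO.dl (pt τ 0 (1 - Y₀)) = Y₀ ^ 2 := by
      unfold Pool.Agent.CHO.dl
      rw [hdz, Complex.normSq_ofReal]
      ring
    unfold Pool.Agent.CHO.Rr
    rw [hdl, hdz, Gms_chi h0 h1, mul_one, Pool.Agent.CSG.pt_zero', Pool.Agent.CSG.pt_one',
      Pool.Agent.CSG.pt_two', Gms_round' h0 h2, round_zero, Complex.im_mul_ofReal,
      Complex.re_mul_ofReal, Pool.Agent.RSG.ex_re, Pool.Agent.RSG.ex_im]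
    congr 1
    · push_cast
      ring
    · push_cast
      ring
  have ha : ∀ z : ℝ, |z| ≤ 1 → |Y₀ * z| < P.δ := by
    intro z hz
    rw [abs_mul, abs_of_pos h0]
    calc Y₀ * |z| ≤ Y₀ * 1 := mul_le_mul_of_nonneg_left hz h0.le
      _ < P.δ := by linarith
  unfold Gam
  rw [e, kap_right hP.kap _ _ (ha _ (Real.abs_sin_le_one _)) (ha _ (Real.abs_cos_le_one _))]
  rfl

end Pool.Agent.CPI
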