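import Pool.Agent.CPI.KAr
import Pool.Agent.CPI.KAy
import Pool.Agent.RSG.ExM

/-!
# CPI/Kkf: the straight line homotopy in the middle of the solid tori   (difficulty 3)

`kk Y₀ s y = ((1 - s) zA y + s zC y, (1 - s) yA y + s yC y)`, `|y| ≤ 1/3`, `0 ≤ s ≤ 1`; `zA y = rA (y/2)`, `yA y = YA Y₀ (y/2)`.
* `kk_smooth`: all factors are smooth (`rA_smooth`, `YA_smooth`, `g1_smooth`, `RSG.ex_smooth`).
* for `1/6 ≤ y ≤ 1/3`: `zA y = y` (`rA_lin`), `zC y = -y ex (-1/2) = y` (`g1_hi`, `RSG.ex_half`, `ex_neg`); for `-1/3 ≤ y ≤ -1/6`: `zA y = -y` (`rA_lin'`), `zC y = -y ex 0 = -y`.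
  So `(kk s y).1 = |y|` for `1/6 ≤ |y| ≤ 1/3` (`kk_out`).
* `yA = yC = Y₀` for `-1/3 ≤ y ≤ -3/10` (`YA_lo`, `g1_lo`), `= 1 - Y₀` for `3/10 ≤ y ≤ 1/3`: `kk_end`.
* `kk_norm`: `‖zC y‖ = |y|`, `0 < zA y`; `|y| ≤ 1/6`: `zA y < 1/3` (`rA_mid`), so for `|y| ≤ 3/10` both have norm `< 1/3`: strict; convexity of the norm.
* `kk_Y`: `Y₀ ≤ yA, yC ≤ 1 - Y₀`.
* `kk_imm`: first component `ζ`, second `η`; `deriv (kk s) y = (ζ', η')` (`HasDerivAt.prodMk`).
  - `s = 1`: `ζ = zC`, `zC' = ex (-(g1/2)) (-1 + i π y g1')`: `≠ 0` (the real part of the second factor is `-1`).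
  - `s < 1`, `|y| ≤ 1/4`: `η' = (1 - s) (1/2) deriv YA (y/2) + s (1 - 2Y₀) deriv g1 y > 0` (`YA_deriv`, `g1_deriv`).
  - `s < 1`, `1/4 < |y| ≤ 1/3`: near `y` (in `1/6 < |y| < 5/6`; `rA_lin` holds up to `5/12`): `ζ = y` or `-y`: `ζ' = ± 1`.
* `kk_inj`: suppose `y < y'`.  `s = 1`: the norms give `|y| = |y'|`, so `y = -y' < 0 < y'`; `zC y = y'`, `zC y' = -y' ex (-(g1 y'/2))`, so `ex (-(g1 y' / 2)) = -1`, `g1 y' = 1` (`ex_eq_iff`,
  `0 ≤ g1 ≤ 1`), then `yC y' = 1 - Y₀ ≠ Y₀ = yC y` (`Y₀ < 1/2`).  `s < 1`: `η` is weakly monotone on `[-1/3, 1/3]` and strictly on `[-1/4, 1/4]`, so `η y = η y'` implies `y' ≤ -1/4` or `1/4 ≤ y`, and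
  there `ζ = |y|` is injective.
-/

open scoped Manifold ContDiff Topology
open Set Filter
open Complex (I normSq)

namespace Pool.Agent.CPI

open Pool.Agent.RSG (ex)

theorem Kkf_ex_neg_half : ex (-(1 / 2)) = -1 := by
  rw [RSG.ex_neg, RSG.ex_half, map_neg, map_one]

theorem Kkf_zC_smooth : ContDiff ℝ ∞ zC := by
  have h1 : ContDiff ℝ ∞ fun y : ℝ => ((-y : ℝ) : ℂ) := Complex.ofRealCLM.contDiff.comp contDiff_neg
  have h2 : ContDiff ℝ ∞ fun y : ℝ => ex (-(g1 y / 2)) := RSG.ex_smooth.comp (g1_smooth.div_const 2).neg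
  exact h1.mul h2

theorem Kkf_zA_smooth : ContDiff ℝ ∞ zA := rA_smooth.comp (contDiff_id.div_const 2)

theorem Kkf_yA_smooth (Y₀ : ℝ) : ContDiff ℝ ∞ (yA Y₀) := (YA_smooth Y₀).comp (contDiff_id.div_const 2)

theorem Kkf_yC_smooth (Y₀ : ℝ) : ContDiff ℝ ∞ (yC Y₀) :=
  contDiff_const.add (contDiff_const.mul g1_smooth)

theorem kk_smooth (Y₀ : ℝ) : ContDiff ℝ ∞ fun q : ℝ × ℝ => kk Y₀ q.1 q.2 := by
  have c1 : ContDiff ℝ ∞ fun q : ℝ × ℝ => ((1 - q.1 : ℝ) : ℂ) :=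
    Complex.ofRealCLM.contDiff.comp (contDiff_const.sub contDiff_fst)
  have c2 : ContDiff ℝ ∞ fun q : ℝ × ℝ => ((zA q.2 : ℝ) : ℂ) :=
    Complex.ofRealCLM.contDiff.comp (Kkf_zA_smooth.comp contDiff_snd)
  have c3 : ContDiff ℝ ∞ fun q : ℝ × ℝ => ((q.1 : ℝ) : ℂ) := Complex.ofRealCLM.contDiff.comp contDiff_fst
  have c4 : ContDiff ℝ ∞ fun q : ℝ × ℝ => zC q.2 := Kkf_zC_smooth.comp contDiff_snd
  have c5 : ContDiff ℝ ∞ fun q : ℝ × ℝ => yA Y₀ q.2 := (Kkf_yA_smooth Y₀).comp contDiff_snd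
  have c6 : ContDiff ℝ ∞ fun q : ℝ × ℝ => yC Y₀ q.2 := (Kkf_yC_smooth Y₀).comp contDiff_snd
  exact ((c1.mul c2).add (c3.mul c4)).prodMk
    (((contDiff_const.sub contDiff_fst).mul c5).add (contDiff_fst.mul c6))

theorem Kkf_zA {y : ℝ} (h1 : 1 / 6 ≤ |y|) (h2 : |y| ≤ 5 / 6) : zA y = |y| := by
  unfold zA
  rcases le_total 0 y with h | h
  · rw [abs_of_nonneg h] at h1 h2 ⊢
    rw [rA_lin (by linarith) (by linarith)]
    ring
  · rw [abs_of_nonpos h] at h1 h2 ⊢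
    rw [rA_lin' (by linarith) (by linarith)]
    ring

theorem Kkf_zC {y : ℝ} (h1 : 1 / 6 ≤ |y|) : zC y = (|y| : ℝ) := by
  unfold zC
  rcases le_total 0 y with h | h
  · rw [abs_of_nonneg h] at h1 ⊢
    rw [g1_hi h1, Kkf_ex_neg_half]
    push_cast
    ring
  · rw [abs_of_nonpos h] at h1 ⊢
    rw [g1_lo (by linarith), zero_div, neg_zero, RSG.ex_zero, mul_one]

theorem Kkf_out (Y₀ s : ℝ) {y : ℝ} (h1 : 1 / 6 ≤ |y|) (h2 : |y| ≤ 5 / 6) : (kk Y₀ s y).1 = (|y| : ℝ) := by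
  show ((1 - s : ℝ) : ℂ) * (zA y : ℝ) + (s : ℝ) * zC y = _
  rw [Kkf_zA h1 h2, Kkf_zC h1]
  push_cast
  ring

theorem kk_out (Y₀ s : ℝ) {y : ℝ} (h1 : 1 / 6 ≤ |y|) (h2 : |y| ≤ 1 / 3) : (kk Y₀ s y).1 = (|y| : ℝ) :=
  Kkf_out Y₀ s h1 (by linarith)

theorem Kkf_yAC (Y₀ : ℝ) {y : ℝ} (h1 : 3 / 10 ≤ |y|) (h2 : |y| ≤ 1 / 3) : yA Y₀ y = yC Y₀ y := by
  unfold yA yC
  rcases le_total 0 y with h | h
  · rw [abs_of_nonneg h] at h1 h2
    rw [YA_hi Y₀ (by linarith) (by linarith), g1_hi (by linarith)]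
    ring
  · rw [abs_of_nonpos h] at h1 h2
    rw [YA_lo Y₀ (by linarith) (by linarith), g1_lo (by linarith)]
    ring

theorem kk_end (Y₀ s : ℝ) {y : ℝ} (h1 : 3 / 10 ≤ |y|) (h2 : |y| ≤ 1 / 3) : kk Y₀ s y = kk Y₀ 0 y := by
  refine Prod.ext ?_ ?_
  · rw [kk_out Y₀ s (by linarith) h2, kk_out Y₀ 0 (by linarith) h2]
  · show (1 - s) * yA Y₀ y + s * yC Y₀ y = (1 - 0) * yA Y₀ y + 0 * yC Y₀ y
    rw [Kkf_yAC Y₀ h1 h2]
    ring

theorem Kkf_zC_norm (y : ℝ) : ‖zC y‖ = |y| := by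
  unfold zC
  rw [norm_mul, RSG.ex_norm, mul_one, Complex.norm_real, norm_neg, Real.norm_eq_abs]

theorem Kkf_small (Y₀ : ℝ) {s : ℝ} (hs : s ∈ Icc (0 : ℝ) 1) {y : ℝ} (h : |y| ≤ 1 / 6) :
    ‖(kk Y₀ s y).1‖ < 1 / 3 := by
  have hz1 : 0 < zA y := rA_pos _
  have hz2 : zA y < 1 / 3 := by
    refine rA_mid ?_
    rw [abs_div, abs_of_pos (show (0 : ℝ) < 2 by norm_num)]
    linarith
  have h3 : ‖(kk Y₀ s y).1‖ ≤ (1 - s) * zA y + s * |y| := by
    show ‖((1 - s : ℝ) : ℂ) * (zA y : ℝ) + (s : ℝ) * zC y‖ ≤ _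
    refine (norm_add_le _ _).trans ?_
    rw [norm_mul, norm_mul, Complex.norm_real, Complex.norm_real, Complex.norm_real, Kkf_zC_norm,
      Real.norm_eq_abs, Real.norm_eq_abs, Real.norm_eq_abs, abs_of_nonneg (sub_nonneg.2 hs.2),
      abs_of_pos hz1, abs_of_nonneg hs.1]
  have hs0 := hs.1
  have hs1 := hs.2
  refine lt_of_le_of_lt h3 ?_
  rcases eq_or_lt_of_le hs1 with h4 | h4
  · rw [h4]
    linarith
  · have h5 : (1 - s) * zA y < (1 - s) * (1 / 3) := mul_lt_mul_of_pos_left hz2 (by linarith)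
    have h6 : s * |y| ≤ s * (1 / 3) := mul_le_mul_of_nonneg_left (by linarith) hs0
    linarith

theorem kk_norm (Y₀ : ℝ) {s : ℝ} (hs : s ∈ Icc (0 : ℝ) 1) {y : ℝ} (h : |y| ≤ 1 / 3) :
    ‖(kk Y₀ s y).1‖ ≤ 1 / 3 := by
  rcases le_total |y| (1 / 6) with h1 | h1
  · exact (Kkf_small Y₀ hs h1).le
  · rw [kk_out Y₀ s h1 h, Complex.norm_real, Real.norm_eq_abs, abs_abs]
    exact h

theorem kk_norm' (Y₀ : ℝ) {s : ℝ} (hs : s ∈ Icc (0 : ℝ) 1) {y : ℝ} (h : |y| ≤ 3 / 10) :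
    ‖(kk Y₀ s y).1‖ < 1 / 3 := by
  rcases le_total |y| (1 / 6) with h1 | h1
  · exact Kkf_small Y₀ hs h1
  · rw [kk_out Y₀ s h1 (by linarith), Complex.norm_real, Real.norm_eq_abs, abs_abs]
    linarith

theorem kk_Y {Y₀ : ℝ} (h : Y₀ < 1 / 2) {s : ℝ} (hs : s ∈ Icc (0 : ℝ) 1) (y : ℝ) :
    Y₀ ≤ (kk Y₀ s y).2 ∧ (kk Y₀ s y).2 ≤ 1 - Y₀ := by
  have a1 : Y₀ ≤ yA Y₀ y := YA_ge h _
  have a2 : yA Y₀ y ≤ 1 - Y₀ := YA_le h _
  have g0 := g1_nonneg y
  have g2 := g1_le y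
  have c1 : Y₀ ≤ yC Y₀ y := by
    unfold yC
    nlinarith
  have c2 : yC Y₀ y ≤ 1 - Y₀ := by
    unfold yC
    nlinarith
  have hs0 := hs.1
  have hs1 : 0 ≤ 1 - s := by linarith [hs.2]
  show Y₀ ≤ (1 - s) * yA Y₀ y + s * yC Y₀ y ∧ (1 - s) * yA Y₀ y + s * yC Y₀ y ≤ 1 - Y₀
  have e1 := mul_le_mul_of_nonneg_left a1 hs1
  have e2 := mul_le_mul_of_nonneg_left a2 hs1
  have e3 := mul_le_mul_of_nonneg_left c1 hs0
  have e4 := mul_le_mul_of_nonneg_left c2 hs0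
  constructor <;> linarith

theorem Kkf_s1 (Y₀ y : ℝ) : kk Y₀ 1 y = (zC y, yC Y₀ y) := by
  refine Prod.ext ?_ ?_
  · show ((1 - 1 : ℝ) : ℂ) * (zA y : ℝ) + ((1 : ℝ) : ℂ) * zC y = zC y
    push_cast
    ring
  · show (1 - 1) * yA Y₀ y + 1 * yC Y₀ y = yC Y₀ y
    ring

theorem kk_imm {Y₀ : ℝ} (h : Y₀ < 1 / 2) {s : ℝ} (hs : s ∈ Icc (0 : ℝ) 1) {y : ℝ} (hy : |y| ≤ 1 / 3) :
    deriv (kk Y₀ s) y ≠ 0 := by
  intro h0
  have hsm : ContDiff ℝ ∞ (kk Y₀ s) := (kk_smooth Y₀).comp (contDiff_const.prodMk contDiff_id)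
  have hd : HasDerivAt (kk Y₀ s) (deriv (kk Y₀ s) y) y :=
    (hsm.differentiable (by simp) y).hasDerivAt
  rw [h0] at hd
  have hd1 : HasDerivAt (fun y => (kk Y₀ s y).1) 0 y := by
    have := (ContinuousLinearMap.fst ℝ ℂ ℝ).hasFDerivAt.comp_hasDerivAt y hd
    rw [map_zero] at this
    exact this
  have hd2 : HasDerivAt (fun y => (kk Y₀ s y).2) 0 y := by
    have := (ContinuousLinearMap.snd ℝ ℂ ℝ).hasFDerivAt.comp_hasDerivAt y hd
    rw [map_zero] at this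
    exact this
  rcases eq_or_lt_of_le hs.2 with h1 | h1
  · subst h1
    have e1 : (fun y => (kk Y₀ 1 y).1) = zC := funext fun y => by rw [Kkf_s1]
    rw [e1] at hd1
    have e2 : HasDerivAt (fun y => ‖zC y‖ ^ 2) (2 * inner ℝ (zC y) 0) y := hd1.norm_sq
    have e3 : (fun y : ℝ => ‖zC y‖ ^ 2) = fun y : ℝ => y ^ 2 := funext fun y => by
      rw [Kkf_zC_norm, sq_abs]
    rw [e3, inner_zero_right, mul_zero] at e2
    have e4 : HasDerivAt (fun y : ℝ => y ^ 2) (2 * y) y := by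
      have := hasDerivAt_pow 2 y
      simpa using this
    have e5 : y = 0 := by
      have := e4.unique e2
      linarith
    subst e5
    have e6 : zC =ᶠ[𝓝 0] fun y : ℝ => -((y : ℝ) : ℂ) := by
      filter_upwards [Iio_mem_nhds (show (0 : ℝ) < 1 / 12 by norm_num)] with x hx
      show ((-x : ℝ) : ℂ) * ex (-(g1 x / 2)) = _
      rw [g1_lo (le_of_lt hx), zero_div, neg_zero, RSG.ex_zero, mul_one, Complex.ofReal_neg]
    have e7 : HasDerivAt (fun y : ℝ => -((y : ℝ) : ℂ)) (-1) 0 := by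
      have := (hasDerivAt_id (0 : ℝ)).ofReal_comp.neg
      rw [Complex.ofReal_one] at this
      exact this
    have e8 := (hd1.congr_of_eventuallyEq e6.symm).unique e7
    have e9 : (1 : ℂ) = 0 := by
      rw [← neg_neg (1 : ℂ), ← e8, neg_zero]
    exact one_ne_zero e9
  · have h1' : 0 < 1 - s := by linarith
    rcases le_or_gt |y| (1 / 4) with h2 | h2
    · have a1 : HasDerivAt (yA Y₀) (deriv (YA Y₀) (y / 2) * (1 / 2)) y := by
        have b1 : HasDerivAt (YA Y₀) (deriv (YA Y₀) (y / 2)) (y / 2) :=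
          ((YA_smooth Y₀).differentiable (by simp) _).hasDerivAt
        have b2 : HasDerivAt (fun y : ℝ => y / 2) (1 / 2) y := (hasDerivAt_id y).div_const 2
        exact b1.comp y b2
      have a2 : HasDerivAt (yC Y₀) ((1 - 2 * Y₀) * deriv g1 y) y := by
        have b1 : HasDerivAt g1 (deriv g1 y) y := (g1_smooth.differentiable (by simp) _).hasDerivAt
        exact (b1.const_mul (1 - 2 * Y₀)).const_add Y₀
      have a3 : HasDerivAt (fun y => (kk Y₀ s y).2)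
          ((1 - s) * (deriv (YA Y₀) (y / 2) * (1 / 2)) + s * ((1 - 2 * Y₀) * deriv g1 y)) y :=
        (a1.const_mul (1 - s)).add (a2.const_mul s)
      have a4 := a3.unique hd2
      have a5 : 0 < deriv (YA Y₀) (y / 2) := by
        refine YA_deriv h ?_
        rw [abs_div, abs_of_pos (show (0 : ℝ) < 2 by norm_num)]
        linarith
      have a6 : 0 < (1 - s) * (deriv (YA Y₀) (y / 2) * (1 / 2)) := by positivity
      have a7 : 0 ≤ s * ((1 - 2 * Y₀) * deriv g1 y) :=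
        mul_nonneg hs.1 (mul_nonneg (by linarith) (g1_deriv y))
      linarith
    · rcases le_total 0 y with h3 | h3
      · rw [abs_of_nonneg h3] at h2 hy
        have e6 : (fun y => (kk Y₀ s y).1) =ᶠ[𝓝 y] fun y : ℝ => ((y : ℝ) : ℂ) := by
          filter_upwards [Ioo_mem_nhds (show (1 / 6 : ℝ) < y by linarith) (show y < 5 / 6 by linarith)]
            with x hx
          have hx0 : 0 ≤ x := by linarith [hx.1]
          rw [Kkf_out Y₀ s (by rw [abs_of_nonneg hx0]; exact hx.1.le)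
            (by rw [abs_of_nonneg hx0]; exact hx.2.le), abs_of_nonneg hx0]
        have e7 : HasDerivAt (fun y : ℝ => ((y : ℝ) : ℂ)) 1 y := by
          have := (hasDerivAt_id y).ofReal_comp
          simpa using this
        have e8 := (hd1.congr_of_eventuallyEq e6.symm).unique e7
        exact one_ne_zero e8.symm
      · rw [abs_of_nonpos h3] at h2 hy
        have e6 : (fun y => (kk Y₀ s y).1) =ᶠ[𝓝 y] fun y : ℝ => -((y : ℝ) : ℂ) := by
          filter_upwards [Ioo_mem_nhds (show (-(5 / 6) : ℝ) < y by linarith) (show y < -(1 / 6) by linarith)]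
            with x hx
          have hx0 : x ≤ 0 := by linarith [hx.2]
          rw [Kkf_out Y₀ s (by rw [abs_of_nonpos hx0]; linarith [hx.2])
            (by rw [abs_of_nonpos hx0]; linarith [hx.1]), abs_of_nonpos hx0, Complex.ofReal_neg]
        have e7 : HasDerivAt (fun y : ℝ => -((y : ℝ) : ℂ)) (-1) y := by
          have := (hasDerivAt_id y).ofReal_comp.neg
          rw [Complex.ofReal_one] at this
          exact this
        have e8 := (hd1.congr_of_eventuallyEq e6.symm).unique e7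
        have e9 : (1 : ℂ) = 0 := by
          rw [← neg_neg (1 : ℂ), ← e8, neg_zero]
        exact one_ne_zero e9

theorem Kkf_YA_mono {Y₀ : ℝ} (h : Y₀ < 1 / 2) : MonotoneOn (YA Y₀) (Icc (-(1 / 4)) (1 / 4)) := by
  refine monotoneOn_of_deriv_nonneg (convex_Icc _ _) (YA_smooth Y₀).continuous.continuousOn
    ((YA_smooth Y₀).differentiable (by simp)).differentiableOn fun x hx => ?_
  rw [interior_Icc] at hx
  exact YA_up h (abs_le.2 ⟨hx.1.le, hx.2.le⟩)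

theorem Kkf_YA_strict {Y₀ : ℝ} (h : Y₀ < 1 / 2) : StrictMonoOn (YA Y₀) (Icc (-(1 / 8)) (1 / 8)) := by
  refine strictMonoOn_of_deriv_pos (convex_Icc _ _) (YA_smooth Y₀).continuous.continuousOn fun x hx => ?_
  rw [interior_Icc] at hx
  exact YA_deriv h (abs_le.2 ⟨hx.1.le, hx.2.le⟩)

theorem Kkf_lt {Y₀ : ℝ} (h : Y₀ < 1 / 2) {s : ℝ} (hs : s ∈ Icc (0 : ℝ) 1) {y y' : ℝ} (hy : |y| ≤ 1 / 3)
    (hy' : |y'| ≤ 1 / 3) (hlt : y < y') : kk Y₀ s y ≠ kk Y₀ s y' := by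
  intro he
  rcases eq_or_lt_of_le hs.2 with h1 | h1
  · subst h1
    rw [Kkf_s1, Kkf_s1] at he
    have he1 : zC y = zC y' := congrArg Prod.fst he
    have he2 : yC Y₀ y = yC Y₀ y' := congrArg Prod.snd he
    have e1 : |y| = |y'| := by rw [← Kkf_zC_norm, he1, Kkf_zC_norm]
    have e2 : y = -y' := by
      rcases abs_eq_abs.1 e1 with e | e
      · exact absurd e hlt.ne
      · exact e
    have e3 : 0 < y' := by linarith
    have e4 : zC y = (y' : ℂ) := by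
      unfold zC
      rw [g1_lo (show y ≤ 1 / 12 by linarith), zero_div, neg_zero, RSG.ex_zero, mul_one, e2, neg_neg]
    have e5 : (y' : ℂ) = ((-y' : ℝ) : ℂ) * ex (-(g1 y' / 2)) := e4.symm.trans he1
    have e6 : ex (-(g1 y' / 2)) = ex (1 / 2) := by
      rw [RSG.ex_half]
      have hne : (y' : ℂ) ≠ 0 := by exact_mod_cast e3.ne'
      have e7 : (y' : ℂ) * (ex (-(g1 y' / 2)) + 1) = 0 := by
        rw [Complex.ofReal_neg] at e5
        linear_combination e5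
      rcases mul_eq_zero.1 e7 with e | e
      · exact absurd e hne
      · exact eq_neg_of_add_eq_zero_left e
    obtain ⟨m, hm⟩ := RSG.ex_eq_iff.1 e6
    have g0 := g1_nonneg y'
    have g2 := g1_le y'
    have hm1 : (0 : ℝ) < m := by linarith
    have hm2 : (m : ℝ) ≤ 1 := by linarith
    have hm3 : (0 : ℤ) < m := by exact_mod_cast hm1
    have hm4 : m ≤ 1 := by exact_mod_cast hm2
    have hm5 : m = 1 := by omega
    rw [hm5] at hm
    have e8 : g1 y' = 1 := by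
      push_cast at hm
      linarith
    unfold yC at he2
    rw [e8, g1_lo (show y ≤ 1 / 12 by linarith)] at he2
    linarith
  · have h1' : 0 < 1 - s := by linarith
    have he1 : (kk Y₀ s y).1 = (kk Y₀ s y').1 := congrArg Prod.fst he
    have he2 : (1 - s) * YA Y₀ (y / 2) + s * (Y₀ + (1 - 2 * Y₀) * g1 y) =
      (1 - s) * YA Y₀ (y' / 2) + s * (Y₀ + (1 - 2 * Y₀) * g1 y') := congrArg Prod.snd he
    rw [abs_le] at hy hy'
    have m1 : YA Y₀ (y / 2) ≤ YA Y₀ (y' / 2) := Kkf_YA_mono h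
      ⟨by linarith [hy.1], by linarith [hy.2]⟩ ⟨by linarith [hy'.1], by linarith [hy'.2]⟩ (by linarith)
    have m2 : g1 y ≤ g1 y' := g1_mono hlt.le
    have m3 : (1 - 2 * Y₀) * g1 y ≤ (1 - 2 * Y₀) * g1 y' := mul_le_mul_of_nonneg_left m2 (by linarith)
    have m4 : s * ((1 - 2 * Y₀) * g1 y) ≤ s * ((1 - 2 * Y₀) * g1 y') := mul_le_mul_of_nonneg_left m3 hs.1
    have m5 : YA Y₀ (y' / 2) ≤ YA Y₀ (y / 2) := by
      have : (1 - s) * YA Y₀ (y' / 2) ≤ (1 - s) * YA Y₀ (y / 2) := by nlinarith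
      exact le_of_mul_le_mul_left this h1'
    have m6 : y' ≤ -(1 / 4) ∨ 1 / 4 ≤ y := by
      by_contra hc
      push Not at hc
      obtain ⟨hc1, hc2⟩ := hc
      obtain ⟨u, hu⟩ : ∃ u, u = max y (-(1 / 4)) := ⟨_, rfl⟩
      obtain ⟨v, hv⟩ : ∃ v, v = min y' (1 / 4) := ⟨_, rfl⟩
      have u1 : y ≤ u := hu ▸ le_max_left _ _
      have u2 : -(1 / 4) ≤ u := hu ▸ le_max_right _ _
      have v1 : v ≤ y' := hv ▸ min_le_left _ _
      have v2 : v ≤ 1 / 4 := hv ▸ min_le_right _ _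
      have uv : u < v := by
        rw [hu, hv]
        refine max_lt (lt_min hlt hc2) (lt_min hc1 (by norm_num))
      have n1 : YA Y₀ (y / 2) ≤ YA Y₀ (u / 2) := Kkf_YA_mono h
        ⟨by linarith [hy.1], by linarith [hy.2]⟩ ⟨by linarith, by linarith⟩ (by linarith)
      have n2 : YA Y₀ (u / 2) < YA Y₀ (v / 2) := Kkf_YA_strict h
        ⟨by linarith, by linarith⟩ ⟨by linarith, by linarith⟩ (by linarith)
      have n3 : YA Y₀ (v / 2) ≤ YA Y₀ (y' / 2) := Kkf_YA_mono h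
        ⟨by linarith, by linarith⟩ ⟨by linarith [hy'.1], by linarith [hy'.2]⟩ (by linarith)
      linarith
    rcases m6 with m6 | m6
    · have k1 : |y| = -y := abs_of_nonpos (by linarith)
      have k2 : |y'| = -y' := abs_of_nonpos (by linarith)
      rw [kk_out Y₀ s (by rw [k1]; linarith) (by rw [k1]; linarith [hy.1]),
        kk_out Y₀ s (by rw [k2]; linarith) (by rw [k2]; linarith [hy'.1]), k1, k2] at he1
      have := Complex.ofReal_injective he1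
      linarith
    · have k1 : |y| = y := abs_of_nonneg (by linarith)
      have k2 : |y'| = y' := abs_of_nonneg (by linarith)
      rw [kk_out Y₀ s (by rw [k1]; linarith) (by rw [k1]; linarith [hy.2]),
        kk_out Y₀ s (by rw [k2]; linarith) (by rw [k2]; linarith [hy'.2]), k1, k2] at he1
      have := Complex.ofReal_injective he1
      linarith

theorem kk_inj {Y₀ : ℝ} (h : Y₀ < 1 / 2) {s : ℝ} (hs : s ∈ Icc (0 : ℝ) 1) {y y' : ℝ} (hy : |y| ≤ 1 / 3)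
    (hy' : |y'| ≤ 1 / 3) (he : kk Y₀ s y = kk Y₀ s y') : y = y' := by
  by_contra hne
  rcases lt_or_gt_of_ne hne with h1 | h1
  · exact Kkf_lt h hs hy hy' h1 he
  · exact Kkf_lt h hs hy' hy h1 he.symm

end Pool.Agent.CPI
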