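import Pool.Agent.CPI.PVa
import Pool.Agent.CPI.GEl
import Pool.Agent.CPI.Fch
import Pool.Agent.CPI.Kkf

/-!
# CPI/IdA: identification in the first solid torus   (difficulty 2)

`id1`, `|l| ≤ 1/6`: the point `sx (ζ, Y)`, `(ζ, Y) = kk Y₀ 1 (2 l) = (zC (2 l), yC (2 l))` (unfold: the factor `1 - s` is `0`), `|ζ| ≤ 1/3` (`kk_norm`), so its height is `> 0` (`≠ 0`): `FF = E1t` (`FF_E1`), `E1t P = E1 P.v P.m`.
* `l ≥ 0`: `kc_pos`, `pv_a` (`ρ = 2 l ≤ 1/3`).  `zC (2l) = -(2l) ex (-(g1/2)) = (TCgR (2 l)) ex ((1 - g1)/2)` (`R_small`; `ex (1/2 - g1/2) = ex (1/2) ex (-(g1/2))`, `RSG.ex_half`), `thA l = stp (1/8) (3/8) l = stp (1/4) (3/4) (2 l)` (`thA_eq`, unfold `stp`),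
  `E1_gE` with `u = (1 - g1)/2`.
* `l < 0`: `kc_neg`, `pv_d` (`ρ = -2 l ≤ 1/3`); `g1 (2 l) = 0` (`g1_lo`), `zC (2 l) = -(2 l) ex 0 = TCgR (-2 l) ex 0`, `yC = Y₀`, `thA l = 0` (`thA_lo`): `E1_gE` with `u = 0`.
`id3a`, `1/6 ≤ l ≤ 1/4`: `KA F Y₀ l = F (wx (YA Y₀ l) (phA l), thA l)`, `YA = 1 - Y₀` (`YA_hi`), `rA l = 2 l` (`rA_lin`), `wx Y (phA l) = sx (TCgR (2 l), Y)` (`wx_sx`, `phA` unfolded), height `≥ 0` (`|ζ| = TCgR (2 l) ≤ 1`: `R_lt`, `R_half`), nonzero (`rr = e^Y`): `FF = E1t`, `E1_gE` with `u = 0`, `ρ =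
2 l`; left hand side: `kc_pos`, `pv_a` with `g1 (2 l) = 1` (`g1_hi`).
`id4a`, `3/4 ≤ l ≤ 5/6`: `l = l' + 1`, `-1/4 ≤ l' ≤ -1/6`: `kc_per`, `kc_neg`, `pv_d` (`ρ = -2 l'`); `KA` at `l`: `YA_per`, `YA_lo`, `phA_per` (`phA` unfolded, `rA_per`), `rA l' = -2 l'` (`rA_lin'`), `thA l = thA l' + 1 = 1` (`thA_per`, `thA_lo`): `E1_gE` gives `gE ρ (M1 (pt 1 0 Y₀)) = gE ρ (M1 (pt 0 0 Y₀) + rv v)` (`GLB.gE_int`).
-/

open scoped Manifold ContDiff Topology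
open Set Filter
open Complex (I normSq)

namespace Pool.Agent.CPI

open Pool.Agent.CSG (E3 pt act vec stp)
open Pool.Agent.CHO (Pm sg)

variable {P : Pm} {Y₀ : ℝ} {c : ℝ → E3}

theorem IdA_ne (q : ℂ × ℝ) : sx q ≠ 0 := by
  intro h
  have h1 := rr_sx q
  rw [h] at h1
  have h2 : CHW.rr (0 : CHW.F3) = 0 := by
    unfold CHW.rr CHW.q2
    simp
  rw [h2] at h1
  exact (Real.exp_pos q.2).ne h1

theorem IdA_FF (hP : P.Ok) {q : ℂ × ℝ} (h : ‖q.1‖ ≤ 1) (τ : ℝ) :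
    FF P (sx q, τ) = CHO.E1 P.v P.m (sx q, τ) := by
  refine FF_E1 hP ?_ (IdA_ne q) τ
  show 0 ≤ Real.exp q.2 * (1 - normSq q.1) / (1 + normSq q.1)
  have h1 := Complex.normSq_nonneg q.1
  have h2 : normSq q.1 ≤ 1 := by
    rw [Complex.normSq_eq_norm_sq]
    nlinarith [norm_nonneg q.1]
  have h3 : 0 ≤ 1 - normSq q.1 := by linarith
  positivity

theorem IdA_th {l : ℝ} (h : -(5 / 8) ≤ l) (h' : l ≤ 9 / 8) : thA l = stp (1 / 4) (3 / 4) (2 * l) := by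
  rw [thA_eq h h']
  unfold stp
  congr 1
  ring

theorem IdA_wx (Y l : ℝ) : wx Y (phA l) = sx (((GLB.TCgR (rA l) : ℝ) : ℂ), Y) := by
  unfold phA
  exact wx_sx Y _

theorem IdA_zC {y : ℝ} (h : y ≤ 1 / 12) : zC y = ((-y : ℝ) : ℂ) := by
  unfold zC
  rw [g1_lo h, zero_div, neg_zero, RSG.ex_zero, mul_one]

theorem IdA_yC {y : ℝ} (h : y ≤ 1 / 12) (Y₀ : ℝ) : yC Y₀ y = Y₀ := by
  unfold yC
  rw [g1_lo h, mul_zero, add_zero]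

theorem IdA_zC2 {y : ℝ} (h : y ≤ 1 / 3) :
    zC y = ((GLB.TCgR y : ℝ) : ℂ) * RSG.ex ((1 - g1 y) / 2) := by
  unfold zC
  rw [R_small h, show (1 - g1 y) / 2 = 1 / 2 + -(g1 y / 2) by ring, RSG.ex_add, RSG.ex_half]
  push_cast
  ring

theorem IdA_norm (Y₀ : ℝ) {y : ℝ} (h : |y| ≤ 1 / 3) : ‖zC y‖ ≤ 1 / 3 := by
  have h1 := kk_norm Y₀ (s := 1) ⟨zero_le_one, le_rfl⟩ h
  rwa [Kkf_s1] at h1

theorem IdA_E1 (v m : ℤ × ℤ × ℤ) {ρ : ℝ} (h0 : 0 ≤ ρ) (h1 : ρ < 1) (τ Y : ℝ) :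
    CHO.E1 v m (sx (((GLB.TCgR ρ : ℝ) : ℂ), Y), τ) = PTH.gE ρ (M1 v m (pt τ 0 Y)) := by
  rw [← E1_gE v m h0 h1 τ 0 Y, RSG.ex_zero, mul_one]

theorem id1 (hP : P.Ok) (h1 : Y₀ < 1 / 2) (hc : CFn P.C P.x₁ Y₀ c) {l : ℝ} (hl : |l| ≤ 1 / 6) :
    KC P.v P.m P.m' c l = FF P (ms 1 (sx (kk Y₀ 1 (2 * l))), thA l) := by
  obtain ⟨hl1, hl2⟩ := abs_le.1 hl
  have hn : ‖zC (2 * l)‖ ≤ 1 / 3 := IdA_norm Y₀ (by rw [abs_le]; constructor <;> linarith)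
  rw [ms_one, Kkf_s1, IdA_FF hP (by show ‖zC (2 * l)‖ ≤ 1; linarith)]
  rcases le_or_gt 0 l with h0 | h0
  · rw [kc_pos P.v P.m P.m' c h0 (by linarith),
      pv_a hP.x₁_pos hP.x₁_lt hc (by linarith) (by linarith),
      ← E1_gE P.v P.m (by linarith) (by linarith), ← IdA_zC2 (by linarith),
      IdA_th (by linarith) (by linarith)]
    rfl
  · rw [kc_neg P.v P.m P.m' c (by linarith) h0, pv_d hP.x₁_pos hc (by linarith) (by linarith),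
      ← IdA_E1 P.v P.m (by linarith) (by linarith), R_small (by linarith), IdA_zC (by linarith),
      IdA_yC (by linarith), thA_lo (by linarith) (by linarith), show -(2 * l) = -2 * l by ring]

theorem IdA_R {ρ : ℝ} (h0 : 0 < ρ) (h1 : ρ ≤ 1 / 2) : ‖((GLB.TCgR ρ : ℝ) : ℂ)‖ ≤ 1 := by
  rw [Complex.norm_real, Real.norm_eq_abs, abs_of_pos (R_pos h0 (by linarith))]
  rcases h1.eq_or_lt with h | h
  · rw [h, R_half]
  · exact (R_lt h0 h).le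

theorem id3a (hP : P.Ok) (h1 : Y₀ < 1 / 2) (hc : CFn P.C P.x₁ Y₀ c) {l : ℝ} (hl : 1 / 6 ≤ l) (hl' : l ≤ 1 / 4) :
    KC P.v P.m P.m' c l = FF P (wx (YA Y₀ l) (phA l), thA l) := by
  rw [YA_hi Y₀ (by linarith) (by linarith), IdA_wx, rA_lin (by linarith) (by linarith),
    IdA_FF hP (IdA_R (by linarith) (by linarith)), IdA_E1 P.v P.m (by linarith) (by linarith),
    kc_pos P.v P.m P.m' c (by linarith) (by linarith),
    pv_a hP.x₁_pos hP.x₁_lt hc (by linarith) (by linarith), g1_hi (by linarith),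
    IdA_th (by linarith) (by linarith)]
  congr 3
  · ring
  · ring

theorem id4a (hP : P.Ok) (h1 : Y₀ < 1 / 2) (hc : CFn P.C P.x₁ Y₀ c) {l : ℝ} (hl : 3 / 4 ≤ l) (hl' : l ≤ 5 / 6) :
    KC P.v P.m P.m' c l = FF P (wx (YA Y₀ l) (phA l), thA l) := by
  obtain ⟨k, rfl⟩ : ∃ k, l = k + 1 := ⟨l - 1, by ring⟩
  rw [kc_per, YA_per, KAw_per, thA_per, thA_lo (by linarith) (by linarith), zero_add,
    YA_lo Y₀ (by linarith) (by linarith), IdA_wx, rA_lin' (by linarith) (by linarith),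
    IdA_FF hP (IdA_R (by linarith) (by linarith)), IdA_E1 P.v P.m (by linarith) (by linarith),
    kc_neg P.v P.m P.m' c (by linarith) (by linarith),
    pv_d hP.x₁_pos hc (by linarith) (by linarith), M1_pt, M1_pt, show -(2 * k) = -2 * k by ring]
  rw [← GLB.gE_int (-2 * k) _ P.v]
  congr 1
  module

end Pool.Agent.CPI
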