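import Pool.Agent.CPI.PVa
import Pool.Agent.CPI.GEl
import Pool.Agent.CPI.Fch
import Pool.Agent.CPI.Kkf

/-!
# CPI/IdB: identification in the middle of the second solid torus   (difficulty 2)

`id2`, `|l - 1/2| ≤ 1/6`: `y = 1 - 2 l`, `|y| ≤ 1/3`, `x = ms (-1) (sx (kk Y₀ 1 y)) = mir (sx (zC y, yC Y₀ y))`, `|zC y| ≤ 1/3` (`kk_norm`), so `x.2 < 0`, `FF = E2t (mir x)` (`FF_E2`, `mir_mir`), `mir x = sx (zC y, yC)`; `cX (sx (ζ, Y)) = (1 - |ζ|²)/(1 + |ζ|²) ≥ 4/5 ≥ 2 x₁`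
(`rr_sx`; `P.Ok.x₁_lt`), `Dm` clear, so `E2t = E2` (`E2t_far`).
* `l < 1/2` (`l ≥ 1/3`), `ρ = 2 l ∈ [2/3, 1)`: `kc_pos`, `pv_c` (and `GLB.gE_int` for the integer vector `rv m - rv m'`).  `1 - ρ = y > 0`; `G3 ρ = 1 - g1 y`; `zC y = -y ex (-(g1 y / 2)) = y ex (1/2 - g1 y/2) = TCgR (1 - ρ) ex (G3 ρ / 2)` (`R_small`,
  `1 - ρ ≤ 1/3`), `yC Y₀ y = Y₀ + (1 - 2 Y₀) (1 - G3 ρ)`, `thA l = stp (1/4) (3/4) ρ`: `E2_gE` with `u = G3 ρ / 2`.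
* `l ≥ 1/2` (`l ≤ 2/3`), `ρ = 2 - 2 l ∈ [2/3, 1]`: `kc_half`, `pv_e`.  `y = 1 - 2 l ≤ 0`: `g1 y = 0`, `zC y = -y ex 0 = TCgR (1 - ρ) ex 0` (`1 - ρ = 2 l - 1 = -y`), `yC = Y₀`, `thA l = 1` (`thA_hi`): `E2_gE` with `u = 0`, `τ = 1`, and `M2 (pt 1 0 Y₀) = M2 (pt 0 0 Y₀) + rv v` (`M2_pt`,
  `GLB.gE_int`).
-/

open scoped Manifold ContDiff Topology
open Set Filter
open Complex (I normSq)

namespace Pool.Agent.CPI

open Pool.Agent.CSG (E3 pt act vec stp)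
open Pool.Agent.CHO (Pm sg)

variable {P : Pm} {Y₀ : ℝ} {c : ℝ → E3}

theorem IdB_pos {q : ℂ × ℝ} (h : ‖q.1‖ ≤ 1 / 3) : 0 < (sx q).2 := by
  show 0 < Real.exp q.2 * (1 - normSq q.1) / (1 + normSq q.1)
  have h1 := Complex.normSq_nonneg q.1
  have h2 : normSq q.1 ≤ 1 / 9 := by
    rw [Complex.normSq_eq_norm_sq]
    nlinarith [norm_nonneg q.1]
  have h3 : 0 < 1 - normSq q.1 := by linarith
  positivity

theorem IdB_cX {q : ℂ × ℝ} (h : ‖q.1‖ ≤ 1 / 3) : 4 / 5 ≤ CHO.cX (sx q) := by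
  unfold CHO.cX
  rw [rr_sx]
  show 4 / 5 ≤ Real.exp q.2 * (1 - normSq q.1) / (1 + normSq q.1) / Real.exp q.2
  have h1 := Complex.normSq_nonneg q.1
  have h2 : normSq q.1 ≤ 1 / 9 := by
    rw [Complex.normSq_eq_norm_sq]
    nlinarith [norm_nonneg q.1]
  have h3 := Real.exp_pos q.2
  have h4 : Real.exp q.2 * (1 - normSq q.1) / (1 + normSq q.1) / Real.exp q.2 =
      (1 - normSq q.1) / (1 + normSq q.1) := by
    field_simp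
  rw [h4, le_div_iff₀ (by linarith)]
  linarith

theorem IdB_FF (hP : P.Ok) {q : ℂ × ℝ} (h : ‖q.1‖ ≤ 1 / 3) (τ : ℝ) :
    FF P (ms (-1) (sx q), τ) = CHO.E2 P.v P.m' (sx q, τ) := by
  have h1 := IdB_pos h
  have h2 := IdB_cX h
  rw [ms_neg, FF_E2 hP (x := CHW.mir (sx q)) (by show -(sx q).2 < 0; linarith), mir_mir]
  refine E2t_far hP ?_ ?_ τ
  · show 0 < CHW.rr (sx q) + (sx q).2
    rw [rr_sx]
    have := Real.exp_pos q.2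
    linarith
  · have := hP.x₁_lt
    linarith

theorem IdB_th {l : ℝ} (h : -(5 / 8) ≤ l) (h' : l ≤ 9 / 8) : thA l = stp (1 / 4) (3 / 4) (2 * l) := by
  rw [thA_eq h h']
  unfold stp
  congr 1
  ring

theorem IdB_zC {y : ℝ} (h : y ≤ 1 / 12) : zC y = ((-y : ℝ) : ℂ) := by
  unfold zC
  rw [g1_lo h, zero_div, neg_zero, RSG.ex_zero, mul_one]

theorem IdB_yC {y : ℝ} (h : y ≤ 1 / 12) (Y₀ : ℝ) : yC Y₀ y = Y₀ := by
  unfold yC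
  rw [g1_lo h, mul_zero, add_zero]

theorem IdB_zC2 {y : ℝ} (h : y ≤ 1 / 3) :
    zC y = ((GLB.TCgR y : ℝ) : ℂ) * RSG.ex ((1 - g1 y) / 2) := by
  unfold zC
  rw [R_small h, show (1 - g1 y) / 2 = 1 / 2 + -(g1 y / 2) by ring, RSG.ex_add, RSG.ex_half]
  push_cast
  ring

theorem IdB_norm (Y₀ : ℝ) {y : ℝ} (h : |y| ≤ 1 / 3) : ‖zC y‖ ≤ 1 / 3 := by
  have h1 := kk_norm Y₀ (s := 1) ⟨zero_le_one, le_rfl⟩ h
  rwa [Kkf_s1] at h1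

theorem id2 (hP : P.Ok) (h1 : Y₀ < 1 / 2) (hc : CFn P.C P.x₁ Y₀ c) {l : ℝ} (hl : |l - 1 / 2| ≤ 1 / 6) :
    KC P.v P.m P.m' c l = FF P (ms (-1) (sx (kk Y₀ 1 (1 - 2 * l))), thA l) := by
  obtain ⟨hl1, hl2⟩ := abs_le.1 hl
  have hn : ‖zC (1 - 2 * l)‖ ≤ 1 / 3 := IdB_norm Y₀ (by rw [abs_le]; constructor <;> linarith)
  rw [Kkf_s1, IdB_FF hP hn]
  rcases lt_or_ge l (1 / 2) with h0 | h0
  · have e1 : ∀ x : ℝ × ℝ × ℝ, PTH.gE (2 * l) (x + (GLB.rv P.m - GLB.rv P.m')) = PTH.gE (2 * l) x := by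
      intro x
      rw [← GLB.gE_int (2 * l) (x + (GLB.rv P.m - GLB.rv P.m')) P.m', ← GLB.gE_int (2 * l) x P.m]
      congr 1
      module
    have e2 : zC (1 - 2 * l) = ((GLB.TCgR (1 - 2 * l) : ℝ) : ℂ) * RSG.ex (G3 (2 * l) / 2) :=
      IdB_zC2 (by linarith)
    have e3 : yC Y₀ (1 - 2 * l) = Y₀ + (1 - 2 * Y₀) * (1 - G3 (2 * l)) := by
      unfold yC G3
      ring
    rw [kc_pos P.v P.m P.m' c (by linarith) h0,
      pv_c hP.alg hP.x₁_pos hP.x₁_lt hc (by linarith) (by linarith), e1, e2, e3,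
      E2_gE P.v P.m' (by linarith) (by linarith), IdB_th (by linarith) (by linarith)]
  · rw [kc_half P.v P.m P.m' c h0 (by linarith),
      pv_e hP.alg hP.x₁_lt hc (by linarith) (by linarith), IdB_zC (by linarith),
      IdB_yC (by linarith), thA_hi (by linarith) (by linarith)]
    have e1 := E2_gE P.v P.m' (ρ := 2 - 2 * l) (by linarith) (by linarith) 1 0 Y₀
    rw [RSG.ex_zero, mul_one, R_small (by linarith), show 1 - (2 - 2 * l) = -(1 - 2 * l) by ring] at e1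
    rw [e1, M2_pt, M2_pt, ← GLB.gE_int (2 - 2 * l) _ P.v]
    congr 1
    module

end Pool.Agent.CPI
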