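import Pool.Agent.CPI.PVa
import Pool.Agent.CPI.GEl
import Pool.Agent.CPI.Fch

/-!
# CPI/IdC: identification in the collar of the second solid torus   (difficulty 3)

`c = cK P.C P.κ P.k (sg P.x₁) (sg P.x₁) Y₀`, so `c ξ = act C (κ (sg ξ) (eR ξ))`.
`id3b`, `1/4 < l ≤ 1/3`: `ρ = 2 l ∈ (1/2, 2/3]`, `rA l = ρ` (`rA_lin`), `YA Y₀ l = 1 - Y₀` (`YA_hi`).  The point `x = wx (1 - Y₀) (phA l)` has height `< 0` (`(wallA ..).dn`: `-π/2 ≤ phA l < 0`; or `mir_wx` and `xr ρ > 0`), `FF = E2t (mir x)` (`FF_E2`), `mir x = cyl (0, 1 - Y₀, xr ρ)` (`mir_wx`), so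
`(mir x, τ) = cE (pt τ 0 (1 - Y₀)) (xr ρ)` (definition of `cE`), `τ = thA l = stp (1/4) (3/4) ρ`; `E2t_cE` (`xr_abs`), `Gam_right`: `Gam = -z + pt τ 0 1`, `z = κ (sg ξ) (eR ξ)`, `ξ = xr ρ`; `E2 (cE x' ξ)` with `cE x' ξ = (cyl (x' 1, x' 2, ξ), x' 0)`, `cyl_xr`, `E2_gE` (`ρ ∈ (0, 1)`): `= gE ρ (M2 v m' x')`, as
`x' = pt (x' 0) (x' 1) (x' 2)`.  `M2 (-z + pt τ 0 1) = -M2 z + τ v + m'` (`M2_add`, `M2_neg`, `M2_pt`), `M2 z = M1 (act C z) = M1 (c ξ)` (`M1_act`).  Left hand side: `kc_pos`, `pv_b`: `gE ρ (τ v + m - M1 (c ξ))`; the difference `m - m'` is an integer vector (`GLB.gE_int`).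
`id4b`, `2/3 ≤ l < 3/4`: `ρ = 2 - 2 l ∈ (1/2, 2/3]`; `rA l = ρ`: `rA (l - 1) = -2 (l - 1)` (`rA_per`, `rA_lin'`, `l - 1 ∈ [-1/3, -1/4)`), `YA = Y₀` (`YA_per`, `YA_lo`), `thA l = 1`.  As before with `Gam_left`: `Gam = z + pt 1 0 0`, `M2 = M2 z + rv v = M1 (c ξ) + rv v`.  Left hand side: `kc_half`.
-/

open scoped Manifold ContDiff Topology
open Set Filter
open Complex (I normSq)

namespace Pool.Agent.CPI

open Pool.Agent.CSG (E3 pt act vec stp)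
open Pool.Agent.CHO (Pm sg)

variable {P : Pm} {Y₀ : ℝ}

theorem IdC_neg (Y : ℝ) {l : ℝ} (h1 : 1 / 4 < l) (h2 : l < 3 / 4) : (wx Y (phA l)).2 < 0 := by
  have h3 := KAw_neg h1 h2
  have h4 : -Real.pi < phA l := by
    unfold phA
    have := Real.arctan_lt_pi_div_two (GLB.TCgR (rA l))
    have := Real.pi_pos
    linarith
  have h5 := Real.sin_neg_of_neg_of_neg_pi_lt h3 h4
  exact mul_neg_of_pos_of_neg (Real.exp_pos Y) h5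

theorem IdC_E2 (v m : ℤ × ℤ × ℤ) {ρ : ℝ} (h0 : 0 < ρ) (h1 : ρ < 1) (x : E3) :
    CHO.E2 v m (CHO.cE x (xr ρ)) = PTH.gE ρ (M2 v m x) := by
  have e1 : CHO.cE x (xr ρ) = (CHW.cyl (x 1, x 2, xr ρ), x 0) := rfl
  rw [e1, cyl_xr h0 h1, E2_gE v m h0 h1.le, M2_pt]
  rfl

theorem IdC_FF (hP : P.Ok) {l ρ : ℝ} (hl : 1 / 4 < l) (hl' : l < 3 / 4) (hρ : rA l = ρ) (Y τ : ℝ) :
    FF P (wx Y (phA l), τ) = PTH.gE ρ (M2 P.v P.m' (CHO.Gam P (xr ρ) (pt τ 0 Y))) := by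
  have h0 : 0 < ρ := by
    rw [← hρ]
    exact rA_pos l
  have h1 : ρ < 1 := by
    rw [← hρ]
    exact rA_lt l
  have e1 : ((CHW.cyl (0, Y, xr ρ), τ) : CHW.F3 × ℝ) = CHO.cE (pt τ 0 Y) (xr ρ) := by
    have a0 : (pt τ 0 Y) 0 = τ := by simp [pt]
    have a1 : (pt τ 0 Y) 1 = 0 := by simp [pt]
    have a2 : (pt τ 0 Y) 2 = Y := by simp [pt]
    unfold CHO.cE
    rw [a0, a1, a2]
  rw [FF_E2 hP (IdC_neg Y hl hl'), mir_wx, hρ, e1, E2t_cE hP (xr_abs h0 h1), IdC_E2 P.v P.m' h0 h1]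

theorem IdC_th {l : ℝ} (h : -(5 / 8) ≤ l) (h' : l ≤ 9 / 8) : thA l = stp (1 / 4) (3 / 4) (2 * l) := by
  rw [thA_eq h h']
  unfold stp
  congr 1
  ring

theorem id3b (hP : P.Ok) (h0 : 0 < Y₀) (h1 : Y₀ < 1 / 2) (h2 : Y₀ < 2 * P.d₀)
    (hc : CFn P.C P.x₁ Y₀ (cK P.C P.κ P.k (sg P.x₁) (sg P.x₁) Y₀)) {l : ℝ} (hl : 1 / 4 < l) (hl' : l ≤ 1 / 3) :
    KC P.v P.m P.m' (cK P.C P.κ P.k (sg P.x₁) (sg P.x₁) Y₀) l = FF P (wx (YA Y₀ l) (phA l), thA l) := by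
  rw [YA_hi Y₀ (by linarith) (by linarith),
    IdC_FF hP hl (by linarith) (rA_lin (by linarith) (by linarith)), Gam_right hP h0 h2 h1,
    kc_pos P.v P.m P.m' _ (by linarith) (by linarith),
    pv_b hP.x₁_pos hP.x₁_lt hc (by linarith) (by linarith), M2_add, M2_neg, M2_pt, ← M1_act hP.alg,
    IdC_th (by linarith) (by linarith)]
  change PTH.gE (2 * l) (_ - M1 P.v P.m (cK P.C P.κ P.k (sg P.x₁) (sg P.x₁) Y₀ (xr (2 * l)))) =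
    PTH.gE (2 * l) (-M1 P.v P.m (cK P.C P.κ P.k (sg P.x₁) (sg P.x₁) Y₀ (xr (2 * l))) + _)
  rw [← GLB.gE_int (2 * l) _ P.m']
  conv_rhs => rw [← GLB.gE_int (2 * l) _ P.m]
  congr 1
  module

theorem id4b (hP : P.Ok) (h0 : 0 < Y₀) (h1 : Y₀ < 1 / 2) (h2 : Y₀ < 2 * P.d₀)
    (hc : CFn P.C P.x₁ Y₀ (cK P.C P.κ P.k (sg P.x₁) (sg P.x₁) Y₀)) {l : ℝ} (hl : 2 / 3 ≤ l) (hl' : l < 3 / 4) :
    KC P.v P.m P.m' (cK P.C P.κ P.k (sg P.x₁) (sg P.x₁) Y₀) l = FF P (wx (YA Y₀ l) (phA l), thA l) := by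
  have eY : YA Y₀ l = Y₀ := by
    have := YA_per Y₀ (l - 1)
    rw [sub_add_cancel] at this
    rw [this, YA_lo Y₀ (by linarith) (by linarith)]
  have er : rA l = 2 - 2 * l := by
    have := rA_per (l - 1)
    rw [sub_add_cancel] at this
    rw [this, rA_lin' (by linarith) (by linarith)]
    ring
  rw [eY, IdC_FF hP (by linarith) hl' er, Gam_left hP h0 h2 h1,
    kc_half P.v P.m P.m' _ (by linarith) (by linarith), M2_add, M2_pt, ← M1_act hP.alg,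
    thA_hi (by linarith) (by linarith)]
  change PTH.gE (2 - 2 * l) (M1 P.v P.m (cK P.C P.κ P.k (sg P.x₁) (sg P.x₁) Y₀ (xr (2 - 2 * l)))) =
    PTH.gE (2 - 2 * l) (M1 P.v P.m (cK P.C P.κ P.k (sg P.x₁) (sg P.x₁) Y₀ (xr (2 - 2 * l))) + _)
  rw [← GLB.gE_int (2 - 2 * l) _ P.v]
  congr 1
  module

end Pool.Agent.CPI
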