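import Pool.Agent.CPI.Defs

/-!
# CPI/KAr: the radial coordinate of the standard curve   (difficulty 2)

`qA x = x (1 - (S(20 x - 18) + S(-20 x - 18)) / 10)`, `S = Real.smoothTransition`; for `|x| ≤ 9/10` both steps vanish: `qA x = x`.  `qA` is odd and smooth.
For `|x| ≤ 1` at most one step is nonzero, `|qA x| ≤ |x|`, and `|qA x| < 1` (if `|x| = 1` the factor is `9/10`; if `|x| < 1` clear); `qA x > 0` for `x > 0`, and
`x (9/10) ≤ qA x` for `x ≥ 0`.
* `rA` is smooth (`Real.contDiffAt_arcsin` for `qA (cos ..) ≠ ± 1`), even, of period 1, `rA (1/2 - l) = 1 - rA l` (`cos (2π (1/2 - l)) =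
  - cos (2πl)`, `qA` odd, `Real.arcsin_neg`).
* `rA_pos, rA_lt`: `|arcsin q| < π/2` for `|q| < 1`.
* `rA_lin`: `1/12 ≤ l ≤ 5/12`: `|cos (2πl)| ≤ cos (π/6) = √3/2 ≤ 9/10`, `arcsin (cos (2πl)) = arcsin (sin (π/2 - 2πl)) = π/2 - 2πl`
  (`Real.arcsin_sin`, `Real.sin_pi_div_two_sub`).  `rA_lin'`: evenness.
* `rA_mid`: `|l| ≤ 1/12`: `cos (2πl) ≥ cos (π/6) = √3/2`, `qA ≥ 9/10 * √3/2 > 3/4 > 1/2 = sin (π/6)`, so `arcsin > π/6`, `rA < 1/3`.
* `rA_half`: for `|l| < 1/4`, `cos (2πl) > 0`, so `qA > 0`, `arcsin > 0`: `rA l < 1/2`; `rA (± 1/4) = 1/2` by `rA_lin`.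
-/

open scoped Manifold ContDiff Topology
open Set Filter

namespace Pool.Agent.CPI

theorem KAr_qA_smooth : ContDiff ℝ ∞ qA := by
  unfold qA
  have h1 : ContDiff ℝ ∞ (fun x : ℝ => Real.smoothTransition (20 * x - 18)) :=
    Real.smoothTransition.contDiff.comp (by fun_prop)
  have h2 : ContDiff ℝ ∞ (fun x : ℝ => Real.smoothTransition (-20 * x - 18)) :=
    Real.smoothTransition.contDiff.comp (by fun_prop)
  exact contDiff_id.mul (contDiff_const.sub ((h1.add h2).div_const 10))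

theorem KAr_qA_odd (x : ℝ) : qA (-x) = -qA x := by
  unfold qA
  have e1 : 20 * (-x) - 18 = -20 * x - 18 := by ring
  have e2 : -20 * (-x) - 18 = 20 * x - 18 := by ring
  rw [e1, e2]
  ring

theorem KAr_qA_id {x : ℝ} (h1 : -(9 / 10) ≤ x) (h2 : x ≤ 9 / 10) : qA x = x := by
  unfold qA
  rw [Real.smoothTransition.zero_of_nonpos (by linarith), Real.smoothTransition.zero_of_nonpos (by linarith)]
  ring

theorem KAr_qA_ge {x : ℝ} (h : 0 ≤ x) : 9 / 10 * x ≤ qA x := by
  unfold qA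
  rw [Real.smoothTransition.zero_of_nonpos (x := -20 * x - 18) (by linarith)]
  have := Real.smoothTransition.le_one (20 * x - 18)
  nlinarith

theorem KAr_qA_le {x : ℝ} (h : 0 ≤ x) : qA x ≤ x := by
  unfold qA
  rw [Real.smoothTransition.zero_of_nonpos (x := -20 * x - 18) (by linarith)]
  have := Real.smoothTransition.nonneg (20 * x - 18)
  nlinarith

theorem KAr_qA_lt' {x : ℝ} (h : 0 ≤ x) (h1 : x ≤ 1) : qA x < 1 := by
  rcases eq_or_lt_of_le h1 with h2 | h2
  · subst h2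
    unfold qA
    rw [Real.smoothTransition.zero_of_nonpos (x := -20 * 1 - 18) (by norm_num),
      Real.smoothTransition.one_of_one_le (by norm_num)]
    norm_num
  · exact lt_of_le_of_lt (KAr_qA_le h) h2

theorem KAr_qA_abs {x : ℝ} (h : |x| ≤ 1) : -1 < qA x ∧ qA x < 1 := by
  rcases le_total 0 x with h0 | h0
  · rw [abs_of_nonneg h0] at h
    have h1 := KAr_qA_lt' h0 h
    have h2 := KAr_qA_ge h0
    exact ⟨by linarith, h1⟩
  · rw [abs_of_nonpos h0] at h
    have h1 := KAr_qA_lt' (x := -x) (by linarith) h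
    have h2 := KAr_qA_ge (x := -x) (by linarith)
    rw [KAr_qA_odd] at h1 h2
    exact ⟨by linarith, by linarith⟩

theorem KAr_qc (l : ℝ) : -1 < qA (Real.cos (2 * Real.pi * l)) ∧ qA (Real.cos (2 * Real.pi * l)) < 1 :=
  KAr_qA_abs (Real.abs_cos_le_one _)

theorem rA_smooth : ContDiff ℝ ∞ rA := by
  rw [contDiff_iff_contDiffAt]
  intro l
  have h1 : ContDiffAt ℝ ∞ (fun l : ℝ => qA (Real.cos (2 * Real.pi * l))) l := by
    have h := KAr_qA_smooth.comp (Real.contDiff_cos.comp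
      ((contDiff_const (c := 2 * Real.pi)).mul (contDiff_id (𝕜 := ℝ) (E := ℝ))))
    exact h.contDiffAt
  have h2 : ContDiffAt ℝ ∞ Real.arcsin (qA (Real.cos (2 * Real.pi * l))) :=
    Real.contDiffAt_arcsin (by have := (KAr_qc l).1; exact ne_of_gt this) (by have := (KAr_qc l).2; exact ne_of_lt this)
  have h3 := ContDiffAt.comp (g := Real.arcsin) (f := fun l : ℝ => qA (Real.cos (2 * Real.pi * l))) l h2 h1
  have h4 := (contDiffAt_const (c := (1 / 2 : ℝ))).sub (h3.div_const Real.pi)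
  exact h4

theorem rA_per (l : ℝ) : rA (l + 1) = rA l := by
  unfold rA
  rw [show 2 * Real.pi * (l + 1) = 2 * Real.pi * l + 2 * Real.pi by ring, Real.cos_add_two_pi]

theorem rA_even (l : ℝ) : rA (-l) = rA l := by
  unfold rA
  rw [show 2 * Real.pi * (-l) = -(2 * Real.pi * l) by ring, Real.cos_neg]

theorem rA_refl (l : ℝ) : rA (1 / 2 - l) = 1 - rA l := by
  unfold rA
  rw [show 2 * Real.pi * (1 / 2 - l) = Real.pi - 2 * Real.pi * l by ring, Real.cos_pi_sub, KAr_qA_odd,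
    Real.arcsin_neg]
  ring

theorem rA_pos (l : ℝ) : 0 < rA l := by
  unfold rA
  have h : Real.arcsin (qA (Real.cos (2 * Real.pi * l))) < Real.pi / 2 :=
    Real.arcsin_lt_pi_div_two.2 (KAr_qc l).2
  have hp := Real.pi_pos
  have h2 : Real.arcsin (qA (Real.cos (2 * Real.pi * l))) / Real.pi < 1 / 2 := by
    rw [div_lt_iff₀ hp]
    linarith
  linarith

theorem rA_lt (l : ℝ) : rA l < 1 := by
  have h := rA_pos (1 / 2 - l)
  rw [rA_refl] at h
  linarith

theorem KAr_s3 : Real.sqrt 3 / 2 ≤ 9 / 10 := by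
  have : Real.sqrt 3 ≤ 9 / 5 := by
    rw [Real.sqrt_le_left (by norm_num)]
    norm_num
  linarith

theorem rA_lin {l : ℝ} (h1 : 1 / 12 ≤ l) (h2 : l ≤ 5 / 12) : rA l = 2 * l := by
  have hp := Real.pi_pos
  have c1 : Real.cos (2 * Real.pi * l) ≤ 9 / 10 := by
    refine le_trans ?_ KAr_s3
    rw [← Real.cos_pi_div_six]
    apply Real.cos_le_cos_of_nonneg_of_le_pi
    · positivity
    · nlinarith
    · nlinarith
  have c2 : -(9 / 10) ≤ Real.cos (2 * Real.pi * l) := by
    have : Real.cos (Real.pi - Real.pi / 6) ≤ Real.cos (2 * Real.pi * l) := by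
      apply Real.cos_le_cos_of_nonneg_of_le_pi
      · nlinarith
      · linarith
      · nlinarith
    rw [Real.cos_pi_sub, Real.cos_pi_div_six] at this
    have := KAr_s3
    linarith
  unfold rA
  rw [KAr_qA_id c2 c1, ← Real.sin_pi_div_two_sub, Real.arcsin_sin (by nlinarith) (by nlinarith)]
  field_simp
  ring

theorem rA_lin' {l : ℝ} (h1 : -(5 / 12) ≤ l) (h2 : l ≤ -(1 / 12)) : rA l = -(2 * l) := by
  rw [← rA_even, rA_lin (l := -l) (by linarith) (by linarith)]
  ring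

theorem rA_mid {l : ℝ} (h : |l| ≤ 1 / 12) : rA l < 1 / 3 := by
  have hp := Real.pi_pos
  have e : rA l = rA |l| := by
    rcases abs_choice l with h' | h'
    · rw [h']
    · rw [h', rA_even]
  rw [e]
  have h0 := abs_nonneg l
  generalize |l| = m at h h0
  have c1 : Real.sqrt 3 / 2 ≤ Real.cos (2 * Real.pi * m) := by
    rw [← Real.cos_pi_div_six]
    apply Real.cos_le_cos_of_nonneg_of_le_pi
    · positivity
    · linarith
    · nlinarith
  have s3 : (17 / 10 : ℝ) ≤ Real.sqrt 3 := by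
    apply Real.le_sqrt_of_sq_le
    norm_num
  have c2 : (1 : ℝ) / 2 < qA (Real.cos (2 * Real.pi * m)) := by
    have := KAr_qA_ge (x := Real.cos (2 * Real.pi * m)) (by linarith)
    linarith
  have c3 : Real.pi / 6 < Real.arcsin (qA (Real.cos (2 * Real.pi * m))) := by
    have h6 : Real.arcsin (1 / 2) = Real.pi / 6 := by
      rw [← Real.sin_pi_div_six, Real.arcsin_sin (by linarith) (by linarith)]
    rw [← h6]
    exact Real.strictMonoOn_arcsin ⟨by norm_num, by norm_num⟩ ⟨(KAr_qc m).1.le, (KAr_qc m).2.le⟩ c2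
  unfold rA
  have c4 : 1 / 6 < Real.arcsin (qA (Real.cos (2 * Real.pi * m))) / Real.pi := by
    rw [lt_div_iff₀ hp]
    linarith
  linarith

theorem rA_half {l : ℝ} (h : |l| < 1 / 4) : rA l < 1 / 2 := by
  have hp := Real.pi_pos
  rw [abs_lt] at h
  have c1 : 0 < Real.cos (2 * Real.pi * l) := by
    apply Real.cos_pos_of_mem_Ioo
    constructor <;> nlinarith
  have c2 : 0 < qA (Real.cos (2 * Real.pi * l)) := by
    have := KAr_qA_ge c1.le
    linarith
  have c3 : 0 < Real.arcsin (qA (Real.cos (2 * Real.pi * l))) := Real.arcsin_pos.2 c2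
  unfold rA
  have := div_pos c3 hp
  linarith

end Pool.Agent.CPI
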