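import Pool.Agent.CPI.Defs
import Pool.Agent.GLB.ActG
import Pool.Agent.GLB.GEa
import Pool.Agent.GLB.Psi

/-!
# CPI/Tht: level preserving translations of `S3 × S1`   (difficulty 2)

`rot x (y, c) = (pS3 (ex x₁ z1 y) (ex x₂ z2 y), exp (2πi x₃) c)`, the action of `R³`; `xi q = |z1|² - |z2|²` is invariant; `Tht A q = rot (A (xi q)) q`.
* `z1 (rot x q).1 = ex x₁ z1 q.1`, `z2 (..) = ex x₂ z2 q.1` (`GLB.z_pS3`, the norm is 1: `GLB.z_sq`, `ex_norm`), so `rot x (rot x' q) = rot (x + x') q`, `rot 0 q = q` (`GLB.S3_ext`), `xi (rot x q) = xi q`.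
* `Tht (-A) (Tht A q) = q`: `Tht A` is a permutation `Thp A`.
* `Tht A` is smooth: `xi` is smooth (`GLB.z1_smooth`, `z2_smooth`, `‖·‖²`), `A` smooth, `ex_smooth`, `RSG.pS3_smooth`, `contMDiff_circleExp`, multiplication of `Circle` (`ContMDiff.mul`) (compare
  `GLB.ActG` `gact_act` `smooth`).  Local diffeomorphism: smooth with smooth inverse (`CSG.ld_of_comp_..`; as `GLB.ld_of_involution`, or
  `Diffeomorph.isLocalDiffeomorph`).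
* `rot x (gact v t q) = gact v t (rot x q)`: `gact v t = rot (t v)`.
* `rot_gE : rot x (gE ρ y) = gE ρ (y + x)` (as `GLB.gact_gE`).  `xi_gE : xi (gE ρ x) = xr ρ` (`GLB.z_pS3`, `prf_pos_pair`).
* `carries_Tht`: `ISO.carries_map (Thp A)`.
-/

open scoped Manifold ContDiff Topology
open Set Filter
open Complex (I)

namespace Pool.Agent.CPI

open Pool.Agent.PTH (Act Carries SP ISP z1 z2 gE gact prf)
open Pool.Agent.RSG (S3 pS3 ex)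

noncomputable def xi (q : SP) : ℝ := ‖z1 q.1‖ ^ 2 - ‖z2 q.1‖ ^ 2

/-- `xi` at radius `ρ` -/
noncomputable def xr (ρ : ℝ) : ℝ := (prf ρ ^ 2 - prf (1 - ρ) ^ 2) / (prf ρ ^ 2 + prf (1 - ρ) ^ 2)

noncomputable def rot (x : ℝ × ℝ × ℝ) (q : SP) : SP :=
  (pS3 (ex x.1 * z1 q.1) (ex x.2.1 * z2 q.1), Circle.exp (2 * Real.pi * x.2.2) * q.2)

noncomputable def Tht (A : ℝ → ℝ × ℝ × ℝ) (q : SP) : SP := rot (A (xi q)) q

theorem Tht_z (x : ℝ × ℝ × ℝ) (q : SP) :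
    z1 (rot x q).1 = ex x.1 * z1 q.1 ∧ z2 (rot x q).1 = ex x.2.1 * z2 q.1 := by
  have h := Pool.Agent.GLB.ActG_n q.1 x.1 x.2.1
  have h1 := Pool.Agent.GLB.z_pS3 (a := ex x.1 * z1 q.1) (b := ex x.2.1 * z2 q.1) (by rw [h]; exact one_pos)
  rw [h, Real.sqrt_one, inv_one, Complex.ofReal_one, one_mul, one_mul] at h1
  exact h1

theorem Tht_add (x x' : ℝ × ℝ × ℝ) (q : SP) : rot x (rot x' q) = rot (x + x') q := by
  obtain ⟨e1, e2⟩ := Tht_z (x + x') q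
  obtain ⟨f1, f2⟩ := Tht_z x (rot x' q)
  obtain ⟨g1, g2⟩ := Tht_z x' q
  refine Prod.ext (Pool.Agent.GLB.S3_ext ?_ ?_) ?_
  · rw [e1, f1, g1, Prod.fst_add, Pool.Agent.RSG.ex_add, mul_assoc]
  · rw [e2, f2, g2, Prod.snd_add, Prod.fst_add, Pool.Agent.RSG.ex_add, mul_assoc]
  · show Circle.exp (2 * Real.pi * x.2.2) * (Circle.exp (2 * Real.pi * x'.2.2) * q.2) =
      Circle.exp (2 * Real.pi * (x.2.2 + x'.2.2)) * q.2
    rw [mul_add, Circle.exp_add]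
    exact (mul_assoc _ _ _).symm

theorem Tht_zero (q : SP) : rot 0 q = q := by
  obtain ⟨e1, e2⟩ := Tht_z 0 q
  refine Prod.ext (Pool.Agent.GLB.S3_ext ?_ ?_) ?_
  · rw [e1, Prod.fst_zero, Pool.Agent.RSG.ex_zero, one_mul]
  · rw [e2, Prod.snd_zero, Prod.fst_zero, Pool.Agent.RSG.ex_zero, one_mul]
  · show Circle.exp (2 * Real.pi * 0) * q.2 = q.2
    rw [mul_zero, Circle.exp_zero, one_mul]

theorem Tht_xi (x : ℝ × ℝ × ℝ) (q : SP) : xi (rot x q) = xi q := by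
  obtain ⟨e1, e2⟩ := Tht_z x q
  unfold xi
  rw [e1, e2, norm_mul, norm_mul, Pool.Agent.RSG.ex_norm, Pool.Agent.RSG.ex_norm, one_mul, one_mul]

theorem Tht_inv (A : ℝ → ℝ × ℝ × ℝ) (q : SP) : Tht A (Tht (fun s => -A s) q) = q := by
  unfold Tht
  rw [Tht_xi, Tht_add, add_neg_cancel, Tht_zero]

theorem Tht_inv' (A : ℝ → ℝ × ℝ × ℝ) (q : SP) : Tht (fun s => -A s) (Tht A q) = q := by
  unfold Tht
  rw [Tht_xi, Tht_add, neg_add_cancel, Tht_zero]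

/-- the permutation -/
noncomputable def Thp (A : ℝ → ℝ × ℝ × ℝ) : Equiv.Perm SP :=
  ⟨Tht A, Tht (fun s => -A s), Tht_inv' A, Tht_inv A⟩

theorem Tht_xi_smooth : ContMDiff ISP 𝓘(ℝ, ℝ) ∞ xi := by
  have h1 : ContMDiff ISP 𝓘(ℝ, ℂ) ∞ (fun q : SP => z1 q.1) := Pool.Agent.GLB.z1_smooth.comp contMDiff_fst
  have h2 : ContMDiff ISP 𝓘(ℝ, ℂ) ∞ (fun q : SP => z2 q.1) := Pool.Agent.GLB.z2_smooth.comp contMDiff_fst
  have h3 : ContDiff ℝ ∞ (fun p : ℂ × ℂ => ‖p.1‖ ^ 2 - ‖p.2‖ ^ 2) :=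
    (contDiff_fst.norm_sq ℝ).sub (contDiff_snd.norm_sq ℝ)
  exact h3.contMDiff.comp (h1.prodMk_space h2)

theorem Tht_smooth {A : ℝ → ℝ × ℝ × ℝ} (hA : ContDiff ℝ ∞ A) : ContMDiff ISP ISP ∞ (Tht A) := by
  have hxi := Tht_xi_smooth
  have hm : ContDiff ℝ ∞ (fun p : ℂ × ℂ => p.1 * p.2) := by fun_prop
  have a1 : ContDiff ℝ ∞ (fun s : ℝ => (A s).1) := contDiff_fst.comp hA
  have a2 : ContDiff ℝ ∞ (fun s : ℝ => (A s).2.1) := contDiff_fst.comp (contDiff_snd.comp hA)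
  have a3 : ContDiff ℝ ∞ (fun s : ℝ => (A s).2.2) := contDiff_snd.comp (contDiff_snd.comp hA)
  have hex1 : ContMDiff ISP 𝓘(ℝ, ℂ) ∞ (fun q : SP => ex (A (xi q)).1) := by
    have h3 : ContDiff ℝ ∞ (fun s : ℝ => ex (A s).1) := Pool.Agent.RSG.ex_smooth.comp a1
    exact h3.contMDiff.comp hxi
  have hex2 : ContMDiff ISP 𝓘(ℝ, ℂ) ∞ (fun q : SP => ex (A (xi q)).2.1) := by
    have h3 : ContDiff ℝ ∞ (fun s : ℝ => ex (A s).2.1) := Pool.Agent.RSG.ex_smooth.comp a2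
    exact h3.contMDiff.comp hxi
  have hz1 : ContMDiff ISP 𝓘(ℝ, ℂ) ∞ (fun q : SP => z1 q.1) := Pool.Agent.GLB.z1_smooth.comp contMDiff_fst
  have hz2 : ContMDiff ISP 𝓘(ℝ, ℂ) ∞ (fun q : SP => z2 q.1) := Pool.Agent.GLB.z2_smooth.comp contMDiff_fst
  have hA' : ContMDiff ISP 𝓘(ℝ, ℂ) ∞ (fun q : SP => ex (A (xi q)).1 * z1 q.1) :=
    hm.contMDiff.comp (hex1.prodMk_space hz1)
  have hB' : ContMDiff ISP 𝓘(ℝ, ℂ) ∞ (fun q : SP => ex (A (xi q)).2.1 * z2 q.1) :=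
    hm.contMDiff.comp (hex2.prodMk_space hz2)
  have hC : ContMDiff ISP (𝓡 1) ∞ (fun q : SP => Circle.exp (2 * Real.pi * (A (xi q)).2.2) * q.2) := by
    have h3 : ContDiff ℝ ∞ (fun s : ℝ => 2 * Real.pi * (A s).2.2) := contDiff_const.mul a3
    have h4 : ContMDiff ISP (𝓡 1) ∞ (fun q : SP => Circle.exp (2 * Real.pi * (A (xi q)).2.2)) :=
      contMDiff_circleExp.comp (h3.contMDiff.comp hxi)
    exact h4.mul contMDiff_snd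
  have hS : ContMDiff ISP (𝓡 3) ∞
      (fun q : SP => pS3 (ex (A (xi q)).1 * z1 q.1) (ex (A (xi q)).2.1 * z2 q.1)) := by
    intro q
    exact Pool.Agent.RSG.pS3_smooth (hA' q) (hB' q) (by rw [Pool.Agent.GLB.ActG_n]; exact one_pos)
  exact hS.prodMk hC

theorem Tht_ld {A : ℝ → ℝ × ℝ × ℝ} (hA : ContDiff ℝ ∞ A) (q : SP) : IsLocalDiffeomorphAt ISP ISP ∞ (Tht A) q :=
  Pool.Agent.RSG.ld_two (g := Tht (fun s => -A s)) (Eventually.of_forall fun y => Tht_smooth hA y)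
    (Eventually.of_forall fun y => Tht_smooth hA.neg y) (Eventually.of_forall (Tht_inv' A))
    (Eventually.of_forall (Tht_inv A))

theorem Tht_comm (A : ℝ → ℝ × ℝ × ℝ) (v : ℤ × ℤ × ℤ) (t : ℝ) (q : SP) :
    Tht A (gact v t q) = gact v t (Tht A q) := by
  have e : ∀ p, gact v t p = rot ((v.1 : ℝ) * t, (v.2.1 : ℝ) * t, (v.2.2 : ℝ) * t) p := fun p => rfl
  rw [e, e]
  unfold Tht
  rw [Tht_xi, Tht_add, Tht_add, add_comm]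

theorem rot_gE (x : ℝ × ℝ × ℝ) (ρ : ℝ) (y : ℝ × ℝ × ℝ) : rot x (gE ρ y) = gE ρ (y + x) := by
  have hpos := Pool.Agent.GLB.prf_pos_pair ρ y.1 y.2.1
  obtain ⟨h1, h2⟩ := Pool.Agent.GLB.z_pS3 hpos
  have h3 : 0 < (Real.sqrt (‖((prf ρ : ℝ) : ℂ) * ex y.1‖ ^ 2 + ‖((prf (1 - ρ) : ℝ) : ℂ) * ex y.2.1‖ ^ 2))⁻¹ :=
    inv_pos.2 (Real.sqrt_pos.2 hpos)
  have h4 : 0 < ‖((prf ρ : ℝ) : ℂ) * ex (y.1 + x.1)‖ ^ 2 + ‖((prf (1 - ρ) : ℝ) : ℂ) * ex (y.2.1 + x.2.1)‖ ^ 2 :=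
    Pool.Agent.GLB.prf_pos_pair ρ (y.1 + x.1) (y.2.1 + x.2.1)
  unfold rot gE
  simp only [Prod.fst_add, Prod.snd_add]
  rw [h1, h2, ← Pool.Agent.GLB.pS3_smul h3 h4]
  congr 2
  · rw [Pool.Agent.RSG.ex_add]
    ring
  · rw [Pool.Agent.RSG.ex_add]
    ring
  · rw [← Circle.exp_add]
    congr 1
    ring

theorem xi_gE (ρ : ℝ) (x : ℝ × ℝ × ℝ) : xi (gE ρ x) = xr ρ := by
  have hpos := Pool.Agent.GLB.prf_pos_pair ρ x.1 x.2.1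
  obtain ⟨h1, h2⟩ := Pool.Agent.GLB.z_pS3 hpos
  have n1 : ‖((prf ρ : ℝ) : ℂ) * ex x.1‖ ^ 2 = prf ρ ^ 2 := by
    rw [Pool.Agent.GLB.GEa_norm, sq_abs]
  have n2 : ‖((prf (1 - ρ) : ℝ) : ℂ) * ex x.2.1‖ ^ 2 = prf (1 - ρ) ^ 2 := by
    rw [Pool.Agent.GLB.GEa_norm, sq_abs]
  rw [n1, n2] at hpos h1 h2
  have e1 : ‖z1 (gE ρ x).1‖ ^ 2 = prf ρ ^ 2 / (prf ρ ^ 2 + prf (1 - ρ) ^ 2) := by
    show ‖z1 (pS3 (prf ρ * ex x.1) (prf (1 - ρ) * ex x.2.1))‖ ^ 2 = _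
    rw [h1, norm_mul, mul_pow, n1, Complex.norm_real, Real.norm_eq_abs, sq_abs, inv_pow, Real.sq_sqrt hpos.le]
    ring
  have e2 : ‖z2 (gE ρ x).1‖ ^ 2 = prf (1 - ρ) ^ 2 / (prf ρ ^ 2 + prf (1 - ρ) ^ 2) := by
    show ‖z2 (pS3 (prf ρ * ex x.1) (prf (1 - ρ) * ex x.2.1))‖ ^ 2 = _
    rw [h2, norm_mul, mul_pow, n2, Complex.norm_real, Real.norm_eq_abs, sq_abs, inv_pow, Real.sq_sqrt hpos.le]
    ring
  unfold xi xr
  rw [e1, e2, sub_div]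

theorem Tht_gE (A : ℝ → ℝ × ℝ × ℝ) (ρ : ℝ) (x : ℝ × ℝ × ℝ) : Tht A (gE ρ x) = gE ρ (x + A (xr ρ)) := by
  rw [Tht, xi_gE, rot_gE]

theorem Tht_cont {A : ℝ → ℝ × ℝ × ℝ} (hA : ContDiff ℝ ∞ A) : Continuous (Tht A) := (Tht_smooth hA).continuous

theorem carries_Tht {A : ℝ → ℝ × ℝ × ℝ} (hA : ContDiff ℝ ∞ A) (v : ℤ × ℤ × ℤ) (n : ℤ) (K : ℝ → SP) (X : Type*)
    [TopologicalSpace X] [ChartedSpace (EuclideanSpace ℝ (Fin 4)) X] :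
    Carries ISP (gact v) n K X ↔ Carries ISP (gact v) n (fun l => Tht A (K l)) X :=
  Pool.Agent.ISO.carries_map (IP := ISP) (Thp A) (Tht_ld hA) (Tht_comm A v)

end Pool.Agent.CPI
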