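import Pool.Agent.CPI.KAy
import Pool.Agent.CPI.Tht
import Pool.Agent.CHO.Defs

/-!
# CPI/Lin: definitions for the path: the frames, the twist, `D`, `g₀`, `g₃`

`CHO.Alg C v m m'`: `e₁ = (1,0,0)`, `e₂ = (0,1,0)`, `C₀₁ v + C₁₁ e₁ + C₂₁ m = e₂`, `C₀₂ v + C₁₂ e₁ + C₂₂ m = m'`.  `M1` (frame `v, e₁, m`) and `M2` (frame `v, e₂, m'`): `M1 (C x) = M2 x`.
`cK ξ` : the point `(0, 0, Y₀)` of the first strand, at the level `ξ` of the collar of the second solid torus, in the frame `v, e₁, m`.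
-/

open scoped Manifold ContDiff Topology
open Set Filter
open Complex (I normSq)

namespace Pool.Agent.CPI

open Pool.Agent.CSG (E3 pt act vec stp)
open Pool.Agent.GLB (rv hz1 hz2)
open Pool.Agent.RSG (ex)
open Pool.Agent.PTH (gK SP)

/-- the point with coordinates `x = (τ, u, Y)` in the frame of the first solid torus -/
noncomputable def M1 (v m : ℤ × ℤ × ℤ) (x : E3) : ℝ × ℝ × ℝ := x 0 • rv v + x 1 • ((1, 0, 0) : ℝ × ℝ × ℝ) + x 2 • rv m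
/-- the same for the second one -/
noncomputable def M2 (v m' : ℤ × ℤ × ℤ) (x : E3) : ℝ × ℝ × ℝ := x 0 • rv v + x 1 • ((0, 1, 0) : ℝ × ℝ × ℝ) + x 2 • rv m'

theorem M1_act {C : Matrix (Fin 3) (Fin 3) ℤ} {v m m' : ℤ × ℤ × ℤ} (h : CHO.Alg C v m m') (x : E3) :
    M1 v m (act C x) = M2 v m' x := by
  have e0 : act C x 0 = x 0 + C 0 1 * x 1 + C 0 2 * x 2 := by
    simp [act, Fin.sum_univ_three, h.c00]
  have e1 : act C x 1 = C 1 1 * x 1 + C 1 2 * x 2 := by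
    simp [act, Fin.sum_univ_three, h.c10]
  have e2 : act C x 2 = C 2 1 * x 1 + C 2 2 * x 2 := by
    simp [act, Fin.sum_univ_three, h.c20]
  have a1 : (C 0 1 : ℝ) * v.1 + C 1 1 + C 2 1 * m.1 = 0 := by exact_mod_cast h.e1x
  have a2 : (C 0 1 : ℝ) * v.2.1 + C 2 1 * m.2.1 = 1 := by exact_mod_cast h.e1y
  have a3 : (C 0 1 : ℝ) * v.2.2 + C 2 1 * m.2.2 = 0 := by exact_mod_cast h.e1z
  have b1 : (C 0 2 : ℝ) * v.1 + C 1 2 + C 2 2 * m.1 = m'.1 := by exact_mod_cast h.e2x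
  have b2 : (C 0 2 : ℝ) * v.2.1 + C 2 2 * m.2.1 = m'.2.1 := by exact_mod_cast h.e2y
  have b3 : (C 0 2 : ℝ) * v.2.2 + C 2 2 * m.2.2 = m'.2.2 := by exact_mod_cast h.e2z
  unfold M1 M2 rv
  rw [e0, e1, e2]
  simp only [Prod.smul_mk, Prod.mk_add_mk, smul_eq_mul]
  refine Prod.ext ?_ (Prod.ext ?_ ?_) <;> simp only
  · linear_combination x 1 * a1 + x 2 * b1
  · linear_combination x 1 * a2 + x 2 * b2
  · linear_combination x 1 * a3 + x 2 * b3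

theorem M1_add (v m : ℤ × ℤ × ℤ) (x y : E3) : M1 v m (x + y) = M1 v m x + M1 v m y := by
  unfold M1
  simp only [PiLp.add_apply]
  module

theorem M2_add (v m : ℤ × ℤ × ℤ) (x y : E3) : M2 v m (x + y) = M2 v m x + M2 v m y := by
  unfold M2
  simp only [PiLp.add_apply]
  module

theorem M2_neg (v m : ℤ × ℤ × ℤ) (x : E3) : M2 v m (-x) = -M2 v m x := by
  unfold M2
  simp only [PiLp.neg_apply]
  module

theorem M2_pt (v m : ℤ × ℤ × ℤ) (τ u Y : ℝ) : M2 v m (pt τ u Y) = τ • rv v + u • ((0, 1, 0) : ℝ × ℝ × ℝ) + Y • rv m := by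
  unfold M2
  simp

theorem M1_pt (v m : ℤ × ℤ × ℤ) (τ u Y : ℝ) : M1 v m (pt τ u Y) = τ • rv v + u • ((1, 0, 0) : ℝ × ℝ × ℝ) + Y • rv m := by
  unfold M1
  simp

/-- smooth functions, `1` for `ξ ≤ x₁`, `0` for `ξ ≥ 2 x₁` -/
structure Sg (x₁ : ℝ) (σ : ℝ → ℝ) : Prop where
  smooth : ContDiff ℝ ∞ σ
  lo : ∀ ξ ≤ x₁, σ ξ = 1
  hi : ∀ ξ, 2 * x₁ ≤ ξ → σ ξ = 0

/-- `(0, 0, Y₀)` rotated by `k σ ξ` turns -/
noncomputable def eR (k : ℤ) (σ : ℝ → ℝ) (Y₀ ξ : ℝ) : E3 :=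
  pt 0 (Y₀ * Real.sin (2 * Real.pi * (k * σ ξ))) (Y₀ * Real.cos (2 * Real.pi * (k * σ ξ)))

noncomputable def cK (C : Matrix (Fin 3) (Fin 3) ℤ) (κ : ℝ → Equiv.Perm E3) (k : ℤ) (σ σ' : ℝ → ℝ) (Y₀ ξ : ℝ) : E3 :=
  act C (κ (σ ξ) (eR k σ' Y₀ ξ))

/-- the properties of `cK` -/
structure CFn (C : Matrix (Fin 3) (Fin 3) ℤ) (x₁ Y₀ : ℝ) (c : ℝ → E3) : Prop where
  smooth : ContDiff ℝ ∞ c
  lo : ∀ ξ ≤ x₁, c ξ = pt 0 0 Y₀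
  hi : ∀ ξ, 2 * x₁ ≤ ξ → c ξ = act C (pt 0 0 Y₀)
  ne : ∀ ξ, c ξ 1 ≠ 0 ∨ c ξ 2 ≠ 0

/-- the level, as a function on `R`: `-1` for `ρ ≤ 0`, `xr ρ` for `1/4 ≤ ρ ≤ 3/4`, `1` for `ρ ≥ 1` -/
noncomputable def xq (ρ : ℝ) : ℝ :=
  stp 0 (1 / 4) ρ * ((1 - stp (3 / 4) 1 ρ) * xr ρ + stp (3 / 4) 1 ρ) - (1 - stp 0 (1 / 4) ρ)

/-- the curve `D` -/
noncomputable def DD (c : ℝ → E3) (ρ : ℝ) : ℂ := ⟨-2 * c (xq ρ) 1, -2 * c (xq ρ) 2⟩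
noncomputable def G3 (ρ : ℝ) : ℝ := 1 - g1 (1 - ρ)
noncomputable def G0 (c : ℝ → E3) (ρ : ℝ) : ℝ := stp (1 / 4) (3 / 4) ρ - 2 * c (xq ρ) 0 * (1 - G3 ρ)

/-- the path -/
noncomputable def wC (v m m' : ℤ × ℤ × ℤ) (c : ℝ → E3) : ℝ → ℝ × ℝ × ℝ := STR.stw v m m' (G0 c) g1 G3 (DD c)

/-- the knot of the path, translated -/
noncomputable def KC (v m m' : ℤ × ℤ × ℤ) (c : ℝ → E3) (l : ℝ) : SP :=
  Tht (fun ξ => M1 v m (c ξ)) (gK (wC v m m' c) l)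

end Pool.Agent.CPI
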