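import Pool.Agent.CPI.Asm
import Pool.Agent.CPI.IdA
import Pool.Agent.CPI.IdB
import Pool.Agent.CPI.IdC
import Pool.Agent.STR.SSg

/-!
# CPI/Main: the core knot of the open book carries the manifolds of a star path
-/

open scoped Manifold ContDiff Topology
open Set Filter
open Complex (I normSq)

namespace Pool.Agent.CPI

open Pool.Agent.CSG (E3 pt act vec stp)
open Pool.Agent.CHO (Pm sg)
open Pool.Agent.CHW (F3 rr WD)
open Pool.Agent.PTH (Act Carries SP ISP gact gK GPath GCar)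
open Pool.Agent.GLB (VGood rv hz1 hz2)
open Pool.Agent.STR (Steps Crv stw Star ne)

universe u

theorem M1_smooth (v m : ℤ × ℤ × ℤ) {c : ℝ → E3} (hc : ContDiff ℝ ∞ c) : ContDiff ℝ ∞ fun ξ => M1 v m (c ξ) := by
  have h : ∀ i, ContDiff ℝ ∞ fun ξ => c ξ i := fun i => (contDiff_euclidean.1 hc) i
  unfold M1
  exact (((h 0).smul contDiff_const).add ((h 1).smul contDiff_const)).add ((h 2).smul contDiff_const)

/-- **The core knot of the open book carries the manifolds of a star path.** -/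
theorem core_final {P : Pm} (hP : P.Ok) (hv : VGood P.v) {ε : ℝ} (D : WD P.d₀ P.x₁ ε) :
    ∃ (ρ₁ ρ₂ : ℝ) (g₀ g₁ g₃ : ℝ → ℝ) (Dc : ℝ → ℂ), Steps ρ₁ ρ₂ g₁ g₃ ∧ Crv ρ₁ ρ₂ Dc ∧
      (∀ ρ, ‖Dc ρ‖ * (((|P.m.1| : ℤ) + 2) * ((|P.v.2.2| : ℤ) + (|P.v.1 * P.m.2.2| : ℤ) + 1)) < 1) ∧
      (Dc ρ₁).im < 0 ∧ P.v.2.2 * (Dc ρ₂).re + hz2 P.v P.m * (Dc ρ₂).im < 0 ∧ ContDiff ℝ ∞ g₀ ∧
      (∃ ε : ℝ, 0 < ε ∧ ∀ ρ ≤ ε, g₀ ρ = 0) ∧ (∃ ε : ℝ, 0 < ε ∧ ∀ ρ, 1 - ε ≤ ρ → g₀ ρ = 1) ∧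
      ∀ (n : ℤ) (X : Type u) [TopologicalSpace X] [ChartedSpace (EuclideanSpace ℝ (Fin 4)) X],
        Carries ISP (gact P.v) n (fun l => CHO.kK D (l, 0, l)) X →
          GCar P.v n (stw P.v P.m P.m' g₀ g₁ g₃ Dc) X := by
  have hx0 := hP.x₁_pos
  have hx := hP.x₁_lt
  have hA := hP.alg
  have hd0 := hP.d₀_pos
  have hd := hP.hd
  have hδ := hP.kap.le
  have hσ : Sg P.x₁ (sg P.x₁) := sg_Sg hx0
  -- the size
  set N : ℝ := ((|P.m.1| : ℤ) + 2) * ((|P.v.2.2| : ℤ) + (|P.v.1 * P.m.2.2| : ℤ) + 1) with hN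
  have hN0 : 0 < N := by
    have h1 : (0 : ℝ) ≤ ((|P.m.1| : ℤ) : ℝ) := by exact_mod_cast abs_nonneg _
    have h2 : (0 : ℝ) ≤ ((|P.v.2.2| : ℤ) : ℝ) := by exact_mod_cast abs_nonneg _
    have h3 : (0 : ℝ) ≤ ((|P.v.1 * P.m.2.2| : ℤ) : ℝ) := by exact_mod_cast abs_nonneg _
    rw [hN]
    positivity
  obtain ⟨Y, hY, hYs⟩ := cK_small hP.kap hx0 hσ hσ P.k (η := 1 / (8 * N)) (by positivity)
  set Y₀ : ℝ := min Y P.d₀ with hY₀
  have h0 : 0 < Y₀ := lt_min hY hd0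
  have hle : Y₀ ≤ P.d₀ := min_le_right _ _
  have hleY : Y₀ ≤ Y := min_le_left _ _
  have h1 : Y₀ < 1 / 2 := by linarith
  have h2 : Y₀ < 2 * P.d₀ := by linarith
  have h3 : Y₀ < P.δ := by linarith
  set c : ℝ → E3 := cK P.C P.κ P.k (sg P.x₁) (sg P.x₁) Y₀ with hcdef
  have hc : CFn P.C P.x₁ Y₀ c := cK_fn hA hP.kap hx0 hσ hσ P.k h0 h3
  have hsmall : ∀ ρ, ‖DD c ρ‖ * N < 1 := by
    intro ρ
    obtain ⟨a1, a2⟩ := hYs Y₀ h0.le hleY (xq ρ)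
    have hn : ‖DD c ρ‖ ≤ |(DD c ρ).re| + |(DD c ρ).im| := Complex.norm_le_abs_re_add_abs_im _
    have e1 : (DD c ρ).re = -2 * c (xq ρ) 1 := rfl
    have e2 : (DD c ρ).im = -2 * c (xq ρ) 2 := rfl
    rw [e1, e2, abs_mul, abs_mul] at hn
    have e3 : |(-2 : ℝ)| = 2 := by norm_num
    rw [e3] at hn
    have e4 : ‖DD c ρ‖ ≤ 4 * (1 / (8 * N)) := by linarith
    calc ‖DD c ρ‖ * N ≤ 4 * (1 / (8 * N)) * N := mul_le_mul_of_nonneg_right e4 hN0.le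
      _ = 1 / 2 := by field_simp; norm_num
      _ < 1 := by norm_num
  have hz1' : hz1 P.v P.m = -1 := by
    have := hA.uni
    unfold hz1
    linarith
  have hz2' : hz2 P.v P.m' = 1 := by
    have := hA.uni'
    unfold hz2
    linarith
  have hin := path_inn hx0 hc h0
  have hout := path_out hA hx0 hx hc h0
  have hstar : Star P.v P.m P.m' (-1) (1 / 2) (3 / 4) (DD c) := by
    refine ⟨Or.inr rfl, hz1', by rw [hz2']; norm_num, path_crv hx0 hx hc, hsmall, hin, ?_⟩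
    push_cast
    linarith
  have g0s := G0_smooth hx0 hc
  have g0l : ∃ ε : ℝ, 0 < ε ∧ ∀ ρ ≤ ε, G0 c ρ = 0 := ⟨1 / 4, by norm_num, fun ρ h => G0_lo hx0 hc h⟩
  have g0h : ∃ ε : ℝ, 0 < ε ∧ ∀ ρ, 1 - ε ≤ ρ → G0 c ρ = 1 :=
    ⟨1 / 12, by norm_num, fun ρ h => G0_hi c (by linarith)⟩
  have hg : GPath P.v 0 (ne P.v P.m P.m' 1) (wC P.v P.m P.m' c) :=
    STR.star_gpath hv path_steps hstar g0s g0l (by simpa using g0h)
  refine ⟨1 / 2, 3 / 4, G0 c, g1, G3, DD c, path_steps, path_crv hx0 hx hc, hsmall, hin, hout, g0s, g0l, g0h, ?_⟩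
  intro n X _ _ hX
  have hAct : Act ISP (gact P.v) := GLB.gact_act hv.cop1 hv.cop2
  have hF := fch hP hv
  have hT : T2Space SP := inferInstance
  have key := core_abs hAct D hF h0 h1 h2 (K := fun l => CHO.kK D (l, 0, l)) (KC := KC P.v P.m P.m' c) (kK_FF hP D)
    (kc_cont hc hg) (kc_per _ _ _ _) (fun l hl => id1 hP h1 hc hl) (fun l hl => id2 hP h1 hc hl)
    (fun l hl hl' => by
      rcases le_or_gt l (1 / 4) with h | h
      · exact id3a hP h1 hc hl h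
      · exact id3b hP h0 h1 h2 hc h hl')
    (fun l hl hl' => by
      rcases lt_or_ge l (3 / 4) with h | h
      · exact id4b hP h0 h1 h2 hc hl h
      · exact id4a hP h1 hc h hl') hX
  exact (carries_Tht (M1_smooth P.v P.m hc.smooth) P.v n (gK (wC P.v P.m P.m' c)) X).2 key

end Pool.Agent.CPI
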