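import Pool.Agent.CPI.Pok
import Pool.Agent.GLB.KSm

/-!
# CPI/PVa: values of the translated knot `KC`   (difficulty 2)

`KC l = Tht A (gK (wC ..) l)`, `A ξ = M1 v m (c ξ)`; `Tht_gE : Tht A (gE ρ x) = gE ρ (x + A (xr ρ))`.
* `kc_pos`: `GLB.gK_pos`.  `kc_neg`: `GLB.gK_neg` (`x = (0, 0, 0)`, `zero_add`).  `kc_half`: `GLB.gK_half`.  `kc_per`: `GLB.gK_per`.  `kc_cont`: `GLB.gK_smooth` needs
  `GPath v n₀ n₁ (wC ..)`; it is the hypothesis `hg`; `.continuous`, `Tht_cont` (`M1 v m ∘ c` is smooth).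
* `pv_a`, `0 ≤ ρ ≤ 1/2`: `G3 ρ = 1 - g1 (1 - ρ) = 0` (`g1_hi`), `c (xq ρ) = c (xr ρ) = pt 0 0 Y₀` (`hc.lo`, `xq_lo`, `xr_lo`), `G0 = stp (1/4) (3/4) ρ`, `DD = ⟨0, -2 Y₀⟩`; `stw` unfolded: `g₀ v + (1 - g₁) (1/2,0,0) + g₁ ((1 - 2 Y₀) m)
  + Y₀ m`.
* `pv_b`, `1/2 ≤ ρ ≤ 5/6`: `g1 ρ = 1`, `G3 ρ = 0` (`1 - ρ ≥ 1/6`); `c (xq ρ) = c (xr ρ) =: c` (`c_xq`): `wC = (stp - 2 c₀) v + m - 2 c₁ e₁ - 2 c₂ m`, plus `M1 c = c₀ v + c₁ e₁ + c₂ m` gives `stp v + m - M1 c`.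
* `pv_c`, `2/3 ≤ ρ ≤ 1`: `g1 ρ = 1`, `xr ρ ≥ 4/5 ≥ 2 x₁` (`xr_hi`), `c = act C (pt 0 0 Y₀)`, `M1 c = M2 (pt 0 0 Y₀) = Y₀ m'` (`M1_act`), i.e. `c₀ v + c₁ e₁ + c₂ m = Y₀ m'`; with `G = G3 ρ`:
  `wC + M1 c = (stp - 2 c₀ (1 - G)) v + (1 - G) (m - 2 c₁ e₁ - 2 c₂ m) + G (m - m' + (0,1/2,0)) + Y₀ m'
   = stp v + m - G m' + (G/2) e₂ - 2 (1 - G) Y₀ m' + Y₀ m' = stp v + (m - m') + (G/2) e₂ + (Y₀ + (1 - 2 Y₀) (1 - G)) m'`.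
-/

open scoped Manifold ContDiff Topology
open Set Filter

namespace Pool.Agent.CPI

open Pool.Agent.CSG (E3 pt act vec stp)
open Pool.Agent.GLB (rv hz1 hz2)
open Pool.Agent.PTH (gE gK GPath)

variable {C : Matrix (Fin 3) (Fin 3) ℤ} {v m m' : ℤ × ℤ × ℤ} {x₁ Y₀ : ℝ} {c : ℝ → E3}

theorem kc_per (v m m' : ℤ × ℤ × ℤ) (c : ℝ → E3) (l : ℝ) : KC v m m' c (l + 1) = KC v m m' c l := by
  unfold KC
  rw [Pool.Agent.GLB.gK_per]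

theorem kc_pos (v m m' : ℤ × ℤ × ℤ) (c : ℝ → E3) {l : ℝ} (h0 : 0 ≤ l) (h1 : l < 1 / 2) :
    KC v m m' c l = gE (2 * l) (wC v m m' c (2 * l) + M1 v m (c (xr (2 * l)))) := by
  unfold KC
  rw [Pool.Agent.GLB.gK_pos _ h0 h1, Tht_gE]

theorem PVa_zero (x : ℝ × ℝ × ℝ) : ((0, 0, 0) : ℝ × ℝ × ℝ) + x = x := zero_add x

theorem kc_neg (v m m' : ℤ × ℤ × ℤ) (c : ℝ → E3) {l : ℝ} (h0 : -(1 / 2) ≤ l) (h1 : l < 0) :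
    KC v m m' c l = gE (-2 * l) (M1 v m (c (xr (-2 * l)))) := by
  unfold KC
  rw [Pool.Agent.GLB.gK_neg _ h0 h1, Tht_gE, PVa_zero]

theorem kc_half (v m m' : ℤ × ℤ × ℤ) (c : ℝ → E3) {l : ℝ} (h0 : 1 / 2 ≤ l) (h1 : l < 1) :
    KC v m m' c l = gE (2 - 2 * l) (M1 v m (c (xr (2 - 2 * l)))) := by
  unfold KC
  rw [Pool.Agent.GLB.gK_half _ h0 h1, Tht_gE, PVa_zero]

theorem PVa_co {c : ℝ → E3} (hc : ContDiff ℝ ∞ c) (i : Fin 3) : ContDiff ℝ ∞ (fun ξ => c ξ i) :=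
  (EuclideanSpace.proj (𝕜 := ℝ) i : E3 →L[ℝ] ℝ).contDiff.comp hc

theorem kc_cont {n₀ n₁ : ℤ × ℤ × ℤ} (hc : CFn C x₁ Y₀ c) (hg : GPath v n₀ n₁ (wC v m m' c)) :
    Continuous (KC v m m' c) := by
  have hA : ContDiff ℝ ∞ (fun ξ => M1 v m (c ξ)) := by
    unfold M1
    exact (((PVa_co hc.smooth 0).smul contDiff_const).add
      ((PVa_co hc.smooth 1).smul contDiff_const)).add ((PVa_co hc.smooth 2).smul contDiff_const)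
  exact (Tht_cont hA).comp (Pool.Agent.GLB.gK_smooth hg).continuous

theorem pv_a (hx0 : 0 < x₁) (hx : x₁ < 1 / 16) (hc : CFn C x₁ Y₀ c) {ρ : ℝ} (h0 : 0 ≤ ρ) (h1 : ρ ≤ 1 / 2) :
    wC v m m' c ρ + M1 v m (c (xr ρ)) =
      M1 v m (pt (stp (1 / 4) (3 / 4) ρ) ((1 - g1 ρ) / 2) (Y₀ + (1 - 2 * Y₀) * g1 ρ)) := by
  have e1 : c (xr ρ) = pt 0 0 Y₀ := hc.lo _ ((xr_lo h0 h1).trans hx0.le)
  have e2 : c (xq ρ) = pt 0 0 Y₀ := by rw [c_xq hx0 hx hc h0 (by linarith), e1]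
  have e3 : G3 ρ = 0 := by
    unfold G3
    rw [g1_hi (by linarith), sub_self]
  unfold wC Pool.Agent.STR.stw G0 DD
  rw [e1, e2, e3, M1_pt, M1_pt]
  unfold rv
  simp only [Pool.Agent.CSG.pt_zero', Pool.Agent.CSG.pt_one', Pool.Agent.CSG.pt_two', Prod.smul_mk, Prod.mk_add_mk, Prod.mk_sub_mk, smul_eq_mul]
  refine Prod.ext ?_ (Prod.ext ?_ ?_) <;> simp only <;> ring

theorem pv_b (hx0 : 0 < x₁) (hx : x₁ < 1 / 16) (hc : CFn C x₁ Y₀ c) {ρ : ℝ} (h0 : 1 / 2 ≤ ρ) (h1 : ρ ≤ 5 / 6) :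
    wC v m m' c ρ + M1 v m (c (xr ρ)) = stp (1 / 4) (3 / 4) ρ • rv v + rv m - M1 v m (c (xr ρ)) := by
  have e2 : c (xq ρ) = c (xr ρ) := c_xq hx0 hx hc (by linarith) (by linarith)
  have e3 : G3 ρ = 0 := by
    unfold G3
    rw [g1_hi (by linarith), sub_self]
  have e4 : g1 ρ = 1 := g1_hi (by linarith)
  unfold wC Pool.Agent.STR.stw G0 DD M1
  rw [e2, e3, e4]
  unfold rv
  simp only [Prod.smul_mk, Prod.mk_add_mk, Prod.mk_sub_mk, smul_eq_mul]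
  refine Prod.ext ?_ (Prod.ext ?_ ?_) <;> simp only <;> ring

theorem pv_c (hA : CHO.Alg C v m m') (hx0 : 0 < x₁) (hx : x₁ < 1 / 16) (hc : CFn C x₁ Y₀ c) {ρ : ℝ} (h0 : 2 / 3 ≤ ρ) (h1 : ρ ≤ 1) :
    wC v m m' c ρ + M1 v m (c (xr ρ)) =
      M2 v m' (pt (stp (1 / 4) (3 / 4) ρ) (G3 ρ / 2) (Y₀ + (1 - 2 * Y₀) * (1 - G3 ρ))) + (rv m - rv m') := by
  have e2 : c (xq ρ) = c (xr ρ) := c_xq hx0 hx hc (by linarith) (by linarith)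
  have e1 : M1 v m (c (xr ρ)) = M2 v m' (pt 0 0 Y₀) := by
    have := xr_hi h0 h1
    rw [hc.hi _ (by linarith), M1_act hA]
  have e4 : g1 ρ = 1 := g1_hi (by linarith)
  have f := e1
  rw [M2_pt] at f
  unfold M1 rv at f
  simp only [Prod.smul_mk, Prod.mk_add_mk, smul_eq_mul, Prod.mk.injEq] at f
  obtain ⟨f1, f2, f3⟩ := f
  rw [e1, M2_pt, M2_pt]
  unfold wC Pool.Agent.STR.stw G0 DD
  rw [e2, e4]
  unfold rv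
  simp only [Prod.smul_mk, Prod.mk_add_mk, Prod.mk_sub_mk, smul_eq_mul]
  refine Prod.ext ?_ (Prod.ext ?_ ?_) <;> simp only
  · linear_combination (-2 * (1 - G3 ρ)) * f1
  · linear_combination (-2 * (1 - G3 ρ)) * f2
  · linear_combination (-2 * (1 - G3 ρ)) * f3

/-- the first strand in the first solid torus -/
theorem pv_d (hx0 : 0 < x₁) (hc : CFn C x₁ Y₀ c) {ρ : ℝ} (h0 : 0 ≤ ρ) (h1 : ρ ≤ 1 / 2) :
    M1 v m (c (xr ρ)) = M1 v m (pt 0 0 Y₀) := by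
  rw [hc.lo _ ((xr_lo h0 h1).trans hx0.le)]

/-- the first strand in the second solid torus -/
theorem pv_e (hA : CHO.Alg C v m m') (hx : x₁ < 1 / 16) (hc : CFn C x₁ Y₀ c) {ρ : ℝ} (h0 : 2 / 3 ≤ ρ) (h1 : ρ ≤ 1) :
    M1 v m (c (xr ρ)) = M2 v m' (pt 0 0 Y₀) := by
  have := xr_hi h0 h1
  rw [hc.hi _ (by linarith), M1_act hA]

end Pool.Agent.CPI
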