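import Pool.Agent.CPI.Lin
import Pool.Agent.GLB.Prf

/-!
# CPI/Pok: the path is a star path   (difficulty 2-3)

`xr ρ = (p² - q²)/(p² + q²)`, `p = prf ρ`, `q = prf (1 - ρ)` (not both `0`: `p = 0` only for `ρ = 0` (`GLB.prf_ne`), then `q = 1`), so `xr` is smooth, `|xr| ≤ 1`.
`S₀ = stp 0 (1/4)`, `S₁ = stp (3/4) 1` (`CSG.stp_zero`, `stp_one`, `stp_nonneg`, `stp_le_one`, `stp_smooth`).  `xq = S₀ ((1 - S₁) xr + S₁) - (1 - S₀)`.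
* `xr_lo`: `0 ≤ ρ ≤ 1/2`: `prf ρ ≤ prf (1 - ρ)` (`GLB.Prf_mono`), both `≥ 0`, so `xr ρ ≤ 0`.  `xr_hi`: `2/3 ≤ ρ ≤ 1`: `prf ρ = 1` (`prf_big`), `prf (1 - ρ) = 1 - ρ ≤ 1/3` (`prf_small`), so `xr ρ ≥ (1 - 1/9)/(1 + 1/9) = 4/5`.
* `xq_lo`: `ρ ≤ 1/2`: `S₁ = 0`, `xq = S₀ xr - (1 - S₀)`; if `ρ ≤ 0` it is `-1`; if `0 ≤ ρ ≤ 1/2`, `xr ≤ 0`.  `xq_hi`: `ρ ≥ 3/4`: `S₀ = 1`, `xq = (1 - S₁) xr + S₁`; if `ρ ≥ 1` it is `1`; if `3/4 ≤ ρ ≤ 1`, `xr ≥ 4/5`.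
* `xq_mid`: `1/4 ≤ ρ ≤ 3/4`: `S₀ = 1`, `S₁ = 0`.
* `c_xq`: `0 ≤ ρ ≤ 1`: `c (xq ρ) = c (xr ρ)`: for `ρ ≤ 1/4` both arguments are `≤ 0 ≤ x₁` (`lo`), in the middle `xq = xr`, for `ρ ≥ 3/4` both are `≥ 4/5 ≥ 2 x₁` (`hi`; `x₁ < 1/16`).
* `path_steps`: `g1` (`CPI/KAy`): `g1 = 0` for `ρ ≤ 1/12`, `= 1` for `ρ ≥ 1/6`; `G3 ρ = 1 - g1 (1 - ρ)`: `0` for `ρ ≤ 5/6`, `1` for `ρ ≥ 11/12`, monotone.
* `path_crv`: `DD` is smooth (coordinates of `c ∘ xq`), `≠ 0` (`ne`), constant for `ρ ≤ 1/2` (`lo`: `c = pt 0 0 Y₀`, `DD = ⟨0, -2 Y₀⟩`), and for `ρ ≥ 3/4` (`hi`: `c = act C (pt 0 0 Y₀)`).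
* `path_inn`: `-2 Y₀ < 0`.  `path_out`: `act C (pt 0 0 Y₀) = Y₀ (C 0 2, C 1 2, C 2 2)`, and `v₃ C₁₂ + hz2 v m C₂₂ = hz2 v m' = 1` (apply the linear form `x ↦ v₃ x₁ - v₁ x₃` to `hA.e2x`, `hA.e2z`; it is `0` on `v`; `hA.uni'`), so the value is
  `-2 Y₀ < 0`.
* `path_g0`: smooth; `ρ ≤ 1/4`: `stp = 0`, `c (xq ρ) 0 = 0`; `ρ ≥ 11/12`: `stp (1/4) (3/4) ρ = 1`, `1 - G3 ρ = g1 (1 - ρ) = 0`.
-/

open scoped Manifold ContDiff Topology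
open Set Filter

namespace Pool.Agent.CPI

open Pool.Agent.CSG (E3 pt act vec stp)
open Pool.Agent.GLB (rv hz1 hz2)
open Pool.Agent.STR (Steps Crv)

variable {C : Matrix (Fin 3) (Fin 3) ℤ} {v m m' : ℤ × ℤ × ℤ} {x₁ Y₀ : ℝ} {c : ℝ → E3}

theorem Pok_nonneg {ρ : ℝ} (h0 : 0 ≤ ρ) (h1 : ρ ≤ 1) : 0 ≤ Pool.Agent.PTH.prf ρ := by
  have h := Pool.Agent.GLB.Prf_mono h0 h1
  rw [Pool.Agent.GLB.prf_zero] at h
  exact h

theorem Pok_ne (ρ : ℝ) : Pool.Agent.PTH.prf ρ ^ 2 + Pool.Agent.PTH.prf (1 - ρ) ^ 2 ≠ 0 := by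
  by_cases h : ρ = 0
  · subst h
    rw [sub_zero, Pool.Agent.GLB.prf_one, Pool.Agent.GLB.prf_zero]
    norm_num
  · have h1 := Pool.Agent.GLB.prf_ne h
    have h2 : 0 < Pool.Agent.PTH.prf ρ ^ 2 := by positivity
    have h3 : 0 ≤ Pool.Agent.PTH.prf (1 - ρ) ^ 2 := sq_nonneg _
    linarith

theorem Pok_xr : ContDiff ℝ ∞ xr := by
  have h1 := Pool.Agent.GLB.prf_smooth
  have h2 : ContDiff ℝ ∞ fun ρ : ℝ => Pool.Agent.PTH.prf (1 - ρ) :=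
    h1.comp (contDiff_const.sub contDiff_id)
  exact ((h1.pow 2).sub (h2.pow 2)).div ((h1.pow 2).add (h2.pow 2)) Pok_ne

theorem Pok_xq : ContDiff ℝ ∞ xq := by
  have h0 := CSG.stp_smooth 0 (1 / 4)
  have h1 := CSG.stp_smooth (3 / 4) 1
  exact (h0.mul (((contDiff_const.sub h1).mul Pok_xr).add h1)).sub (contDiff_const.sub h0)

theorem xr_lo {ρ : ℝ} (h0 : 0 ≤ ρ) (h1 : ρ ≤ 1 / 2) : xr ρ ≤ 0 := by
  have hp := Pok_nonneg h0 (by linarith)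
  have hq : Pool.Agent.PTH.prf ρ ≤ Pool.Agent.PTH.prf (1 - ρ) :=
    Pool.Agent.GLB.Prf_mono (by linarith) (by linarith)
  unfold xr
  apply div_nonpos_of_nonpos_of_nonneg
  · nlinarith
  · positivity

theorem xr_hi {ρ : ℝ} (h0 : 2 / 3 ≤ ρ) (h1 : ρ ≤ 1) : 4 / 5 ≤ xr ρ := by
  unfold xr
  rw [Pool.Agent.GLB.prf_big h0, Pool.Agent.GLB.prf_small (x := 1 - ρ) (by linarith)]
  rw [le_div_iff₀ (by positivity)]
  have h2 : 0 ≤ 1 - ρ := by linarith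
  have h3 : 1 - ρ ≤ 1 / 3 := by linarith
  nlinarith

theorem xq_lo {ρ : ℝ} (h1 : ρ ≤ 1 / 2) : xq ρ ≤ 0 := by
  unfold xq
  rw [CSG.stp_zero (a := 3 / 4) (b := 1) (by norm_num) (by linarith)]
  rcases le_total ρ 0 with h | h
  · rw [CSG.stp_zero (a := 0) (b := 1 / 4) (by norm_num) h]
    norm_num
  · have hx := xr_lo h h1
    have s0 := CSG.stp_nonneg 0 (1 / 4) ρ
    have s1 := CSG.stp_le_one 0 (1 / 4) ρ
    nlinarith [mul_nonneg s0 (neg_nonneg.2 hx)]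

theorem xq_hi {ρ : ℝ} (h1 : 3 / 4 ≤ ρ) : 4 / 5 ≤ xq ρ := by
  unfold xq
  rw [CSG.stp_one (a := 0) (b := 1 / 4) (by norm_num) (by linarith)]
  rcases le_total ρ 1 with h | h
  · have hx := xr_hi (ρ := ρ) (by linarith) h
    have s0 := CSG.stp_nonneg (3 / 4) 1 ρ
    have s1 := CSG.stp_le_one (3 / 4) 1 ρ
    nlinarith [mul_nonneg (sub_nonneg.2 s1) (sub_nonneg.2 hx)]
  · rw [CSG.stp_one (a := 3 / 4) (b := 1) (by norm_num) h]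
    norm_num

theorem Pok_mid {ρ : ℝ} (h0 : 1 / 4 ≤ ρ) (h1 : ρ ≤ 3 / 4) : xq ρ = xr ρ := by
  unfold xq
  rw [CSG.stp_one (a := 0) (b := 1 / 4) (by norm_num) h0, CSG.stp_zero (a := 3 / 4) (b := 1) (by norm_num) h1]
  ring

theorem Pok_clo (hx0 : 0 < x₁) (hc : CFn C x₁ Y₀ c) {ρ : ℝ} (h : ρ ≤ 1 / 2) : c (xq ρ) = pt 0 0 Y₀ :=
  hc.lo _ ((xq_lo h).trans hx0.le)

theorem Pok_chi (hx : x₁ < 1 / 16) (hc : CFn C x₁ Y₀ c) {ρ : ℝ} (h : 3 / 4 ≤ ρ) :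
    c (xq ρ) = act C (pt 0 0 Y₀) :=
  hc.hi _ (by linarith [xq_hi h])

theorem c_xq (hx0 : 0 < x₁) (hx : x₁ < 1 / 16) (hc : CFn C x₁ Y₀ c) {ρ : ℝ} (h0 : 0 ≤ ρ) (h1 : ρ ≤ 1) :
    c (xq ρ) = c (xr ρ) := by
  rcases le_total ρ (1 / 4) with h | h
  · rw [Pok_clo hx0 hc (by linarith), hc.lo _ ((xr_lo h0 (by linarith)).trans hx0.le)]
  · rcases le_total ρ (3 / 4) with h' | h'
    · rw [Pok_mid h h']
    · rw [Pok_chi hx hc h', hc.hi _ (by linarith [xr_hi (ρ := ρ) (by linarith) h1])]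

theorem Pok_G3 : ContDiff ℝ ∞ G3 :=
  contDiff_const.sub (g1_smooth.comp (contDiff_const.sub contDiff_id))

theorem path_steps : Steps (1 / 2) (3 / 4) g1 G3 where
  lo := by norm_num
  lt := by norm_num
  lo' := by norm_num
  hi := by norm_num
  sm₁ := g1_smooth
  sm₃ := Pok_G3
  mono₁ := g1_mono
  mono₃ := by
    intro x y h
    have := g1_mono (show 1 - y ≤ 1 - x by linarith)
    unfold G3
    linarith
  start := ⟨1 / 12, by norm_num, fun ρ h => g1_lo h⟩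
  one := fun ρ h => g1_hi (by linarith)
  zero := by
    intro ρ h
    unfold G3
    rw [g1_hi (by linarith)]
    norm_num
  stop := ⟨1 / 12, by norm_num, fun ρ h => by
    unfold G3
    rw [g1_lo (by linarith)]
    norm_num⟩

theorem Pok_cs (hc : CFn C x₁ Y₀ c) (i : Fin 3) : ContDiff ℝ ∞ fun ρ => c (xq ρ) i :=
  (contDiff_euclidean.1 (hc.smooth.comp Pok_xq)) i

theorem path_crv (hx0 : 0 < x₁) (hx : x₁ < 1 / 16) (hc : CFn C x₁ Y₀ c) : Crv (1 / 2) (3 / 4) (DD c) where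
  smooth := by
    have h1 : ContDiff ℝ ∞ fun ρ => ((-2 * c (xq ρ) 1 : ℝ) : ℂ) :=
      Complex.ofRealCLM.contDiff.comp (contDiff_const.mul (Pok_cs hc 1))
    have h2 : ContDiff ℝ ∞ fun ρ => ((-2 * c (xq ρ) 2 : ℝ) : ℂ) :=
      Complex.ofRealCLM.contDiff.comp (contDiff_const.mul (Pok_cs hc 2))
    have h3 : DD c = fun ρ => ((-2 * c (xq ρ) 1 : ℝ) : ℂ) + ((-2 * c (xq ρ) 2 : ℝ) : ℂ) * Complex.I := by
      funext ρ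
      unfold DD
      exact Complex.mk_eq_add_mul_I _ _
    rw [h3]
    exact h1.add (h2.mul contDiff_const)
  ne := by
    intro ρ h
    have h1 : -2 * c (xq ρ) 1 = 0 := congrArg Complex.re h
    have h2 : -2 * c (xq ρ) 2 = 0 := congrArg Complex.im h
    rcases hc.ne (xq ρ) with h3 | h3
    · exact h3 (by linarith)
    · exact h3 (by linarith)
  lo := by
    intro ρ h
    unfold DD
    rw [Pok_clo hx0 hc h, Pok_clo hx0 hc le_rfl]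
  hi := by
    intro ρ h
    unfold DD
    rw [Pok_chi hx hc h, Pok_chi hx hc le_rfl]

theorem path_inn (hx0 : 0 < x₁) (hc : CFn C x₁ Y₀ c) (h0 : 0 < Y₀) : (DD c (1 / 2)).im < 0 := by
  show -2 * c (xq (1 / 2)) 2 < 0
  rw [Pok_clo hx0 hc le_rfl]
  have : (pt 0 0 Y₀ : E3) 2 = Y₀ := by simp [pt]
  rw [this]
  linarith

theorem path_out (hA : CHO.Alg C v m m') (hx0 : 0 < x₁) (hx : x₁ < 1 / 16) (hc : CFn C x₁ Y₀ c) (h0 : 0 < Y₀) :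
    v.2.2 * (DD c (3 / 4)).re + hz2 v m * (DD c (3 / 4)).im < 0 := by
  show (v.2.2 : ℝ) * (-2 * c (xq (3 / 4)) 1) + hz2 v m * (-2 * c (xq (3 / 4)) 2) < 0
  rw [Pok_chi hx hc le_rfl]
  have e1 : act C (pt 0 0 Y₀) 1 = C 1 2 * Y₀ := by
    simp [act, Fin.sum_univ_three, pt]
  have e2 : act C (pt 0 0 Y₀) 2 = C 2 2 * Y₀ := by
    simp [act, Fin.sum_univ_three, pt]
  rw [e1, e2]
  have b1 : (C 0 2 : ℝ) * v.1 + C 1 2 + C 2 2 * m.1 = m'.1 := by exact_mod_cast hA.e2x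
  have b3 : (C 0 2 : ℝ) * v.2.2 + C 2 2 * m.2.2 = m'.2.2 := by exact_mod_cast hA.e2z
  have u : (v.1 : ℝ) * m'.2.2 - m'.1 * v.2.2 = -1 := by exact_mod_cast hA.uni'
  have hz : (hz2 v m : ℝ) = v.2.2 * m.1 - v.1 * m.2.2 := by
    unfold hz2
    push_cast
    ring
  rw [hz]
  have key : (v.2.2 : ℝ) * (-2 * (C 1 2 * Y₀)) + (v.2.2 * m.1 - v.1 * m.2.2) * (-2 * (C 2 2 * Y₀)) = -2 * Y₀ := by
    linear_combination (-2 * Y₀ * v.2.2) * b1 + (2 * Y₀ * v.1) * b3 + (2 * Y₀) * u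
  rw [key]
  linarith

theorem G0_smooth (hx0 : 0 < x₁) (hc : CFn C x₁ Y₀ c) : ContDiff ℝ ∞ (G0 c) := by
  exact (CSG.stp_smooth (1 / 4) (3 / 4)).sub
    ((contDiff_const.mul (Pok_cs hc 0)).mul (contDiff_const.sub Pok_G3))

theorem G0_lo (hx0 : 0 < x₁) (hc : CFn C x₁ Y₀ c) {ρ : ℝ} (h : ρ ≤ 1 / 4) : G0 c ρ = 0 := by
  unfold G0
  rw [Pok_clo hx0 hc (by linarith), CSG.stp_zero (by norm_num) h]
  have : (pt 0 0 Y₀ : E3) 0 = 0 := by simp [pt]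
  rw [this]
  ring

theorem G0_hi {ρ : ℝ} (c : ℝ → E3) (h : 11 / 12 ≤ ρ) : G0 c ρ = 1 := by
  unfold G0 G3
  rw [CSG.stp_one (by norm_num) (by linarith), g1_lo (by linarith)]
  ring

end Pool.Agent.CPI
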